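import Pool.Agent.TN.Lin
import Pool.Agent.H68.VD.Tr
import Pool.Agent.H68.VD.VelDiv

/-!
# Project TN (MP_b0bf68_gt): basic facts on paths of symplectic maps of the torus
-/

set_option autoImplicit false

open MeasureTheory Set Pool.Agent.H68.VD
open scoped ENNReal ContDiff

namespace TN

noncomputable section

variable {n : ℕ}

theorem lat_deck (m : ℕ) : FlatDeck (lat m) := by
  have hadd : ∀ k l : Fin m → ℤ, (iv (k + l) : Eu m) = iv k + iv l := by
    intro k l
    ext i
    simp [iv]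
  have hzero : (iv 0 : Eu m) = 0 := by
    ext i
    simp [iv]
  refine ⟨⟨0, ?_⟩, ?_, ?_, fun k => ⟨k, rfl⟩, ?_, ?_, ?_⟩
  · funext x
    simp [hzero]
  · rintro _ ⟨k, rfl⟩ _ ⟨l, rfl⟩
    refine ⟨l + k, ?_⟩
    funext x
    simp only [Function.comp]
    rw [hadd, add_assoc]
  · rintro _ ⟨k, rfl⟩
    refine ⟨fun x => x + iv (-k), ⟨-k, rfl⟩, ?_, ?_⟩
    · funext x
      simp only [Function.comp, id]
      rw [TrA.iv_neg]
      abel
    · funext x
      simp only [Function.comp, id]
      rw [TrA.iv_neg]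
      abel
  · refine ⟨{id}, Set.finite_singleton _, ?_⟩
    rintro _ ⟨k, rfl⟩
    exact ⟨id, rfl, k, fun x => rfl⟩
  · rintro _ ⟨k, rfl⟩
    refine ⟨fun v => v, ?_, fun c v => rfl, fun l => ⟨l, rfl⟩⟩
    intro x v
    show x + v + iv k = x + iv k + v
    abel
  · rintro _ ⟨k, rfl⟩ hne x hx
    apply hne
    have h1 : (iv k : Eu m) = 0 := by
      have h2 : x + iv k = x + 0 := by rw [add_zero]; exact hx
      exact add_left_cancel h2
    funext y
    show y + iv k = y
    rw [h1, add_zero]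

private theorem ip {φ : ℝ → Eu (n + n) → Eu (n + n)} (h : SPath φ) :
    IsPath (TrA.sub (lat_deck (n + n))) φ :=
  (TrA.path_iff (lat_deck (n + n)) φ).1 h.path

theorem vel_smooth {φ : ℝ → Eu (n + n) → Eu (n + n)} (h : SPath φ) :
    ContDiff ℝ ∞ (fun z : ℝ × Eu (n + n) => vel φ z.1 z.2) :=
  FamA.velSmooth (ip h)

theorem vel_per {φ : ℝ → Eu (n + n) → Eu (n + n)} (h : SPath φ) (t : ℝ) : Per (vel φ t) := by
  intro x k
  have h6 := FamA.velEqui (ip h) _ ((TrA.deck (lat_deck (n + n))).trans k) t x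
  rw [FluxA.trans_apply] at h6
  rw [h6]
  rfl

theorem vel_eq {φ : ℝ → Eu (n + n) → Eu (n + n)} (h : SPath φ) (t : ℝ) (x : Eu (n + n)) :
    HasDerivAt (fun τ => φ τ x) (vel φ t (φ t x)) t :=
  FamA.velEq (ip h) t x

/-- composition of symplectic maps -/
private theorem sp_comp {f g : Eu (n + n) → Eu (n + n)} (hf : Differentiable ℝ f)
    (hg : Differentiable ℝ g)
    (sf : ∀ x v w, om (fderiv ℝ f x v) (fderiv ℝ f x w) = om v w)
    (sg : ∀ x v w, om (fderiv ℝ g x v) (fderiv ℝ g x w) = om v w) (x v w : Eu (n + n)) :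
    om (fderiv ℝ (fun x => f (g x)) x v) (fderiv ℝ (fun x => f (g x)) x w) = om v w := by
  have h1 : fderiv ℝ (fun x => f (g x)) x = (fderiv ℝ f (g x)).comp (fderiv ℝ g x) :=
    fderiv_comp x (hf _) (hg _)
  rw [h1]
  show om (fderiv ℝ f (g x) (fderiv ℝ g x v)) (fderiv ℝ f (g x) (fderiv ℝ g x w)) = om v w
  rw [sf, sg]

/-- the inverse of a symplectic map -/
private theorem sp_inv {f g : Eu (n + n) → Eu (n + n)} (hf : Differentiable ℝ f)
    (hg : Differentiable ℝ g) (hfg : ∀ x, f (g x) = x)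
    (sf : ∀ x v w, om (fderiv ℝ f x v) (fderiv ℝ f x w) = om v w) (x v w : Eu (n + n)) :
    om (fderiv ℝ g x v) (fderiv ℝ g x w) = om v w := by
  have h1 : fderiv ℝ (fun x => f (g x)) x = (fderiv ℝ f (g x)).comp (fderiv ℝ g x) :=
    fderiv_comp x (hf _) (hg _)
  have h2 : (fun x => f (g x)) = fun x => x := funext hfg
  rw [h2] at h1
  have h3 : ∀ v, fderiv ℝ f (g x) (fderiv ℝ g x v) = v := by
    intro v
    have h4 := congrArg (fun L : Eu (n + n) →L[ℝ] Eu (n + n) => L v) h1
    have h5 : fderiv ℝ (fun x : Eu (n + n) => x) x v = v := by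
      rw [fderiv_fun_id]; rfl
    exact h4.symm.trans h5
  rw [← sf (g x), h3, h3]

private theorem smooth_at {φ : ℝ → Eu (n + n) → Eu (n + n)}
    (h : ContDiff ℝ ∞ (fun q : ℝ × Eu (n + n) => φ q.1 q.2)) (t : ℝ) : ContDiff ℝ ∞ (φ t) :=
  h.comp (contDiff_const.prodMk contDiff_id)

private theorem diff_at {φ : ℝ → Eu (n + n) → Eu (n + n)}
    (h : ContDiff ℝ ∞ (fun q : ℝ × Eu (n + n) => φ q.1 q.2)) (t : ℝ) : Differentiable ℝ (φ t) :=
  (smooth_at h t).differentiable (by simp)

theorem vel_sy {φ : ℝ → Eu (n + n) → Eu (n + n)} (h : SPath φ) (t : ℝ) : SyF (vel φ t) := by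
  intro x v w
  have hinv := FamA.isFamInv (ip h)
  obtain ⟨g, hg⟩ : ∃ g : Eu (n + n) → Eu (n + n), g = Function.invFun (φ t) := ⟨_, rfl⟩
  have hgs : ContDiff ℝ ∞ g := by
    rw [hg]
    exact hinv.smooth.comp (contDiff_const.prodMk contDiff_id)
  have hgd : Differentiable ℝ g := hgs.differentiable (by simp)
  have hfg : ∀ x, φ t (g x) = x := by
    intro x
    rw [hg]
    exact Function.rightInverse_invFun (h.path.bij t).2 x
  have hU : ContDiff ℝ ∞ (fun q : ℝ × Eu (n + n) => φ q.1 (g q.2)) :=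
    h.path.smooth.comp (contDiff_fst.prodMk (hgs.comp contDiff_snd))
  have h1 : ∀ y, HasDerivAt (fun τ => fderiv ℝ (fun z => φ τ (g z)) x y)
      (fderiv ℝ (vel φ t) x y) t := by
    intro y
    have h2 := VelDivA.mixed (fun q : ℝ × Eu (n + n) => φ q.1 (g q.2)) hU t x y
    have h3 : (fun z => deriv (fun τ => φ τ (g z)) t) = vel φ t := by
      funext z
      rw [hg]
      rfl
    rw [h3] at h2
    exact h2
  have hid : ∀ y, fderiv ℝ (fun z => φ t (g z)) x y = y := by
    intro y
    have h2 : (fun z => φ t (g z)) = fun z => z := funext hfg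
    rw [h2, fderiv_fun_id]
    rfl
  have hsp : ∀ τ, om (fderiv ℝ (fun z => φ τ (g z)) x v) (fderiv ℝ (fun z => φ τ (g z)) x w)
      = om v w := fun τ =>
    sp_comp (diff_at h.path.smooth τ) hgd (h.symp τ)
      (sp_inv (diff_at h.path.smooth t) hgd hfg (h.symp t)) x v w
  have h4 : HasDerivAt (fun τ => om (fderiv ℝ (fun z => φ τ (g z)) x v)
      (fderiv ℝ (fun z => φ τ (g z)) x w))
      (om (fderiv ℝ (vel φ t) x v) w + om v (fderiv ℝ (vel φ t) x w)) t := by
    have h5 : HasDerivAt (fun τ => JL n (fderiv ℝ (fun z => φ τ (g z)) x v))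
        (JL n (fderiv ℝ (vel φ t) x v)) t := (JL n).hasFDerivAt.comp_hasDerivAt t (h1 v)
    have h6 := h5.inner ℝ (h1 w)
    rw [hid, hid] at h6
    simp only [om_J]
    exact h6.congr_deriv (add_comm _ _)
  have h7 : (fun τ => om (fderiv ℝ (fun z => φ τ (g z)) x v)
      (fderiv ℝ (fun z => φ τ (g z)) x w)) = fun _ => om v w := funext hsp
  rw [h7] at h4
  exact h4.unique (hasDerivAt_const t _)

theorem dsp_deriv {φ : ℝ → Eu (n + n) → Eu (n + n)} (h : SPath φ) (t : ℝ) :
    HasDerivAt (fun τ => dsp (φ τ)) (mn (vel φ t)) t :=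
  (fluxKit famKit).mean (n + n) _ (TrA.deck (lat_deck (n + n))) φ (ip h) t

private theorem dsp_smooth {φ : ℝ → Eu (n + n) → Eu (n + n)} (h : SPath φ) :
    ContDiff ℝ ∞ (fun τ => dsp (φ τ)) :=
  FluxA.smooth_int (fun τ x => φ τ x - x) (h.path.smooth.sub contDiff_snd)

private theorem nrm_path {φ : ℝ → Eu (n + n) → Eu (n + n)} (h : SPath φ) :
    SPath (fun t => nrm (φ t)) := by
  have hfd : ∀ t x, fderiv ℝ (nrm (φ t)) x = fderiv ℝ (φ t) x := by
    intro t x
    have h2 : fderiv ℝ (fun x => φ t x - dsp (φ t)) x = fderiv ℝ (φ t) x := by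
      rw [fderiv_sub_const]
    exact h2
  refine ⟨⟨?_, ?_, ?_, ?_⟩, ?_⟩
  · exact h.path.smooth.sub ((dsp_smooth h).comp contDiff_fst)
  · intro t
    constructor
    · intro x y hxy
      exact (h.path.bij t).1 (sub_left_injective hxy)
    · intro y
      obtain ⟨x, hx⟩ := (h.path.bij t).2 (y + dsp (φ t))
      exact ⟨x, by show φ t x - dsp (φ t) = y; rw [hx]; abel⟩
  · intro t x
    show (fderiv ℝ (nrm (φ t)) x).det = 1
    rw [hfd]
    exact h.path.det t x
  · rintro t _ ⟨k, rfl⟩ x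
    have h2 := h.path.equi t _ ⟨k, rfl⟩ x
    show φ t (x + iv k) - dsp (φ t) = φ t x - dsp (φ t) + iv k
    have h3 : φ t (x + iv k) = φ t x + iv k := h2
    rw [h3]
    abel
  · intro t x v w
    show om (fderiv ℝ (nrm (φ t)) x v) (fderiv ℝ (nrm (φ t)) x w) = om v w
    rw [hfd]
    exact h.symp t x v w

private theorem dsp_id : dsp (id : Eu (n + n) → Eu (n + n)) = 0 := by
  show ∫ x in cube (n + n), ((id x : Eu (n + n)) - x) = 0
  simp

/-- moving frame: the path with mean displacement zero -/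
theorem frame {φ : ℝ → Eu (n + n) → Eu (n + n)} (h : SPath φ) (h0 : φ 0 = id) :
    SPath (fun t => nrm (φ t)) ∧ nrm (φ 0) = id ∧
      (∀ t, mn (vel (fun t => nrm (φ t)) t) = 0) ∧
      ∀ t x, vel (fun t => nrm (φ t)) t x = vel φ t (x + dsp (φ t)) - mn (vel φ t) := by
  have hp := nrm_path h
  refine ⟨hp, ?_, ?_, ?_⟩
  · funext x
    show φ 0 x - dsp (φ 0) = x
    rw [h0, dsp_id, sub_zero]
    rfl
  · intro t
    have h2 := dsp_deriv hp t
    have h3 : (fun τ => dsp ((fun t => nrm (φ t)) τ)) = fun _ => 0 := by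
      funext τ
      have hs : ContDiff ℝ ∞ (φ τ) := smooth_at h.path.smooth τ
      have h4 : ∀ x, nrm (φ τ) x - x = (φ τ x - x) - dsp (φ τ) := fun x => by
        show φ τ x - dsp (φ τ) - x = _
        abel
      show ∫ x in cube (n + n), (nrm (φ τ) x - x) = 0
      simp only [h4]
      have hi : IntegrableOn (fun x => φ τ x - x) (cube (n + n)) volume :=
        HsA.int_cube (hs.continuous.sub continuous_id)
      rw [integral_sub hi (integrable_const _), setIntegral_const, Measure.real, HsA.vol_cube]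
      simp [dsp]
    rw [h3] at h2
    exact h2.unique (hasDerivAt_const t 0)
  · intro t x
    obtain ⟨y, hy⟩ := (hp.path.bij t).2 x
    have hy' : φ t y - dsp (φ t) = x := hy
    have h1 := vel_eq hp t y
    have h2 : HasDerivAt (fun τ => nrm (φ τ) y) (vel φ t (φ t y) - mn (vel φ t)) t :=
      (vel_eq h t y).sub (dsp_deriv h t)
    have h3 := h1.unique h2
    rw [hy] at h3
    rw [h3, ← hy']
    congr 2
    abel

/-- composition on the right with the inverse of an element of the group -/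
theorem right_div {f g : Eu (n + n) → Eu (n + n)} (hf : SG f) (hg : SG g) :
    ∃ k : Eu (n + n) → Eu (n + n), SG k ∧ (∀ x, k (f x) = x) ∧ (∀ x, f (k x) = x) ∧
      SG (fun x => g (k x)) ∧
      ∀ φ : ℝ → Eu (n + n) → Eu (n + n), SPath φ → φ 0 = f → SPath (fun t x => φ t (k x)) ∧
        ∀ t, vel (fun t x => φ t (k x)) t = vel φ t := by
  obtain ⟨φf, hφf, hf0, hf1⟩ := hf
  obtain ⟨φg, hφg, hg0, hg1⟩ := hg
  have hinv : IsPath (TrA.sub (lat_deck (n + n))) (fun t => Function.invFun (φf t)) :=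
    FamA.isFamInv (ip hφf)
  have hip : FPath (lat (n + n)) (fun t => Function.invFun (φf t)) :=
    (TrA.path_iff (lat_deck (n + n)) _).2 hinv
  have hid : Function.invFun (id : Eu (n + n) → Eu (n + n)) = id := by
    funext x
    exact Function.leftInverse_invFun (f := (id : Eu (n + n) → Eu (n + n))) Function.injective_id x
  have hbij : Function.Bijective f := hf1 ▸ hφf.path.bij 1
  have hk1 : ∀ x, Function.invFun f (f x) = x := Function.leftInverse_invFun hbij.1
  have hk2 : ∀ x, f (Function.invFun f x) = x := Function.rightInverse_invFun hbij.2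
  have hkb : Function.Bijective (Function.invFun f) :=
    ⟨fun x y hxy => by rw [← hk2 x, ← hk2 y, hxy], fun x => ⟨f x, hk1 x⟩⟩
  have hsi : ∀ t x v w, om (fderiv ℝ (Function.invFun (φf t)) x v)
      (fderiv ℝ (Function.invFun (φf t)) x w) = om v w := fun t =>
    sp_inv (diff_at hφf.path.smooth t)
      (diff_at (φ := fun t => Function.invFun (φf t)) hip.smooth t)
      (Function.rightInverse_invFun (hφf.path.bij t).2) (hφf.symp t)
  refine ⟨Function.invFun f, ?_, hk1, hk2, ?_, ?_⟩
  · refine ⟨fun t => Function.invFun (φf t), ⟨hip, hsi⟩, ?_, ?_⟩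
    · show Function.invFun (φf 0) = id
      rw [hf0, hid]
    · show Function.invFun (φf 1) = Function.invFun f
      rw [hf1]
  · refine ⟨fun t x => φg t (Function.invFun (φf t) x), ⟨(TrA.path_iff (lat_deck (n + n)) _).2
      (FamA.isFamComp (ip hφg) hinv), fun t => ?_⟩, ?_, ?_⟩
    · exact sp_comp (diff_at hφg.path.smooth t)
        (diff_at (φ := fun t => Function.invFun (φf t)) hip.smooth t) (hφg.symp t) (hsi t)
    · funext x
      show φg 0 (Function.invFun (φf 0) x) = x
      rw [hf0, hg0, hid]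
      rfl
    · funext x
      show φg 1 (Function.invFun (φf 1) x) = g (Function.invFun f x)
      rw [hf1, hg1]
  · intro φ hφ _
    have hc : IsPath (TrA.sub (lat_deck (n + n))) (fun _ => Function.invFun f) := by
      have h1 := FamA.isFamRe (E' := ℝ) (h := fun _ => (1 : ℝ)) hinv contDiff_const
      simp only [hf1] at h1
      exact h1
    refine ⟨⟨(TrA.path_iff (lat_deck (n + n)) _).2 (FamA.isFamComp (ip hφ) hc), fun t => ?_⟩, ?_⟩
    · have h1 := hsi 1
      have h2 := diff_at (φ := fun t => Function.invFun (φf t)) hip.smooth 1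
      rw [hf1] at h1
      have h3 : Differentiable ℝ (Function.invFun f) := by
        have h4 : Function.invFun (φf 1) = Function.invFun f := by rw [hf1]
        rw [← h4]
        exact h2
      exact sp_comp (diff_at hφ.path.smooth t) h3 (hφ.symp t) h1
    · intro t
      funext x
      exact FamA.velConst (Function.invFun f) hφ.path.bij hkb t x

end

end TN
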