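import Pool.Agent.TN.Defs

/-! # Project TN: positions and momenta, linear algebra -/

set_option autoImplicit false

open MeasureTheory Set Pool.Agent.H68.VD
open scoped ENNReal ContDiff

namespace TN

noncomputable section

variable {n : ℕ}

@[simp] theorem qq_pt (a b : Eu n) : qq (pt a b) = a := by
  ext i; simp [qq, pt]

@[simp] theorem pp_pt (a b : Eu n) : pp (pt a b) = b := by
  ext i; simp only [pp, pt, Fin.addCases_right]

@[simp] theorem pt_qq_pp (x : Eu (n + n)) : pt (qq x) (pp x) = x := by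
  ext j
  refine Fin.addCases (fun i => ?_) (fun i => ?_) j
  · simp only [qq, pp, pt, Fin.addCases_left]
  · simp only [qq, pp, pt, Fin.addCases_right]

theorem ext_qp {x y : Eu (n + n)} (h1 : qq x = qq y) (h2 : pp x = pp y) : x = y := by
  rw [← pt_qq_pp x, ← pt_qq_pp y, h1, h2]

@[simp] theorem qq_add (x y : Eu (n + n)) : qq (x + y) = qq x + qq y := by ext i; simp [qq]

@[simp] theorem pp_add (x y : Eu (n + n)) : pp (x + y) = pp x + pp y := by ext i; simp [pp]

@[simp] theorem qq_sub (x y : Eu (n + n)) : qq (x - y) = qq x - qq y := by ext i; simp [qq]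

@[simp] theorem pp_sub (x y : Eu (n + n)) : pp (x - y) = pp x - pp y := by ext i; simp [pp]

@[simp] theorem qq_neg (x : Eu (n + n)) : qq (-x) = -(qq x) := by ext i; simp [qq]

@[simp] theorem pp_neg (x : Eu (n + n)) : pp (-x) = -(pp x) := by ext i; simp [pp]

@[simp] theorem qq_smul (c : ℝ) (x : Eu (n + n)) : qq (c • x) = c • qq x := by ext i; simp [qq]

@[simp] theorem pp_smul (c : ℝ) (x : Eu (n + n)) : pp (c • x) = c • pp x := by ext i; simp [pp]

@[simp] theorem qq_zero : qq (0 : Eu (n + n)) = 0 := by ext i; simp [qq]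

@[simp] theorem pp_zero : pp (0 : Eu (n + n)) = 0 := by ext i; simp [pp]

theorem pt_add (a b a' b' : Eu n) : pt (a + a') (b + b') = pt a b + pt a' b' :=
  ext_qp (by simp) (by simp)

theorem pt_sub (a b a' b' : Eu n) : pt (a - a') (b - b') = pt a b - pt a' b' :=
  ext_qp (by simp) (by simp)

theorem pt_smul (c : ℝ) (a b : Eu n) : pt (c • a) (c • b) = c • pt a b :=
  ext_qp (by simp) (by simp)

@[simp] theorem pt_zero : pt (0 : Eu n) 0 = 0 := ext_qp (by simp) (by simp)

/-- positions, as a continuous linear map -/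
def qL (n : ℕ) : Eu (n + n) →L[ℝ] Eu n :=
  LinearMap.toContinuousLinearMap
    { toFun := qq, map_add' := qq_add, map_smul' := qq_smul }

/-- momenta, as a continuous linear map -/
def pL (n : ℕ) : Eu (n + n) →L[ℝ] Eu n :=
  LinearMap.toContinuousLinearMap
    { toFun := pp, map_add' := pp_add, map_smul' := pp_smul }

/-- `b ↦ (0, b)` -/
def iP (n : ℕ) : Eu n →L[ℝ] Eu (n + n) :=
  LinearMap.toContinuousLinearMap
    { toFun := fun b => pt 0 b, map_add' := fun b b' => by rw [← pt_add, add_zero],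
      map_smul' := fun c b => by
        simp only [RingHom.id_apply]
        rw [← pt_smul, smul_zero] }

/-- `a ↦ (a, 0)` -/
def iQ (n : ℕ) : Eu n →L[ℝ] Eu (n + n) :=
  LinearMap.toContinuousLinearMap
    { toFun := fun a => pt a 0, map_add' := fun b b' => by rw [← pt_add, add_zero],
      map_smul' := fun c b => by
        simp only [RingHom.id_apply]
        rw [← pt_smul, smul_zero] }

/-- the linear map `Jm` -/
def JL (n : ℕ) : Eu (n + n) →L[ℝ] Eu (n + n) :=
  LinearMap.toContinuousLinearMap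
    { toFun := Jm, map_add' := fun x y => by
        unfold Jm
        rw [← pt_add]; simp [add_comm]
      map_smul' := fun c x => by
        simp only [RingHom.id_apply]
        unfold Jm
        rw [← pt_smul]; simp }

@[simp] theorem qL_apply (x : Eu (n + n)) : qL n x = qq x := rfl

@[simp] theorem pL_apply (x : Eu (n + n)) : pL n x = pp x := rfl

@[simp] theorem iP_apply (b : Eu n) : iP n b = pt 0 b := rfl

@[simp] theorem iQ_apply (a : Eu n) : iQ n a = pt a 0 := rfl

@[simp] theorem JL_apply (x : Eu (n + n)) : JL n x = Jm x := rfl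

theorem pt_eq (a b : Eu n) : pt a b = iQ n a + iP n b :=
  ext_qp (by simp) (by simp)

theorem inner_qp (x y : Eu (n + n)) :
    inner ℝ x y = inner ℝ (qq x) (qq y) + inner ℝ (pp x) (pp y) := by
  simp only [PiLp.inner_apply, Fin.sum_univ_add, qq, pp]

theorem norm_qp (x : Eu (n + n)) : ‖x‖ ^ 2 = ‖qq x‖ ^ 2 + ‖pp x‖ ^ 2 := by
  rw [← real_inner_self_eq_norm_sq, ← real_inner_self_eq_norm_sq, ← real_inner_self_eq_norm_sq,
    inner_qp]

theorem norm_qq_le (x : Eu (n + n)) : ‖qq x‖ ≤ ‖x‖ := by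
  refine le_of_sq_le_sq ?_ (norm_nonneg _)
  rw [norm_qp x]
  nlinarith [sq_nonneg ‖pp x‖]

theorem norm_pp_le (x : Eu (n + n)) : ‖pp x‖ ≤ ‖x‖ := by
  refine le_of_sq_le_sq ?_ (norm_nonneg _)
  rw [norm_qp x]
  nlinarith [sq_nonneg ‖qq x‖]

theorem norm_le_qp (x : Eu (n + n)) : ‖x‖ ≤ ‖qq x‖ + ‖pp x‖ := by
  refine le_of_sq_le_sq ?_ (by positivity)
  rw [norm_qp x]
  nlinarith [norm_nonneg (qq x), norm_nonneg (pp x)]

theorem norm_pt_sq (a b : Eu n) : ‖pt a b‖ ^ 2 = ‖a‖ ^ 2 + ‖b‖ ^ 2 := by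
  rw [norm_qp]; simp

theorem norm_pt_le (a b : Eu n) : ‖pt a b‖ ≤ ‖a‖ + ‖b‖ := by
  refine (norm_le_qp _).trans ?_
  simp

theorem om_eq (x y : Eu (n + n)) :
    om x y = inner ℝ (qq x) (pp y) - inner ℝ (pp x) (qq y) := by
  simp only [om, PiLp.inner_apply, qq, pp, Finset.sum_sub_distrib]
  congr 1 <;> refine Finset.sum_congr rfl fun i _ => ?_ <;> simp [mul_comm]

theorem om_J (x y : Eu (n + n)) : om x y = inner ℝ (Jm x) y := by
  rw [om_eq, inner_qp]
  simp [Jm, inner_neg_left]
  ring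

theorem om_swap (x y : Eu (n + n)) : om x y = -om y x := by
  rw [om_eq, om_eq, real_inner_comm (pp y) (qq x), real_inner_comm (pp x) (qq y)]
  ring

theorem norm_Jm (x : Eu (n + n)) : ‖Jm x‖ = ‖x‖ := by
  have h : ‖Jm x‖ ^ 2 = ‖x‖ ^ 2 := by
    rw [norm_qp, norm_qp x]
    simp [Jm]
    ring
  exact (sq_eq_sq₀ (norm_nonneg _) (norm_nonneg _)).1 h

theorem contDiff_qq {k : WithTop ℕ∞} : ContDiff ℝ k (qq (n := n)) := (qL n).contDiff

theorem contDiff_pp {k : WithTop ℕ∞} : ContDiff ℝ k (pp (n := n)) := (pL n).contDiff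

theorem contDiff_Jm {k : WithTop ℕ∞} : ContDiff ℝ k (Jm (n := n)) := (JL n).contDiff

theorem contDiff_pt {k : WithTop ℕ∞} : ContDiff ℝ k (fun z : Eu n × Eu n => pt z.1 z.2) := by
  have h : (fun z : Eu n × Eu n => pt z.1 z.2) = fun z => iQ n z.1 + iP n z.2 :=
    funext fun z => pt_eq _ _
  rw [h]
  exact ((iQ n).contDiff.comp contDiff_fst).add ((iP n).contDiff.comp contDiff_snd)

theorem continuous_qq : Continuous (qq (n := n)) := (qL n).continuous

theorem continuous_pp : Continuous (pp (n := n)) := (pL n).continuous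

theorem continuous_pt : Continuous (fun z : Eu n × Eu n => pt z.1 z.2) :=
  (contDiff_pt (k := 0)).continuous

theorem hasFDerivAt_pt (a s : Eu n) : HasFDerivAt (fun r => pt a r) (iP n) s := by
  have h : (fun r : Eu n => pt a r) = fun r => pt a 0 + iP n r := by
    funext r
    rw [iP_apply, ← pt_add]; simp
  rw [h]
  exact (iP n).hasFDerivAt.const_add _

@[simp] theorem qq_ln0 (a r : Eu n) : qq (ln 0 a r) = a := by simp [ln]

@[simp] theorem pp_ln0 (a r : Eu n) : pp (ln 0 a r) = r := by simp [ln]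

@[simp] theorem qq_ln1 (a r : Eu n) : qq (ln 1 a r) = r := by simp [ln]

@[simp] theorem pp_ln1 (a r : Eu n) : pp (ln 1 a r) = a := by simp [ln]

theorem ln0 (a r : Eu n) : ln 0 a r = pt a r := by simp [ln]

theorem ln1 (a r : Eu n) : ln 1 a r = pt r a := by simp [ln]

@[simp] theorem qq_sw (x : Eu (n + n)) : qq (sw x) = pp x := by simp [sw]

@[simp] theorem pp_sw (x : Eu (n + n)) : pp (sw x) = qq x := by simp [sw]

@[simp] theorem sw_sw (x : Eu (n + n)) : sw (sw x) = x := ext_qp (by simp) (by simp)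

theorem om_sw (x y : Eu (n + n)) : om (sw x) (sw y) = -om x y := by
  rw [om_eq, om_eq]; simp

/-- an integer vector of the position space or the momentum space -/
def kk (k k' : Fin n → ℤ) : Fin (n + n) → ℤ := fun j => Fin.addCases (fun i => k i) (fun i => k' i) j

theorem iv_kk (k k' : Fin n → ℤ) : (iv (kk k k') : Eu (n + n)) = pt (iv k) (iv k') := by
  ext j
  refine Fin.addCases (fun i => ?_) (fun i => ?_) j
  · simp only [iv, kk, pt, Fin.addCases_left]
  · simp only [iv, kk, pt, Fin.addCases_right]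

theorem qq_iv (k : Fin (n + n) → ℤ) : qq (iv k) = iv (fun i => k (Fin.castAdd n i)) := by
  ext i; simp [qq, iv]

theorem pp_iv (k : Fin (n + n) → ℤ) : pp (iv k) = iv (fun i => k (Fin.natAdd n i)) := by
  ext i; simp [pp, iv]

end

end TN
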