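import Pool.Agent.TN.Defs
import Pool.Agent.H68.VD.Tr
import Pool.Agent.H68.VD.Hs
import Pool.Agent.H68.VD.HsS
import Pool.Agent.H68.VD.WMean
import Pool.Agent.H68.VD.WPos

/-!
# The norms of the scale control the mean, vanish at zero, control the `L^1` norm (TN-17)
-/

set_option autoImplicit false

open MeasureTheory Set Pool.Agent.H68.VD
open scoped ENNReal ContDiff

namespace TN

noncomputable section

variable {n : ℕ}

theorem mnc_hs (s : ℝ) : Mnc (n := n) (hsNorm s) := by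
  refine ⟨1, zero_le_one, fun u hu _ => ?_⟩
  rw [ENNReal.ofReal_one, one_mul]
  exact (hsMean (n + n) s).1 u hu

private theorem lnc_dom {N : (Eu (n + n) → Eu (n + n)) → ℝ≥0∞} (hN : Dominates N) : Lnc N := by
  obtain ⟨c, hc, h⟩ := hN
  refine ⟨c⁻¹, by positivity, fun u hu hp => ?_⟩
  have h1 := h u hu hp
  have hc' : ENNReal.ofReal c ≠ 0 := by simpa using hc
  calc ∫⁻ x in cube (n + n), ‖u x‖ₑ
      = (ENNReal.ofReal c)⁻¹ * (ENNReal.ofReal c * ∫⁻ x in cube (n + n), ‖u x‖ₑ) := by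
        rw [← mul_assoc, ENNReal.inv_mul_cancel hc' ENNReal.ofReal_ne_top, one_mul]
    _ ≤ (ENNReal.ofReal c)⁻¹ * N u := by gcongr
    _ = ENNReal.ofReal c⁻¹ * N u := by rw [ENNReal.ofReal_inv_of_pos hc]

private theorem mnc_lnc {N : (Eu (n + n) → Eu (n + n)) → ℝ≥0∞} (hN : Lnc N) : Mnc N := by
  obtain ⟨C, hC, h⟩ := hN
  refine ⟨C, hC, fun u hu hp => le_trans ?_ (h u hu hp)⟩
  rw [ofReal_norm]
  exact enorm_integral_le_lintegral_enorm _

theorem mnc_w (s : ℝ) {p : ℝ} (hp : 1 < p) : Mnc (n := n) (wspP s p) := by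
  rcases lt_or_ge s 0 with hs | hs
  · refine ⟨1, zero_le_one, fun u hu hu' => ?_⟩
    rw [ENNReal.ofReal_one, one_mul, TrA.wspP_neg s p hs]
    exact (wspNorm (n + n) s p hs hp).1 u hu hu'
  · exact mnc_lnc (lnc_dom (TrA.wspP_pos (n + n) s p hs hp))

theorem hs_zero {m : ℕ} (s : ℝ) : hsNorm (n := m) s (fun _ => 0) = 0 := by
  rw [(hsMean m s).2 0, norm_zero, ENNReal.ofReal_zero]

private theorem dn_zero {m : ℕ} (k : ℕ) (x : Eu m) :
    dnorm k (fun _ : Eu m => (0 : Eu m)) x = 0 := by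
  unfold dnorm
  have h : iteratedFDeriv ℝ k (fun _ : Eu m => (0 : Eu m)) = 0 := iteratedFDeriv_fun_zero
  rw [h, Pi.zero_apply, norm_zero, ENNReal.ofReal_zero]

theorem w_zero {m : ℕ} (s : ℝ) {p : ℝ} (hp : 1 < p) : wspP (n := m) s p (fun _ => 0) = 0 := by
  have hp0 : 0 < p := by linarith
  rcases lt_or_ge s 0 with hs | hs
  · rw [wspP, if_neg (not_le.mpr hs)]
    simp
  · rw [wspP, if_pos hs]
    have h1 : slobP s p (fun _ : Eu m => (0 : Eu m)) = 0 := by
      unfold slobP gag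
      simp only [sub_self, dn_zero]
      rw [ENNReal.zero_rpow_of_pos hp0]
      simp
    rw [h1, ENNReal.zero_rpow_of_pos (by positivity)]

theorem lnc_hs {s : ℝ} (hs : 0 ≤ s) : Lnc (n := n) (hsNorm s) :=
  lnc_dom (hsStrong (n + n) s hs)

theorem lnc_w {s : ℝ} (hs : 0 ≤ s) {p : ℝ} (hp : 1 < p) : Lnc (n := n) (wspP s p) :=
  lnc_dom (TrA.wspP_pos (n + n) s p hs hp)

end

end TN
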