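import Pool.Agent.TN.Lin
import Pool.Agent.H68.VD.Tr
import Pool.Agent.H68.VD.InfD
import Pool.Agent.H68.VD.DispLow
import Pool.Agent.H68.VD.Fam
import Pool.Agent.H68.VD.Flux

/-!
# Project TN, row TN-18: norms above `L^1`: the distance is not degenerate and the diameter is infinite
-/

set_option autoImplicit false

open MeasureTheory Set Pool.Agent.H68.VD
open scoped ENNReal ContDiff

namespace TN

noncomputable section

variable {n : ℕ}

private theorem dom_lat_deck (m : ℕ) : FlatDeck (lat m) := by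
  have hadd : ∀ k l : Fin m → ℤ, (iv (k + l) : Eu m) = iv k + iv l := by
    intro k l
    ext i
    simp [iv]
  have hzero : (iv 0 : Eu m) = 0 := by
    ext i
    simp [iv]
  refine ⟨⟨0, ?_⟩, ?_, ?_, fun k => ⟨k, rfl⟩, ?_, ?_, ?_⟩
  · funext x
    simp [hzero]
  · rintro _ ⟨k, rfl⟩ _ ⟨l, rfl⟩
    refine ⟨l + k, ?_⟩
    funext x
    simp only [Function.comp]
    rw [hadd, add_assoc]
  · rintro _ ⟨k, rfl⟩
    refine ⟨fun x => x + iv (-k), ⟨-k, rfl⟩, ?_, ?_⟩
    · funext x
      simp only [Function.comp, id]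
      rw [TrA.iv_neg]
      abel
    · funext x
      simp only [Function.comp, id]
      rw [TrA.iv_neg]
      abel
  · refine ⟨{id}, Set.finite_singleton _, ?_⟩
    rintro _ ⟨k, rfl⟩
    exact ⟨id, rfl, k, fun x => rfl⟩
  · rintro _ ⟨k, rfl⟩
    refine ⟨fun v => v, ?_, fun c v => rfl, fun l => ⟨l, rfl⟩⟩
    intro x v
    show x + v + iv k = x + iv k + v
    abel
  · rintro _ ⟨k, rfl⟩ hne x hx
    apply hne
    have h1 : (iv k : Eu m) = 0 := by
      have h2 : x + iv k = x + 0 := by rw [add_zero]; exact hx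
      exact add_left_cancel h2
    funext y
    show y + iv k = y
    rw [h1, add_zero]

private theorem dom_ip {φ : ℝ → Eu (n + n) → Eu (n + n)} (h : SPath φ) :
    IsPath (TrA.sub (dom_lat_deck (n + n))) φ :=
  (TrA.path_iff (dom_lat_deck (n + n)) φ).1 h.path

private theorem dom_slice {φ : ℝ → Eu (n + n) → Eu (n + n)} (h : SPath φ) (t : ℝ) :
    ContDiff ℝ ∞ (φ t) :=
  h.path.smooth.comp (contDiff_const.prodMk contDiff_id)

/-- the displacement is at most the length -/
theorem dom_disp {N : (Eu (n + n) → Eu (n + n)) → ℝ≥0∞} {C : ℝ}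
    (hC : ∀ u : Eu (n + n) → Eu (n + n), Continuous u → Per u →
      ∫⁻ x in cube (n + n), ‖u x‖ₑ ≤ ENNReal.ofReal C * N u)
    {φ : ℝ → Eu (n + n) → Eu (n + n)} (h : SPath φ) :
    ∫⁻ x in cube (n + n), ‖φ 1 x - φ 0 x‖ₑ ≤ ENNReal.ofReal C * len N φ := by
  have hip := dom_ip h
  have h1 := dispLow famKit (fluxKit famKit) (n + n) _ (TrA.deck (dom_lat_deck (n + n))) φ hip
  refine h1.trans ?_
  unfold len
  rw [← lintegral_const_mul' _ _ ENNReal.ofReal_ne_top]
  refine lintegral_mono fun t => ?_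
  refine hC (vel φ t) ?_ ?_
  · exact (FamA.velSmooth hip).continuous.comp (Continuous.prodMk_right t)
  · intro x k
    have h6 := FamA.velEqui hip _ ((TrA.deck (dom_lat_deck (n + n))).trans k) t x
    rw [FluxA.trans_apply] at h6
    rw [h6]
    rfl

/-- an integer vector different from zero has norm at least one -/
private theorem dom_iv_norm {m : ℕ} {k : Fin m → ℤ} (hk : k ≠ 0) : 1 ≤ ‖(iv k : Eu m)‖ := by
  obtain ⟨i, hi⟩ := Function.ne_iff.1 hk
  have h1 : ‖(iv k : Eu m) i‖ ≤ ‖(iv k : Eu m)‖ := PiLp.norm_apply_le _ i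
  refine le_trans ?_ h1
  show (1 : ℝ) ≤ ‖((k i : ℤ) : ℝ)‖
  rw [Real.norm_eq_abs, ← Int.cast_abs]
  exact_mod_cast Int.one_le_abs hi

/-- A continuous periodic function with integral zero is zero. -/
private theorem dom_zero {m : ℕ} {h : Eu m → Eu m} (hc : Continuous h) (hp : Per h)
    (h0 : ∫⁻ x in cube m, ‖h x‖ₑ = 0) : ∀ x, h x = 0 := by
  by_contra hne
  push Not at hne
  obtain ⟨x, hx⟩ := hne
  obtain ⟨l, hl⟩ := InfDA.exists_cube x
  have hx' : h (x - iv l) ≠ 0 := by
    have h1 := hp (x - iv l) l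
    rw [sub_add_cancel] at h1
    rwa [← h1]
  have hcont : ∀ᶠ y in nhds (x - iv l), h y ≠ 0 :=
    hc.continuousAt.eventually_ne hx'
  obtain ⟨δ, hδ, hball⟩ := Metric.eventually_nhds_iff.1 hcont
  obtain ⟨U, hU1, hU2, hU3, hU4⟩ := InfDA.exists_open hl hδ
  have h1 : (fun x => ‖h x‖ₑ) =ᵐ[volume.restrict (cube m)] 0 :=
    (lintegral_eq_zero_iff hc.enorm.measurable).1 h0
  have h2 : (fun x => ‖h x‖ₑ) =ᵐ[volume.restrict U] 0 :=
    ae_mono (Measure.restrict_mono hU2 le_rfl) h1
  have h3 := (ae_restrict_iff' hU1).1 h2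
  have h4 : volume U = 0 := by
    refine measure_mono_null (fun y hy => ?_) h3
    intro h5
    have h6 := h5 hy
    simp only [Pi.zero_apply, enorm_eq_zero] at h6
    exact hball (by rw [dist_eq_norm]; exact hU4 y hy) h6
  exact hU3.ne' h4

private theorem dom_vol (m : ℕ) (c : ℝ≥0∞) : ∫⁻ _ in cube m, c = c := by
  rw [setLIntegral_const, HsA.vol_cube, mul_one]

/-- **The distance is not degenerate above `L^1`.** -/
theorem nondeg_dom {N : (Eu (n + n) → Eu (n + n)) → ℝ≥0∞} (hN : Lnc N)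
    {f g : Eu (n + n) → Eu (n + n)} (hf : SG f) (hg : SG g) (h : sdist N f g = 0) :
    ∃ γ ∈ lat (n + n), g = γ ∘ f := by
  obtain ⟨C, hC0, hC⟩ := hN
  have hfc : Continuous f := by
    obtain ⟨ψ, h1, -, h3⟩ := hf
    rw [← h3]
    exact (dom_slice h1 1).continuous
  have hgc : Continuous g := by
    obtain ⟨ψ, h1, -, h3⟩ := hg
    rw [← h3]
    exact (dom_slice h1 1).continuous
  have hfp : ∀ x (k : Fin (n + n) → ℤ), f (x + iv k) = f x + iv k := by
    obtain ⟨ψ, h1, -, h3⟩ := hf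
    intro x k
    rw [← h3]
    exact h1.path.equi 1 _ ⟨k, rfl⟩ x
  have hgp : ∀ x (k : Fin (n + n) → ℤ), g (x + iv k) = g x + iv k := by
    obtain ⟨ψ, h1, -, h3⟩ := hg
    intro x k
    rw [← h3]
    exact h1.path.equi 1 _ ⟨k, rfl⟩ x
  set D : (Fin (n + n) → ℤ) → ℝ≥0∞ := fun k => ∫⁻ x in cube (n + n), ‖g x + iv k - f x‖ₑ with hD
  have hsmall : ∀ ε : ℝ≥0∞, 0 < ε → ∃ k, D k ≤ ENNReal.ofReal C * ε := by
    intro ε hε
    have hj : sdist N f g < ε := by
      rw [h]
      exact hε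
    unfold sdist at hj
    rw [iInf_lt_iff] at hj
    obtain ⟨φ, hφ⟩ := hj
    rw [iInf_lt_iff] at hφ
    obtain ⟨⟨h1, h2, γ, ⟨k, rfl⟩, h3⟩, h4⟩ := hφ
    refine ⟨k, ?_⟩
    have h5 := dom_disp hC h1
    rw [h3, h2] at h5
    exact h5.trans (mul_le_mul' le_rfl h4.le)
  have hsmall' : ∀ ε : ℝ≥0∞, 0 < ε → ∃ k, D k ≤ ε := by
    intro ε hε
    rcases eq_or_ne ε ⊤ with rfl | hε'
    · exact ⟨0, le_top⟩
    · have hC1 : ENNReal.ofReal (C + 1) ≠ 0 := by
        rw [Ne, ENNReal.ofReal_eq_zero]; linarith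
      have hC2 : ENNReal.ofReal (C + 1) ≠ ⊤ := ENNReal.ofReal_ne_top
      obtain ⟨k, hk⟩ := hsmall (ε / ENNReal.ofReal (C + 1))
        (ENNReal.div_pos hε.ne' hC2)
      refine ⟨k, hk.trans ?_⟩
      calc ENNReal.ofReal C * (ε / ENNReal.ofReal (C + 1))
          ≤ ENNReal.ofReal (C + 1) * (ε / ENNReal.ofReal (C + 1)) :=
            mul_le_mul' (ENNReal.ofReal_le_ofReal (by linarith)) le_rfl
        _ = ε := ENNReal.mul_div_cancel hC1 hC2
  have hsep : ∀ k l, k ≠ l → 1 ≤ D k + D l := by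
    intro k l hkl
    have h1 : (1 : ℝ≥0∞) ≤ ‖(iv (k - l) : Eu (n + n))‖ₑ := by
      rw [← ofReal_norm_eq_enorm]
      exact ENNReal.one_le_ofReal.2 (dom_iv_norm (sub_ne_zero.2 hkl))
    have h2 : (iv (k - l) : Eu (n + n)) = iv k - iv l := by
      ext i
      simp [iv]
    refine h1.trans ?_
    rw [← dom_vol (n + n) (‖(iv (k - l) : Eu (n + n))‖ₑ), hD]
    simp only
    have hmeas : Measurable fun x : Eu (n + n) => ‖g x + iv k - f x‖ₑ :=
      ((hgc.add continuous_const).sub hfc).enorm.measurable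
    rw [← lintegral_add_left hmeas]
    refine lintegral_mono fun x => ?_
    have h3 : (iv (k - l) : Eu (n + n)) = (g x + iv k - f x) - (g x + iv l - f x) := by
      rw [h2]; abel
    simp only
    rw [h3]
    exact enorm_sub_le
  obtain ⟨k, hk⟩ := hsmall' (1 / 4) (by norm_num)
  have hk0 : D k = 0 := by
    by_contra hne
    have hpos : 0 < min (1 / 4 : ℝ≥0∞) (D k / 2) := by
      refine lt_min (by norm_num) (ENNReal.half_pos hne)
    obtain ⟨l, hl⟩ := hsmall' _ hpos
    have hDk : D k ≠ ⊤ := ne_top_of_le_ne_top (by norm_num) hk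
    by_cases hkl : k = l
    · subst hkl
      have h1 : D k ≤ D k / 2 := hl.trans (min_le_right _ _)
      exact absurd h1 (not_le.2 (ENNReal.half_lt_self hne hDk))
    · have h1 := hsep k l hkl
      have h2 : D k + D l ≤ 1 / 4 + 1 / 4 := add_le_add hk (hl.trans (min_le_left _ _))
      have h3 : (1 : ℝ≥0∞) ≤ 1 / 4 + 1 / 4 := h1.trans h2
      have h4 : (1 / 4 + 1 / 4 : ℝ≥0∞) < 1 := by
        have e : (1 / 4 + 1 / 4 : ℝ≥0∞) = ENNReal.ofReal (1 / 2) := by
          rw [show (1 / 4 : ℝ≥0∞) = ENNReal.ofReal (1 / 4) by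
            rw [ENNReal.ofReal_div_of_pos (by norm_num)]; simp,
            ← ENNReal.ofReal_add (by norm_num) (by norm_num)]
          norm_num
        rw [e]
        rw [ENNReal.ofReal_lt_one]
        norm_num
      exact absurd h3 (not_le.2 h4)
  have hz := dom_zero (h := fun x => g x + iv k - f x)
    ((hgc.add continuous_const).sub hfc) (fun x l => by
      simp only [hfp, hgp]
      abel) hk0
  refine ⟨fun x => x + iv (-k), ⟨-k, rfl⟩, ?_⟩
  funext x
  have h1 : g x + iv k - f x = 0 := hz x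
  simp only [Function.comp]
  rw [TrA.iv_neg, ← sub_eq_zero.1 h1]
  abel

/-! ### Shears -/

/-- the profile of the shear -/
private def dkap (M r : ℝ) : ℝ := M * Real.cos (2 * Real.pi * r)

private theorem dkap_smooth (M : ℝ) : ContDiff ℝ ∞ (dkap M) := by
  unfold dkap
  fun_prop

private theorem dkap_int (M r : ℝ) (m : ℤ) : dkap M (r + m) = dkap M r := by
  unfold dkap
  rw [show 2 * Real.pi * (r + m) = 2 * Real.pi * r + m * (2 * Real.pi) by ring,
    Real.cos_add_int_mul_two_pi]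

private theorem dkap_half (M r : ℝ) : dkap M (r + 1 / 2) = - dkap M r := by
  unfold dkap
  rw [show 2 * Real.pi * (r + 1 / 2) = 2 * Real.pi * r + Real.pi by ring, Real.cos_add_pi]
  ring

/-- the index of the first position -/
private abbrev qi (hn : 0 < n) : Fin (n + n) := Fin.castAdd n ⟨0, hn⟩

/-- the index of the first momentum -/
private abbrev pi' (hn : 0 < n) : Fin (n + n) := Fin.natAdd n ⟨0, hn⟩

private theorem qi_ne (hn : 0 < n) : pi' hn ≠ qi hn := by
  intro h
  have := congrArg Fin.val h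
  simp at this
  omega

/-- the path of shears -/
private def dshr (hn : 0 < n) (M t : ℝ) (x : Eu (n + n)) : Eu (n + n) :=
  x + (t * dkap M (x (pi' hn))) • ev (qi hn)

private theorem ev_same {m : ℕ} (i : Fin m) : (ev i : Eu m) i = 1 := by
  simp [ev]

private theorem ev_ne {m : ℕ} {i j : Fin m} (h : j ≠ i) : (ev i : Eu m) j = 0 := by
  simp [ev, h]

private theorem dshr_pi (hn : 0 < n) (M t : ℝ) (x : Eu (n + n)) :
    dshr hn M t x (pi' hn) = x (pi' hn) := by
  unfold dshr
  rw [PiLp.add_apply, PiLp.smul_apply, ev_ne (qi_ne hn), smul_zero, add_zero]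

private theorem coord_smooth {m : ℕ} (i : Fin m) : ContDiff ℝ ∞ (fun x : Eu m => x i) :=
  (EuclideanSpace.proj i : Eu m →L[ℝ] ℝ).contDiff

private theorem dshr_smooth (hn : 0 < n) (M : ℝ) :
    ContDiff ℝ ∞ (fun q : ℝ × Eu (n + n) => dshr hn M q.1 q.2) := by
  unfold dshr
  exact contDiff_snd.add ((contDiff_fst.mul ((dkap_smooth M).comp
    ((coord_smooth (pi' hn)).comp contDiff_snd))).smul contDiff_const)

private theorem dshr_bij (hn : 0 < n) (M t : ℝ) : Function.Bijective (dshr hn M t) := by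
  have h : ∀ t x, dshr hn M (-t) (dshr hn M t x) = x := by
    intro t x
    have h1 : dshr hn M (-t) (dshr hn M t x) =
        dshr hn M t x + (-t * dkap M (dshr hn M t x (pi' hn))) • ev (qi hn) := rfl
    rw [h1, dshr_pi]
    unfold dshr
    rw [add_assoc, ← add_smul]
    simp
  refine Function.bijective_iff_has_inverse.2 ⟨dshr hn M (-t), fun x => h t x, fun x => ?_⟩
  have := h (-t) x
  rwa [neg_neg] at this

private theorem dshr_fd (hn : 0 < n) (M t : ℝ) (x : Eu (n + n)) :
    HasFDerivAt (dshr hn M t) (ContinuousLinearMap.id ℝ (Eu (n + n)) +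
      ((t * deriv (dkap M) (x (pi' hn))) • (EuclideanSpace.proj (pi' hn) :
        Eu (n + n) →L[ℝ] ℝ)).smulRight (ev (qi hn))) x := by
  have h2 : HasDerivAt (dkap M) (deriv (dkap M) (x (pi' hn))) (x (pi' hn)) :=
    ((dkap_smooth M).differentiable (by simp) (x (pi' hn))).hasDerivAt
  have h3 : HasFDerivAt (fun y : Eu (n + n) => y (pi' hn))
      (EuclideanSpace.proj (pi' hn) : Eu (n + n) →L[ℝ] ℝ) x :=
    (EuclideanSpace.proj (pi' hn) : Eu (n + n) →L[ℝ] ℝ).hasFDerivAt
  have h4 := (h2.comp_hasFDerivAt x h3).const_mul t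
  have h5 := (hasFDerivAt_id x).add (h4.smul_const (ev (qi hn)))
  refine h5.congr_fderiv ?_
  ext v i
  simp
  left
  ring

private theorem dshr_det (hn : 0 < n) (M t : ℝ) (x : Eu (n + n)) :
    (fderiv ℝ (dshr hn M t) x).det = 1 := by
  rw [(dshr_fd hn M t x).fderiv]
  set c : ℝ := t * deriv (dkap M) (x (pi' hn))
  set F : Module.Dual ℝ (Eu (n + n)) :=
    ((c • (EuclideanSpace.proj (pi' hn) : Eu (n + n) →L[ℝ] ℝ) : Eu (n + n) →L[ℝ] ℝ) :
      Eu (n + n) →ₗ[ℝ] ℝ) with hF
  have h1 : ((ContinuousLinearMap.id ℝ (Eu (n + n)) +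
      (c • (EuclideanSpace.proj (pi' hn) : Eu (n + n) →L[ℝ] ℝ)).smulRight (ev (qi hn)) :
      Eu (n + n) →L[ℝ] Eu (n + n)) : Eu (n + n) →ₗ[ℝ] Eu (n + n)) =
      LinearMap.transvection F (ev (qi hn)) := by
    ext v
    simp [LinearMap.transvection.apply, hF]
  unfold ContinuousLinearMap.det
  rw [h1, LinearMap.transvection.det]
  have h2 : F (ev (qi hn)) = 0 := by
    rw [hF]
    show c • (ev (qi hn) : Eu (n + n)) (pi' hn) = 0
    rw [ev_ne (qi_ne hn), smul_zero]
  rw [h2, add_zero]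

private theorem dshr_iv (hn : 0 < n) (M t : ℝ) (x : Eu (n + n)) (k : Fin (n + n) → ℤ) :
    dshr hn M t (x + iv k) = dshr hn M t x + iv k := by
  unfold dshr
  rw [show (x + iv k) (pi' hn) = x (pi' hn) + (k (pi' hn) : ℤ) from rfl, dkap_int]
  abel

private theorem dshr_path (hn : 0 < n) (M : ℝ) : SPath (dshr hn M) where
  path :=
    { smooth := dshr_smooth hn M
      bij := dshr_bij hn M
      det := dshr_det hn M
      equi := by
        rintro t g ⟨k, rfl⟩ x
        exact dshr_iv hn M t x k }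
  symp := by
    intro t x v w
    rw [(dshr_fd hn M t x).fderiv]
    set c : ℝ := t * deriv (dkap M) (x (pi' hn))
    have h1 : ∀ v : Eu (n + n), (ContinuousLinearMap.id ℝ (Eu (n + n)) +
      (c • (EuclideanSpace.proj (pi' hn) : Eu (n + n) →L[ℝ] ℝ)).smulRight (ev (qi hn)) :
      Eu (n + n) →L[ℝ] Eu (n + n)) v = v + (c * v (pi' hn)) • ev (qi hn) := by
      intro v
      simp
    rw [h1, h1]
    have hq : ∀ (r : ℝ) (v : Eu (n + n)), om (r • ev (qi hn)) v = r * v (pi' hn) := by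
      intro r v
      unfold om
      rw [Finset.sum_eq_single (⟨0, hn⟩ : Fin n)]
      · have e1 : (r • ev (qi hn) : Eu (n + n)) (Fin.castAdd n ⟨0, hn⟩) = r := by
          rw [PiLp.smul_apply, ev_same, smul_eq_mul, mul_one]
        have e2 : (r • ev (qi hn) : Eu (n + n)) (Fin.natAdd n ⟨0, hn⟩) = 0 := by
          rw [PiLp.smul_apply, ev_ne (qi_ne hn), smul_zero]
        rw [e1, e2, zero_mul, sub_zero]
      · intro i _ hi
        have e1 : (r • ev (qi hn) : Eu (n + n)) (Fin.castAdd n i) = 0 := by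
          rw [PiLp.smul_apply, ev_ne, smul_zero]
          intro h
          apply hi
          have := congrArg Fin.val h
          ext
          simpa using this
        have e2 : (r • ev (qi hn) : Eu (n + n)) (Fin.natAdd n i) = 0 := by
          rw [PiLp.smul_apply, ev_ne, smul_zero]
          intro h
          have := congrArg Fin.val h
          simp at this
          omega
        rw [e1, e2, zero_mul, zero_mul, sub_zero]
      · intro h
        exact absurd (Finset.mem_univ _) h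
    have hadd : ∀ a b c : Eu (n + n), om (a + b) c = om a c + om b c := by
      intro a b c
      rw [om_J, om_J, om_J, ← inner_add_left]
      congr 1
      exact (JL n).map_add a b
    have hadd' : ∀ a b c : Eu (n + n), om a (b + c) = om a b + om a c := by
      intro a b c
      rw [om_J, om_J, om_J, inner_add_right]
    rw [hadd, hadd', hadd', hq, hq, om_swap v ((c * w (pi' hn)) • ev (qi hn)), hq,
      PiLp.smul_apply, ev_ne (qi_ne hn), smul_zero]
    ring

private theorem dshr_zero (hn : 0 < n) (M : ℝ) : dshr hn M 0 = id := by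
  funext x
  simp [dshr]

private theorem dshr_zero' (hn : 0 < n) (t : ℝ) : dshr hn 0 t = id := by
  funext x
  simp [dshr, dkap]

private theorem sg_id (hn : 0 < n) : SG (id : Eu (n + n) → Eu (n + n)) :=
  ⟨dshr hn 0, dshr_path hn 0, dshr_zero hn 0, dshr_zero' hn 1⟩

private theorem sg_shr (hn : 0 < n) (M : ℝ) : SG (dshr hn M 1) :=
  ⟨dshr hn M, dshr_path hn M, dshr_zero hn M, rfl⟩

/-- translation invariance of the integral of a periodic function -/
private theorem dom_trans {m : ℕ} (hm : 0 < m) {u : Eu m → Eu m} (hu : Continuous u) (hp : Per u)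
    (c : Eu m) : ∫⁻ x in cube m, ‖u (x + c)‖ₑ = ∫⁻ x in cube m, ‖u x‖ₑ := by
  refine DispLowA.cov_norm (fluxKit famKit) hm (fun x => x + c) (by fun_prop)
    (Equiv.addRight c).bijective (fun x => ?_) (fun x k => by abel) u hu hp
  rw [fderiv_add_const, fderiv_fun_id]
  exact LinearMap.det_id

/-- the displacement of all lifts of the shear is large -/
private theorem dom_shr_disp (hn : 0 < n) (M : ℝ) (k : Fin (n + n) → ℤ) :
    ∫⁻ x in cube (n + n), ‖dkap M (x (pi' hn)) • (ev (qi hn) : Eu (n + n))‖ₑ ≤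
      ∫⁻ x in cube (n + n), ‖dkap M (x (pi' hn)) • (ev (qi hn) : Eu (n + n)) + iv k‖ₑ := by
  have hc : Continuous fun x : Eu (n + n) => dkap M (x (pi' hn)) • (ev (qi hn) : Eu (n + n)) :=
    (((dkap_smooth M).comp (coord_smooth (pi' hn))).smul contDiff_const).continuous
  have hp : ∀ (x : Eu (n + n)) (l : Fin (n + n) → ℤ),
      dkap M ((x + iv l) (pi' hn)) = dkap M (x (pi' hn)) := by
    intro x l
    rw [show (x + iv l) (pi' hn) = x (pi' hn) + (l (pi' hn) : ℤ) from rfl, dkap_int]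
  set u : Eu (n + n) → Eu (n + n) := fun x => dkap M (x (pi' hn)) • (ev (qi hn)) + iv k with hu
  have huc : Continuous u := hc.add continuous_const
  have hup : Per u := by
    intro x l
    simp only [hu]
    rw [hp]
  have h1 := dom_trans (by omega : 0 < n + n) huc hup ((1 / 2 : ℝ) • ev (pi' hn))
  have h2 : ∀ x : Eu (n + n), u (x + (1 / 2 : ℝ) • ev (pi' hn)) =
      -(dkap M (x (pi' hn)) • (ev (qi hn) : Eu (n + n))) + iv k := by
    intro x
    simp only [hu]
    have h3 : (x + (1 / 2 : ℝ) • (ev (pi' hn) : Eu (n + n))) (pi' hn) = x (pi' hn) + 1 / 2 := by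
      rw [PiLp.add_apply, PiLp.smul_apply, ev_same, smul_eq_mul, mul_one]
    rw [h3, dkap_half, neg_smul]
  have h4 : 2 * ∫⁻ x in cube (n + n), ‖dkap M (x (pi' hn)) • (ev (qi hn) : Eu (n + n))‖ₑ ≤
      2 * ∫⁻ x in cube (n + n), ‖u x‖ₑ := by
    rw [two_mul (∫⁻ x in cube (n + n), ‖u x‖ₑ)]
    nth_rewrite 2 [← h1]
    rw [← lintegral_add_left huc.enorm.measurable, ← lintegral_const_mul' _ _ (by norm_num)]
    refine lintegral_mono fun x => ?_
    have h5 : (2 : ℝ) • (dkap M (x (pi' hn)) • (ev (qi hn) : Eu (n + n))) =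
        u x - u (x + (1 / 2 : ℝ) • ev (pi' hn)) := by
      rw [h2, two_smul]
      simp only [hu]
      abel
    have h6 : (2 : ℝ≥0∞) * ‖dkap M (x (pi' hn)) • (ev (qi hn) : Eu (n + n))‖ₑ =
        ‖(2 : ℝ) • (dkap M (x (pi' hn)) • (ev (qi hn) : Eu (n + n)))‖ₑ := by
      rw [enorm_smul (2 : ℝ)]
      congr 1
      rw [Real.enorm_eq_ofReal (by norm_num)]
      simp
    simp only
    rw [h6, h5]
    exact enorm_sub_le
  exact (ENNReal.mul_le_mul_iff_right (by norm_num) (by norm_num)).1 h4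

/-- **The diameter is infinite above `L^1`.** -/
theorem diam_dom (hn : 0 < n) {N : (Eu (n + n) → Eu (n + n)) → ℝ≥0∞} (hN : Lnc N) :
    sdiam N = ⊤ := by
  obtain ⟨C, hC0, hC⟩ := hN
  -- the constant
  set κ : ℝ≥0∞ := ∫⁻ x in cube (n + n), ‖dkap 1 (x (pi' hn)) • (ev (qi hn) : Eu (n + n))‖ₑ with hκ
  have hκ0 : κ ≠ 0 := by
    intro h0
    have h1 := dom_zero (h := fun x : Eu (n + n) => dkap 1 (x (pi' hn)) • (ev (qi hn) : Eu (n + n)))
      (((dkap_smooth 1).comp (coord_smooth (pi' hn))).smul contDiff_const).continuous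
      (fun x l => by
        simp only
        rw [show (x + iv l) (pi' hn) = x (pi' hn) + (l (pi' hn) : ℤ) from rfl, dkap_int]) h0 0
    have h2 := congrArg (fun v : Eu (n + n) => v (qi hn)) h1
    simp only [PiLp.smul_apply, ev_same] at h2
    simp [dkap] at h2
  have hscale : ∀ M : ℝ, 0 ≤ M →
      ∫⁻ x in cube (n + n), ‖dkap M (x (pi' hn)) • (ev (qi hn) : Eu (n + n))‖ₑ =
        ENNReal.ofReal M * κ := by
    intro M hM
    rw [hκ, ← lintegral_const_mul' _ _ ENNReal.ofReal_ne_top]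
    refine lintegral_congr fun x => ?_
    have h1 : dkap M (x (pi' hn)) • (ev (qi hn) : Eu (n + n)) =
        M • (dkap 1 (x (pi' hn)) • (ev (qi hn) : Eu (n + n))) := by
      rw [smul_smul]
      congr 1
      simp [dkap]
    rw [h1, enorm_smul M, Real.enorm_eq_ofReal hM]
  have key : ∀ M : ℝ, 0 ≤ M →
      ENNReal.ofReal M * κ ≤ ENNReal.ofReal (C + 1) * sdist N id (dshr hn M 1) := by
    intro M hM
    have h1 : ENNReal.ofReal (C + 1) ≠ 0 := by
      rw [Ne, ENNReal.ofReal_eq_zero]; linarith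
    rw [mul_comm (ENNReal.ofReal (C + 1)), ← ENNReal.div_le_iff h1 ENNReal.ofReal_ne_top]
    refine le_iInf fun ψ => le_iInf fun hψ => ?_
    obtain ⟨hp, h0, γ, ⟨k, rfl⟩, h2⟩ := hψ
    rw [ENNReal.div_le_iff h1 ENNReal.ofReal_ne_top]
    have h3 := dom_disp hC hp
    rw [h2, h0] at h3
    have h4 : ∀ x : Eu (n + n), ((fun x => x + iv k) ∘ dshr hn M 1) x - id x =
        dkap M (x (pi' hn)) • (ev (qi hn) : Eu (n + n)) + iv k := by
      intro x
      simp only [Function.comp, id, dshr, one_mul]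
      abel
    simp only [h4] at h3
    rw [← hscale M hM]
    refine (dom_shr_disp hn M k).trans (h3.trans ?_)
    rw [mul_comm]
    exact mul_le_mul' le_rfl (ENNReal.ofReal_le_ofReal (by linarith))
  have h1 : ∀ M : ℝ, 0 ≤ M → ENNReal.ofReal M * κ ≤ ENNReal.ofReal (C + 1) * sdiam N := by
    intro M hM
    refine (key M hM).trans ?_
    gcongr
    exact le_iSup₂_of_le id (sg_id hn) (le_iSup₂_of_le (dshr hn M 1) (sg_shr hn M) le_rfl)
  by_contra hne
  have h2 : ENNReal.ofReal (C + 1) * sdiam N ≠ ⊤ := ENNReal.mul_ne_top ENNReal.ofReal_ne_top hne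
  have hκt : κ ≠ ⊤ := by
    intro h
    have h3 := h1 1 zero_le_one
    rw [h, ENNReal.ofReal_one, one_mul, top_le_iff] at h3
    exact h2 h3
  have h3 : ∀ M : ℝ, 0 ≤ M → ENNReal.ofReal M ≤ ENNReal.ofReal (C + 1) * sdiam N / κ := fun M hM => by
    rw [ENNReal.le_div_iff_mul_le (Or.inl hκ0) (Or.inl hκt)]
    exact h1 M hM
  have h4 : ENNReal.ofReal (C + 1) * sdiam N / κ ≠ ⊤ := ENNReal.div_ne_top h2 hκ0
  have h5 := h3 ((ENNReal.ofReal (C + 1) * sdiam N / κ).toReal + 1) (by positivity)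
  rw [ENNReal.ofReal_add (by positivity) zero_le_one, ENNReal.ofReal_toReal h4, ENNReal.ofReal_one] at h5
  exact absurd h5 (not_le.2 (ENNReal.lt_add_right h4 one_ne_zero))

end

end TN
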