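import Pool.Agent.TN.Bas
import Pool.Agent.H68.VD.Tr
import Pool.Agent.H68.VD.Stream

/-!
# Project TN (MP_b0bf68_gt): periodic Hamiltonians of symplectic fields on the torus
-/

set_option autoImplicit false
set_option linter.all false

open MeasureTheory Set Pool.Agent.H68.VD
open scoped ENNReal ContDiff

namespace TN

noncomputable section

variable {n : ℕ}

/-- the inner product as a linear map into the dual -/
private def hmI (m : ℕ) : Eu m →L[ℝ] (Eu m →L[ℝ] ℝ) :=
  LinearMap.toContinuousLinearMap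
    { toFun := fun v => innerSL ℝ v
      map_add' := fun x y => map_add _ _ _
      map_smul' := fun c x => by
        ext w
        simp [inner_smul_left] }

private theorem hmI_apply {m : ℕ} (v : Eu m) : hmI m v = innerSL ℝ v := rfl

/-- `om` with a fixed second argument -/
private def hmL (v : Eu (n + n)) : Eu (n + n) →L[ℝ] ℝ := (innerSL ℝ v).comp (JL n)

private theorem hmL_apply (v x : Eu (n + n)) : hmL v x = om x v := by
  rw [om_J]
  show inner ℝ v (Jm x) = inner ℝ (Jm x) v
  exact real_inner_comm _ _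

private theorem hm_omc {X : Type} [TopologicalSpace X] {f g : X → Eu (n + n)} (hf : Continuous f)
    (hg : Continuous g) : Continuous (fun x => om (f x) (g x)) := by
  simp only [om_J]
  exact ((JL n).continuous.comp hf).inner hg

private theorem hm_omd {E : Type} [NormedAddCommGroup E] [NormedSpace ℝ E] {f g : E → Eu (n + n)}
    (hf : ContDiff ℝ ∞ f) (hg : ContDiff ℝ ∞ g) : ContDiff ℝ ∞ (fun x => om (f x) (g x)) := by
  simp only [om_J]
  exact ContDiff.inner ℝ ((JL n).contDiff.comp hf) hg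

/-- a primitive of the closed form of a symplectic field -/
private theorem hm_prim {w : Eu (n + n) → Eu (n + n)} (hw : ContDiff ℝ ∞ w) (hs : SyF w) :
    ∃ F : Eu (n + n) → ℝ, ∀ x, HasFDerivAt F (innerSL ℝ (Jm (w x))) x := by
  have h1 : ∀ x, HasFDerivAt (fun x => innerSL ℝ (Jm (w x)))
      (((hmI (n + n)).comp (JL n)).comp (fderiv ℝ w x)) x := fun x =>
    ((hmI (n + n)).comp (JL n)).hasFDerivAt.comp x (hw.differentiable (by simp) x).hasFDerivAt
  obtain ⟨F, hF⟩ := convex_univ.exists_forall_hasFDerivAt_of_fderiv_symmetric isOpen_univ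
    (fun x _ => (h1 x).differentiableAt.differentiableWithinAt) (fun x _ v v' => by
      rw [(h1 x).fderiv]
      have h2 : ∀ v v' : Eu (n + n), (((hmI (n + n)).comp (JL n)).comp (fderiv ℝ w x)) v v' =
          om (fderiv ℝ w x v) v' := fun v v' => by
        rw [om_J]
        rfl
      rw [h2, h2]
      have h3 := hs x v v'
      rw [om_swap v] at h3
      linarith)
  exact ⟨F, fun x => hF x (mem_univ x)⟩

/-- the fundamental theorem of calculus on a segment -/
private theorem hm_seg {w : Eu (n + n) → Eu (n + n)} {F : Eu (n + n) → ℝ} (hw : Continuous w)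
    (hd : ∀ x, HasFDerivAt F (innerSL ℝ (Jm (w x))) x) (x v : Eu (n + n)) (a b : ℝ) :
    ∫ r in a..b, om (w (x + r • v)) v = F (x + b • v) - F (x + a • v) := by
  refine intervalIntegral.integral_eq_sub_of_hasDerivAt (f := fun r : ℝ => F (x + r • v))
    (fun r _ => ?_) ?_
  · have h1 : HasDerivAt (fun t : ℝ => x + t • v) v r := by
      simpa using ((hasDerivAt_id r).smul_const v).const_add x
    have h2 := (hd (x + r • v)).comp_hasDerivAt r h1
    have h3 : innerSL ℝ (Jm (w (x + r • v))) v = om (w (x + r • v)) v := by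
      rw [om_J]; rfl
    rw [h3] at h2
    exact h2
  · refine Continuous.intervalIntegrable ?_ _ _
    exact hm_omc (hw.comp (by fun_prop)) continuous_const

/-- Fubini for the mean of a translate -/
private theorem hm_fub {w : Eu (n + n) → Eu (n + n)} (hw : Continuous w) (hp : Per w)
    (hm : ∫ x in cube (n + n), w x = 0) (v : Eu (n + n)) :
    ∫ x in cube (n + n), ∫ r in (0 : ℝ)..1, om (w (x + r • v)) v = 0 := by
  have hc : Continuous (fun z : Eu (n + n) × ℝ => om (w (z.1 + z.2 • v)) v) :=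
    hm_omc (hw.comp (by fun_prop)) continuous_const
  have h1 : Integrable (Function.uncurry fun (x : Eu (n + n)) (r : ℝ) => om (w (x + r • v)) v)
      ((volume.restrict (cube (n + n))).prod (volume.restrict (Ioc (0 : ℝ) 1))) := by
    rw [Measure.prod_restrict]
    exact (hc.continuousOn.integrableOn_compact (HsA.closed_compact.prod isCompact_Icc)).mono_set
      (prod_mono HsA.cube_sub_closed Ioc_subset_Icc_self)
  simp only [intervalIntegral.integral_of_le zero_le_one]
  rw [integral_integral_swap h1]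
  have h2 : ∀ r : ℝ, ∫ x in cube (n + n), om (w (x + r • v)) v = 0 := by
    intro r
    have h3 : ∫ x in cube (n + n), w (x + r • v) = 0 := by
      have h4 := HsA.cube_trans w hp (r • v)
      simp only [add_comm (r • v)] at h4
      rw [h4, hm]
    have h5 : Continuous (fun x => w (x + r • v)) := hw.comp (by fun_prop)
    have h6 := ContinuousLinearMap.integral_comp_comm (hmL v) (HsA.int_cube h5)
    rw [h3, map_zero] at h6
    simpa only [hmL_apply] using h6
  simp only [h2, integral_zero]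

/-- periodicity of the primitive -/
private theorem hm_per {w : Eu (n + n) → Eu (n + n)} {F : Eu (n + n) → ℝ} (hw : Continuous w)
    (hp : Per w) (hm : ∫ x in cube (n + n), w x = 0)
    (hd : ∀ x, HasFDerivAt F (innerSL ℝ (Jm (w x))) x) : Per F := by
  intro x k
  have h1 : ∀ y, F (y + iv k) - F y = F (0 + iv k) - F 0 := by
    have h2 : ∀ y, HasFDerivAt (fun y => F (y + iv k) - F y) (0 : Eu (n + n) →L[ℝ] ℝ) y := by
      intro y
      have h3 := (hd (y + iv k)).comp y ((hasFDerivAt_id y).add_const (iv k))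
      have h4 := h3.sub (hd y)
      rw [ContinuousLinearMap.comp_id, hp, sub_self] at h4
      exact h4
    intro y
    exact is_const_of_fderiv_eq_zero (𝕜 := ℝ) (fun y => (h2 y).differentiableAt)
      (fun y => (h2 y).fderiv) y 0
  have h5 := hm_fub hw hp hm (iv k)
  have h6 : ∀ y, ∫ r in (0 : ℝ)..1, om (w (y + r • iv k)) (iv k) = F (0 + iv k) - F 0 := by
    intro y
    rw [hm_seg hw hd y (iv k) 0 1, one_smul, zero_smul, add_zero, h1]
  simp only [h6] at h5
  rw [setIntegral_const, measureReal_def, HsA.vol_cube] at h5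
  simp only [ENNReal.toReal_one, one_smul] at h5
  have h7 := h1 x
  rw [h5] at h7
  linarith

private theorem hm_sA {u : ℝ → Eu (n + n) → Eu (n + n)}
    (hu : ContDiff ℝ ∞ (fun z : ℝ × Eu (n + n) => u z.1 z.2)) :
    ContDiff ℝ ∞ (fun t : ℝ => ∫ x in cube (n + n), u t x) := FluxA.smooth_int (fun t x => u t x) hu

private theorem hm_sB {u : ℝ → Eu (n + n) → Eu (n + n)}
    (hu : ContDiff ℝ ∞ (fun z : ℝ × Eu (n + n) => u z.1 z.2)) :
    ContDiff ℝ ∞ (fun t : ℝ => mn (u t)) := by
  have h := hm_sA hu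
  unfold mn
  exact h

private theorem hm_sC : ContDiff ℝ ∞ (fun q : (ℝ × Eu (n + n)) × ℝ =>
    ((q.1.1, q.2 • q.1.2) : ℝ × Eu (n + n))) := by fun_prop

private theorem hm_sD {u : ℝ → Eu (n + n) → Eu (n + n)}
    (hu : ContDiff ℝ ∞ (fun z : ℝ × Eu (n + n) => u z.1 z.2)) :
    ContDiff ℝ ∞ (fun q : (ℝ × Eu (n + n)) × ℝ => u q.1.1 (q.2 • q.1.2)) := hu.comp hm_sC

private theorem hm_sE {u : ℝ → Eu (n + n) → Eu (n + n)}
    (hu : ContDiff ℝ ∞ (fun z : ℝ × Eu (n + n) => u z.1 z.2)) :
    ContDiff ℝ ∞ (fun q : (ℝ × Eu (n + n)) × ℝ =>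
      om (u q.1.1 (q.2 • q.1.2) - mn (u q.1.1)) q.1.2) := by
  have g1 := hm_sD hu
  have g2 : ContDiff ℝ ∞ (fun q : (ℝ × Eu (n + n)) × ℝ => q.1.1) := by fun_prop
  have g3 : ContDiff ℝ ∞ (fun q : (ℝ × Eu (n + n)) × ℝ => q.1.2) := by fun_prop
  exact hm_omd (g1.sub ((hm_sB hu).comp g2)) g3

private theorem hm_sF {u : ℝ → Eu (n + n) → Eu (n + n)}
    (hu : ContDiff ℝ ∞ (fun z : ℝ × Eu (n + n) => u z.1 z.2)) :
    ContDiff ℝ ∞ (fun z : ℝ × Eu (n + n) =>
      ∫ s in (0 : ℝ)..1, om (u z.1 (s • z.2) - mn (u z.1)) z.2) :=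
  StreamA.param_contDiff (fun q : (ℝ × Eu (n + n)) × ℝ =>
    om (u q.1.1 (q.2 • q.1.2) - mn (u q.1.1)) q.1.2) (hm_sE hu)

theorem ham_smooth {u : ℝ → Eu (n + n) → Eu (n + n)}
    (hu : ContDiff ℝ ∞ (fun z : ℝ × Eu (n + n) => u z.1 z.2)) :
    ContDiff ℝ ∞ (fun z : ℝ × Eu (n + n) => ham (u z.1) z.2) := by
  unfold ham
  exact hm_sF hu

private theorem hm_mean {u : Eu (n + n) → Eu (n + n)} (hu : Continuous u) :
    ∫ x in cube (n + n), (u x - mn u) = 0 := by
  rw [integral_sub (HsA.int_cube hu) (HsA.int_cube continuous_const), setIntegral_const,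
    measureReal_def, HsA.vol_cube]
  simp [mn]

private theorem hm_hs {u : Eu (n + n) → Eu (n + n)} (hs : SyF u) (c : Eu (n + n)) :
    SyF (fun x => u x - c) := by
  intro x v w
  have e : fderiv ℝ (fun x => u x - c) x = fderiv ℝ u x := fderiv_sub_const c
  rw [e]
  exact hs x v w

private theorem hm_hp {u : Eu (n + n) → Eu (n + n)} (hp : Per u) (c : Eu (n + n)) :
    Per (fun x => u x - c) := fun x k => by
  show u (x + iv k) - c = u x - c
  rw [hp]

private theorem hm_hm {u : Eu (n + n) → Eu (n + n)} {F : Eu (n + n) → ℝ} (hu : Continuous u)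
    (hF : ∀ x, HasFDerivAt F (innerSL ℝ (Jm (u x - mn u))) x) : ham u = fun x => F x - F 0 := by
  funext x
  have h2 := hm_seg (w := fun x => u x - mn u) (hu.sub continuous_const) hF 0 x 0 1
  simp only [zero_add, one_smul, zero_smul] at h2
  unfold ham
  exact h2

private theorem hm_ss {u : Eu (n + n) → Eu (n + n)} (hu : ContDiff ℝ ∞ u) :
    ContDiff ℝ ∞ (ham u) := by
  have h3 : ContDiff ℝ ∞ (fun z : ℝ × Eu (n + n) => u z.2) := hu.comp contDiff_snd
  have h4 : ContDiff ℝ ∞ (fun z : ℝ × Eu (n + n) => ham u z.2) :=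
    ham_smooth (u := fun _ => u) h3
  have h5 : ContDiff ℝ ∞ (fun x : Eu (n + n) => (((0 : ℝ), x) : ℝ × Eu (n + n))) :=
    contDiff_const.prodMk contDiff_id
  have h6 := h4.comp h5
  exact h6

theorem ham_MH {u : Eu (n + n) → Eu (n + n)} (hu : ContDiff ℝ ∞ u) (hp : Per u) (hs : SyF u) :
    MH (fun x => u x - mn u) (ham u) := by
  have hv : ContDiff ℝ ∞ (fun x => u x - mn u) := hu.sub contDiff_const
  have hvp := hm_hp hp (mn u)
  obtain ⟨F, hF⟩ := hm_prim hv (hm_hs hs (mn u))
  have h1 := hm_hm hu.continuous hF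
  have h3 : ∀ x, HasFDerivAt (ham u) (innerSL ℝ (Jm (u x - mn u))) x := by
    intro x
    rw [h1]
    exact (hF x).sub_const _
  exact ⟨hv, hvp, hm_ss hu, hm_per hv.continuous hvp (hm_mean hu.continuous) h3, h3⟩

private theorem hm_sG {u : ℝ → Eu (n + n) → Eu (n + n)}
    (hu : ContDiff ℝ ∞ (fun z : ℝ × Eu (n + n) => u z.1 z.2)) (c : Eu (n + n)) :
    ContDiff ℝ ∞ (fun z : ℝ × Eu (n + n) => ham (u z.1) z.2 - ham (u z.1) c) := by
  have h1 := ham_smooth hu
  have h2 : ContDiff ℝ ∞ (fun z : ℝ × Eu (n + n) => ((z.1, c) : ℝ × Eu (n + n))) :=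
    contDiff_fst.prodMk contDiff_const
  have h3 := h1.comp h2
  exact h1.sub h3

private theorem hm_sl {u : ℝ → Eu (n + n) → Eu (n + n)}
    (hu : ContDiff ℝ ∞ (fun z : ℝ × Eu (n + n) => u z.1 z.2)) (t : ℝ) : ContDiff ℝ ∞ (u t) := by
  have h2 : ContDiff ℝ ∞ (fun x : Eu (n + n) => ((t, x) : ℝ × Eu (n + n))) :=
    contDiff_const.prodMk contDiff_id
  have h3 := hu.comp h2
  exact h3

theorem exists_ham {φ : ℝ → Eu (n + n) → Eu (n + n)} (h : SPath φ) (h0 : φ 0 = id)
    (hm : ∀ t, mn (vel φ t) = 0) (a : Eu n) : ∃ H : ℝ → Eu (n + n) → ℝ, HFl (vel φ) H φ ∧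
      ∀ t y, H t (pt a y) = ham (vel φ t) (pt a y) - ham (vel φ t) (pt a 0) := by
  have hv := vel_smooth h
  have hM := fun t => ham_MH (hm_sl hv t) (vel_per h t) (vel_sy h t)
  have hs := hm_sG hv (pt a 0)
  refine ⟨fun t x => ham (vel φ t) x - ham (vel φ t) (pt a 0),
    ⟨hv, vel_per h, hs, ?_, ?_, h.path.smooth, vel_eq h, fun x => by rw [h0]; rfl⟩,
    fun t y => rfl⟩
  · intro t x k
    show ham (vel φ t) (x + iv k) - _ = ham (vel φ t) x - _
    rw [(hM t).Hp x k]
  · intro t x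
    have h1 := ((hM t).Hd x).sub_const (ham (vel φ t) (pt a 0))
    rw [hm t, sub_zero] at h1
    exact h1

end

end TN
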