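import Pool.Agent.TN.Bas
import Pool.Agent.TN.Ham

/-! # Project TN, row TN-9: the oscillation of the Hamiltonian on a slice -/

set_option autoImplicit false

open MeasureTheory Set Pool.Agent.H68.VD
open scoped ENNReal ContDiff

namespace TN

noncomputable section

variable {n : ℕ}

private theorem osf_box : IsCompact {y : Eu n | ∀ j, y j ∈ Icc (0 : ℝ) 1} := by
  have h1 : IsCompact (Set.pi univ fun _ : Fin n => Icc (0 : ℝ) 1) :=
    isCompact_univ_pi fun _ => isCompact_Icc
  have h2 := h1.image (PiLp.continuous_toLp 2 (fun _ : Fin n => ℝ))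
  convert h2 using 1
  ext y
  simp only [mem_image, mem_pi, mem_univ, forall_true_left]
  constructor
  · intro hy
    exact ⟨fun j => y j, hy, rfl⟩
  · rintro ⟨z, hz, rfl⟩
    exact hz

private theorem osf_ln_cont (i : Fin 2) : Continuous (fun z : Eu n × Eu n => ln i z.1 z.2) := by
  unfold ln
  by_cases h : i = 0
  · simp only [h, if_true]
    exact continuous_pt
  · simp only [h, if_false]
    exact continuous_pt.comp (continuous_snd.prodMk continuous_fst)

private theorem osf_ln_add (i : Fin 2) (a b y z : Eu n) :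
    ln i (a + b) (y + z) = ln i a y + ln i b z := by
  unfold ln
  split_ifs
  · exact pt_add _ _ _ _
  · exact pt_add _ _ _ _

private theorem osf_ln_iv (i : Fin 2) (k k' : Fin n → ℤ) :
    ∃ l : Fin (n + n) → ℤ, ln i (iv k : Eu n) (iv k') = iv l := by
  unfold ln
  split_ifs
  · exact ⟨kk k k', (iv_kk k k').symm⟩
  · exact ⟨kk k' k, (iv_kk k' k).symm⟩

private theorem osf_iv_zero : (iv (0 : Fin n → ℤ) : Eu n) = 0 := by
  ext j
  simp [iv]

private theorem osf_ham_per (i : Fin 2) {u : Eu (n + n) → Eu (n + n)} (hu : ContDiff ℝ ∞ u)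
    (hp : Per u) (hs : SyF u) (a y : Eu n) (k k' : Fin n → ℤ) :
    ham u (ln i (a + iv k) (y + iv k')) = ham u (ln i a y) := by
  obtain ⟨l, hl⟩ := osf_ln_iv i k k'
  rw [osf_ln_add, hl]
  exact (ham_MH hu hp hs).Hp _ _

theorem osf_cont (i : Fin 2) {φ : ℝ → Eu (n + n) → Eu (n + n)} (h : SPath φ) :
    Continuous (fun z : ℝ × Eu n => osf i (vel φ z.1) z.2) := by
  have hH : Continuous (fun z : ℝ × Eu (n + n) => ham (vel φ z.1) z.2) :=
    (ham_smooth (vel_smooth h)).continuous
  have hl := osf_ln_cont (n := n) i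
  have g1 : Continuous (fun w : (ℝ × Eu n) × Eu n => (w.1.2, w.2)) :=
    (continuous_snd.comp continuous_fst).prodMk continuous_snd
  have g1' : Continuous (fun w : (ℝ × Eu n) × Eu n => ln i w.1.2 w.2) := hl.comp g1
  have g2 : Continuous (fun w : (ℝ × Eu n) × Eu n => (w.1.2, (0 : Eu n))) :=
    (continuous_snd.comp continuous_fst).prodMk continuous_const
  have g2' : Continuous (fun w : (ℝ × Eu n) × Eu n => ln i w.1.2 0) := hl.comp g2
  have g0 : Continuous (fun w : (ℝ × Eu n) × Eu n => w.1.1) := continuous_fst.comp continuous_fst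
  have g3 : Continuous (fun w : (ℝ × Eu n) × Eu n => (w.1.1, ln i w.1.2 w.2)) := g0.prodMk g1'
  have g4 : Continuous (fun w : (ℝ × Eu n) × Eu n => (w.1.1, ln i w.1.2 0)) := g0.prodMk g2'
  have h1' := hH.comp g3
  have h2' := hH.comp g4
  have h1 : Continuous (fun w : (ℝ × Eu n) × Eu n => ham (vel φ w.1.1) (ln i w.1.2 w.2)) := h1'
  have h2 : Continuous (fun w : (ℝ × Eu n) × Eu n => ham (vel φ w.1.1) (ln i w.1.2 0)) := h2'
  have h3 : Continuous (fun w : (ℝ × Eu n) × Eu n =>
      |ham (vel φ w.1.1) (ln i w.1.2 w.2) - ham (vel φ w.1.1) (ln i w.1.2 0)|) := (h1.sub h2).abs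
  exact osf_box.continuous_sSup (f := fun (z : ℝ × Eu n) y =>
    |ham (vel φ z.1) (ln i z.2 y) - ham (vel φ z.1) (ln i z.2 0)|) h3

theorem osf_per (i : Fin 2) {u : Eu (n + n) → Eu (n + n)} (hu : ContDiff ℝ ∞ u) (hp : Per u)
    (hs : SyF u) (a : Eu n) (k : Fin n → ℤ) : osf i u (a + iv k) = osf i u a := by
  have h1 : ∀ y, ham u (ln i (a + iv k) y) = ham u (ln i a y) := by
    intro y
    have h2 := osf_ham_per i hu hp hs a y k 0
    rwa [osf_iv_zero, add_zero] at h2
  unfold osf
  simp only [h1]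

theorem osf_nonneg (i : Fin 2) (u : Eu (n + n) → Eu (n + n)) (a : Eu n) : 0 ≤ osf i u a := by
  unfold osf
  refine Real.sSup_nonneg ?_
  rintro _ ⟨y, -, rfl⟩
  exact abs_nonneg _

theorem osf_le (i : Fin 2) {u : Eu (n + n) → Eu (n + n)} (hu : ContDiff ℝ ∞ u) (hp : Per u)
    (hs : SyF u) (a y : Eu n) : |ham u (ln i a y) - ham u (ln i a 0)| ≤ osf i u a := by
  have hc : Continuous (ham u) := (ham_MH hu hp hs).Hs.continuous
  set z : Eu n := WithLp.toLp 2 (fun j => Int.fract (y j)) with hz
  have hyz : y = z + iv (fun j => ⌊y j⌋) := by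
    ext j
    simp [hz, iv]
  have h1 : ham u (ln i a y) = ham u (ln i a z) := by
    have h2 := osf_ham_per i hu hp hs a z 0 (fun j => ⌊y j⌋)
    rw [osf_iv_zero, add_zero, ← hyz] at h2
    exact h2
  rw [h1]
  unfold osf
  refine le_csSup ?_ (mem_image_of_mem (fun y => |ham u (ln i a y) - ham u (ln i a 0)|) ?_)
  · refine osf_box.bddAbove_image (Continuous.continuousOn ?_)
    refine Continuous.abs (Continuous.sub ?_ continuous_const)
    exact hc.comp ((osf_ln_cont i).comp (continuous_const.prodMk continuous_id))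
  · intro j
    exact ⟨Int.fract_nonneg _, (Int.fract_lt_one _).le⟩

theorem flx_shift {u : Eu (n + n) → Eu (n + n)} (hu : ContDiff ℝ ∞ u) (hp : Per u) (hs : SyF u)
    (c : Eu (n + n)) (a y : Eu n) :
    |ham (fun x => u (x + c) - mn u) (pt a y) - ham (fun x => u (x + c) - mn u) (pt a 0)| ≤
      2 * osf 0 u (a + qq c) := by
  have hv : ContDiff ℝ ∞ (fun x => u (x + c) - mn u) :=
    (hu.comp (contDiff_id.add contDiff_const)).sub contDiff_const
  have hvp : Per (fun x => u (x + c) - mn u) := by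
    intro x k
    show u (x + iv k + c) - mn u = u (x + c) - mn u
    rw [add_right_comm, hp (x + c) k]
  have hvs : SyF (fun x => u (x + c) - mn u) := by
    intro x v w
    have h1 : fderiv ℝ (fun x => u (x + c) - mn u) x = fderiv ℝ u (x + c) := by
      rw [fderiv_sub_const, fderiv_comp_add_right]
    rw [h1]
    exact hs (x + c) v w
  have hmn : mn (fun x => u (x + c) - mn u) = 0 := by
    have h1 : ∫ x in cube (n + n), u (x + c) = mn u := by
      have h2 := HsA.cube_trans u hp c
      simpa only [add_comm c, mn] using h2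
    have hc : Continuous (fun x => u (x + c)) :=
      hu.continuous.comp (continuous_id.add continuous_const)
    unfold mn at h1 ⊢
    rw [integral_sub (HsA.int_cube hc) (HsA.int_cube continuous_const), h1, setIntegral_const,
      Measure.real, HsA.vol_cube]
    simp
  have hd1 : ∀ x, HasFDerivAt (ham (fun x => u (x + c) - mn u))
      (innerSL ℝ (Jm (u (x + c) - mn u))) x := by
    intro x
    have h1 := (ham_MH hv hvp hvs).Hd x
    rw [hmn, sub_zero] at h1
    exact h1
  have hd2 : ∀ x, HasFDerivAt (fun x => ham u (x + c)) (innerSL ℝ (Jm (u (x + c) - mn u))) x := by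
    intro x
    have h1 := ((ham_MH hu hp hs).Hd (x + c)).comp x ((hasFDerivAt_id x).add_const c)
    exact h1
  have hcst : ∀ x x', ham (fun x => u (x + c) - mn u) x - ham u (x + c) =
      ham (fun x => u (x + c) - mn u) x' - ham u (x' + c) := by
    intro x x'
    refine is_const_of_fderiv_eq_zero (𝕜 := ℝ)
      (f := fun x => ham (fun x => u (x + c) - mn u) x - ham u (x + c))
      (fun z => ((hd1 z).sub (hd2 z)).differentiableAt) (fun z => ?_) x x'
    have h1 := ((hd1 z).sub (hd2 z)).fderiv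
    rw [sub_self] at h1
    exact h1
  have h5 := hcst (pt a y) (pt a 0)
  have h6 : ∀ y, pt a y + c = ln 0 (a + qq c) (y + pp c) := by
    intro y
    rw [ln0, pt_add, pt_qq_pp]
  rw [h6 y, h6 0, zero_add] at h5
  have h7 := osf_le 0 hu hp hs (a + qq c) (y + pp c)
  have h8 := osf_le 0 hu hp hs (a + qq c) (pp c)
  have h9 : ham (fun x => u (x + c) - mn u) (pt a y) - ham (fun x => u (x + c) - mn u) (pt a 0) =
      (ham u (ln 0 (a + qq c) (y + pp c)) - ham u (ln 0 (a + qq c) 0)) -
      (ham u (ln 0 (a + qq c) (pp c)) - ham u (ln 0 (a + qq c) 0)) := by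
    linarith
  rw [h9]
  refine (abs_sub _ _).trans ?_
  linarith

end

end TN
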