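import Pool.Agent.TN.Bas
import Pool.Agent.TN.Osf
import Pool.Agent.H68.VD.Wsp

/-!
# The average over the slices of the bound of the action (TN-11)
-/

set_option autoImplicit false

open MeasureTheory Set Pool.Agent.H68.VD
open scoped ENNReal ContDiff Pointwise

namespace TN

variable {n : ℕ}

/-- translation invariance of the integral of a periodic function -/
private theorem avg_trans {m : ℕ} (f : Eu m → ℝ≥0∞) (hf : Per f) (a : Eu m) :
    ∫⁻ x in cube m, f (x + a) = ∫⁻ x in cube m, f x := by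
  have hd : IsAddFundamentalDomain (Submodule.span ℤ (Set.range (WspA.bs m))) (cube m)
      (volume : Measure (Eu m)) := by
    rw [WspA.cube_eq]; exact ZSpan.isAddFundamentalDomain _ _
  have : VAddInvariantMeasure (Submodule.span ℤ (Set.range (WspA.bs m))) (Eu m) volume :=
    inferInstanceAs <| VAddInvariantMeasure
      (Submodule.span ℤ (Set.range (WspA.bs m))).toAddSubgroup (Eu m) volume
  have hd2 : IsAddFundamentalDomain (Submodule.span ℤ (Set.range (WspA.bs m))) (a +ᵥ cube m)
      (volume : Measure (Eu m)) := by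
    exact hd.vadd_of_comm a
  have hper : ∀ (g : Submodule.span ℤ (Set.range (WspA.bs m))) (x : Eu m),
      f (g +ᵥ x) = f x := by
    intro g x
    obtain ⟨k, hk⟩ := WspA.span_iv g
    have : g +ᵥ x = x + iv k := by
      rw [← hk, add_comm]; rfl
    rw [this]; exact hf x k
  have h := hd.setLIntegral_eq hd2 f hper
  rw [h]
  have h2 : (a +ᵥ cube m) = (fun x => x + a) '' cube m := by
    ext y
    simp only [Set.mem_vadd_set, Set.mem_image, vadd_eq_add]
    constructor
    · rintro ⟨x, hx, rfl⟩; exact ⟨x, hx, add_comm _ _⟩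
    · rintro ⟨x, hx, rfl⟩; exact ⟨x, hx, add_comm _ _⟩
  rw [h2]
  exact (measurePreserving_add_right volume a).setLIntegral_comp_emb
    (measurableEmbedding_addRight a) f (cube m)

private theorem avg_lint {F : ℝ → ℝ} (hF : Continuous F) (h0 : ∀ a, 0 ≤ F a) :
    ∫⁻ a in Icc (0 : ℝ) 1, ENNReal.ofReal (F a) = ENNReal.ofReal (∫ a in (0 : ℝ)..1, F a) := by
  rw [intervalIntegral.integral_of_le zero_le_one, ← integral_Icc_eq_integral_Ioc]
  exact (ofReal_integral_eq_lintegral_ofReal hF.integrableOn_Icc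
    (Filter.Eventually.of_forall h0)).symm

private theorem avg_pr (i : Fin 2) : Continuous (pr (n := n) i) := by
  unfold pr
  by_cases h : i = 0
  · simp only [h, if_true]
    exact continuous_qq
  · simp only [h, if_false]
    exact continuous_pp

theorem avg {N : (Eu (n + n) → Eu (n + n)) → ℝ≥0∞} (hN : Slc N) : ∃ C : ℝ, 0 ≤ C ∧ ∀ (i : Fin 2)
    (φ : ℝ → Eu (n + n) → Eu (n + n)), SPath φ →
    ∫⁻ a in cube n, ENNReal.ofReal (Ebd i φ a) ≤ ENNReal.ofReal C * len N φ := by
  obtain ⟨C, hC, hS⟩ := hN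
  refine ⟨2 * C, by positivity, fun i φ h => ?_⟩
  have hd : Continuous fun t => dsp (φ t) :=
    continuous_iff_continuousAt.2 fun t => (dsp_deriv h t).continuousAt
  have hdi : Continuous fun t => pr i (dsp (φ t)) := (avg_pr i).comp hd
  have hosf := osf_cont i h
  have hvs : ∀ t, ContDiff ℝ ∞ (vel φ t) := fun t =>
    (vel_smooth h).comp (f := fun x : Eu (n + n) => (t, x)) (contDiff_const.prodMk contDiff_id)
  have hg : Continuous fun z : Eu n × ℝ => osf i (vel φ z.2) (z.1 + pr i (dsp (φ z.2))) :=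
    hosf.comp (f := fun z : Eu n × ℝ => (z.2, z.1 + pr i (dsp (φ z.2))))
      (continuous_snd.prodMk (continuous_fst.add (hdi.comp continuous_snd)))
  have h1 : ∀ a : Eu n, ENNReal.ofReal (Ebd i φ a) = ENNReal.ofReal 2 *
      ∫⁻ t in Icc (0 : ℝ) 1, ENNReal.ofReal (osf i (vel φ t) (a + pr i (dsp (φ t)))) := by
    intro a
    unfold Ebd
    rw [ENNReal.ofReal_mul (by norm_num)]
    congr 1
    exact (avg_lint (F := fun t => osf i (vel φ t) (a + pr i (dsp (φ t))))
      (hg.comp (f := fun t => (a, t)) (by fun_prop)) fun t => osf_nonneg i _ _).symm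
  have h2 : ∀ t : ℝ, ∫⁻ a in cube n,
      ENNReal.ofReal (osf i (vel φ t) (a + pr i (dsp (φ t)))) ≤ ENNReal.ofReal C * N (vel φ t) := by
    intro t
    rw [avg_trans (fun a => ENNReal.ofReal (osf i (vel φ t) a)) (fun a k => by
      show ENNReal.ofReal (osf i (vel φ t) (a + iv k)) = ENNReal.ofReal (osf i (vel φ t) a)
      rw [osf_per i (hvs t) (vel_per h t) (vel_sy h t) a k]) (pr i (dsp (φ t)))]
    exact hS i _ (hvs t) (vel_per h t) (vel_sy h t)
  calc ∫⁻ a in cube n, ENNReal.ofReal (Ebd i φ a)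
      = ∫⁻ a in cube n, ENNReal.ofReal 2 * ∫⁻ t in Icc (0 : ℝ) 1,
          ENNReal.ofReal (osf i (vel φ t) (a + pr i (dsp (φ t)))) := by simp only [h1]
    _ = ENNReal.ofReal 2 * ∫⁻ a in cube n, ∫⁻ t in Icc (0 : ℝ) 1,
          ENNReal.ofReal (osf i (vel φ t) (a + pr i (dsp (φ t)))) :=
        lintegral_const_mul' _ _ ENNReal.ofReal_ne_top
    _ = ENNReal.ofReal 2 * ∫⁻ t in Icc (0 : ℝ) 1, ∫⁻ a in cube n,
          ENNReal.ofReal (osf i (vel φ t) (a + pr i (dsp (φ t)))) := by
        congr 1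
        refine lintegral_lintegral_swap (f := fun a t =>
          ENNReal.ofReal (osf i (vel φ t) (a + pr i (dsp (φ t))))) ?_
        exact (ENNReal.continuous_ofReal.comp hg).measurable.aemeasurable
    _ ≤ ENNReal.ofReal 2 * ∫⁻ t in Icc (0 : ℝ) 1, ENNReal.ofReal C * N (vel φ t) := by
        gcongr with t
        exact h2 t
    _ = ENNReal.ofReal 2 * (ENNReal.ofReal C * len N φ) := by
        rw [lintegral_const_mul' _ _ ENNReal.ofReal_ne_top]
        rfl
    _ = ENNReal.ofReal (2 * C) * len N φ := by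
        rw [ENNReal.ofReal_mul (by norm_num), mul_assoc]

end TN
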