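import Pool.Agent.TN.Lin

/-!
TN-6 (MP_b0bf68_gt, project TN): the derivative of the action.
-/

set_option autoImplicit false

open MeasureTheory Set Pool.Agent.H68.VD
open scoped ENNReal ContDiff

namespace TN

variable {n : ℕ}

private theorem act_pt_smooth (a : Eu n) :
    ContDiff ℝ ∞ (fun z : ℝ × Eu n => (z.1, pt a z.2)) :=
  contDiff_fst.prodMk (contDiff_pt.comp (contDiff_const.prodMk contDiff_snd))

private theorem act_d1 {F : Type*} [NormedAddCommGroup F] [NormedSpace ℝ F] {Φ : ℝ × Eu n → F}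
    (hΦ : Differentiable ℝ Φ) (t : ℝ) (s : Eu n) :
    HasDerivAt (fun τ => Φ (τ, s)) (fderiv ℝ Φ (t, s) (1, 0)) t := by
  have h1 : HasDerivAt (fun τ : ℝ => (τ, s)) ((1 : ℝ), (0 : Eu n)) t :=
    (hasDerivAt_id t).prodMk (hasDerivAt_const t s)
  exact (hΦ (t, s)).hasFDerivAt.comp_hasDerivAt t h1

private theorem act_d2 {F : Type*} [NormedAddCommGroup F] [NormedSpace ℝ F] {Φ : ℝ × Eu n → F}
    (hΦ : Differentiable ℝ Φ) (t : ℝ) (s : Eu n) :
    HasFDerivAt (fun r => Φ (t, r))
      ((fderiv ℝ Φ (t, s)).comp (ContinuousLinearMap.inr ℝ ℝ (Eu n))) s := by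
  have h1 : HasFDerivAt (fun r : Eu n => (t, r)) (ContinuousLinearMap.inr ℝ ℝ (Eu n)) s :=
    hasFDerivAt_prodMk_right t s
  exact (hΦ (t, s)).hasFDerivAt.comp s h1

/-- differentiation under the integral sign over `[0,1]` for a function with a continuous
derivative in the parameter -/
private theorem act_param {G : ℝ × Eu n → ℝ} {Gs : ℝ × Eu n → Eu n →L[ℝ] ℝ} (hG : Continuous G)
    (hGs : Continuous Gs) (h : ∀ t s, HasFDerivAt (fun r => G (t, r)) (Gs (t, s)) s) (s : Eu n) :
    HasFDerivAt (fun r => ∫ t in (0 : ℝ)..1, G (t, r)) (∫ t in (0 : ℝ)..1, Gs (t, s)) s := by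
  have hK : IsCompact (Icc (0 : ℝ) 1 ×ˢ Metric.closedBall s 1) :=
    isCompact_Icc.prod (isCompact_closedBall s 1)
  obtain ⟨C, hC⟩ := hK.exists_bound_of_continuousOn hGs.continuousOn
  refine intervalIntegral.hasFDerivAt_integral_of_dominated_of_fderiv_le
    (s := Metric.ball s 1) (F := fun r t => G (t, r)) (F' := fun r t => Gs (t, r))
    (bound := fun _ => C) (Metric.ball_mem_nhds s one_pos) ?_ ?_ ?_ ?_ ?_ ?_
  · exact Filter.Eventually.of_forall fun r =>
      (hG.comp (continuous_id.prodMk continuous_const)).aestronglyMeasurable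
  · exact (hG.comp (continuous_id.prodMk continuous_const)).intervalIntegrable _ _
  · exact (hGs.comp (continuous_id.prodMk continuous_const)).aestronglyMeasurable
  · refine Filter.Eventually.of_forall fun t ht r hr =>
      hC (t, r) ⟨?_, Metric.ball_subset_closedBall hr⟩
    rw [uIoc_of_le zero_le_one] at ht
    exact Ioc_subset_Icc_self ht
  · exact intervalIntegrable_const
  · exact Filter.Eventually.of_forall fun t _ r _ => h t r

theorem act_deriv {u : ℝ → Eu (n + n) → Eu (n + n)} {H : ℝ → Eu (n + n) → ℝ}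
    {φ : ℝ → Eu (n + n) → Eu (n + n)} (h : HFl u H φ) (a : Eu n) :
    FrA (φ 1) a (act u H φ a) := by
  intro s
  set Φ : ℝ × Eu n → Eu (n + n) := fun z => φ z.1 (pt a z.2) with hΦdef
  have hΦ : ContDiff ℝ ∞ Φ := h.fs.comp (act_pt_smooth a)
  have hΦd : Differentiable ℝ Φ := hΦ.differentiable (by simp)
  have hD : ContDiff ℝ ∞ (fderiv ℝ Φ) := hΦ.fderiv_right (by simp)
  have hDd : Differentiable ℝ (fderiv ℝ Φ) := hD.differentiable (by simp)
  have hDD : ContDiff ℝ ∞ (fderiv ℝ (fderiv ℝ Φ)) := hD.fderiv_right (by simp)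
  -- the time derivative
  have ht : ∀ t r, fderiv ℝ Φ (t, r) (1, 0) = u t (Φ (t, r)) := fun t r =>
    (act_d1 hΦd t r).unique (h.fd t (pt a r))
  -- symmetry of the second derivative
  have hsym : ∀ z w, fderiv ℝ (fderiv ℝ Φ) z (0, w) (1, 0) =
      fderiv ℝ (fderiv ℝ Φ) z (1, 0) (0, w) := by
    intro z w
    exact (hΦ.contDiffAt.isSymmSndFDerivAt (by
      rw [minSmoothness_of_isRCLikeNormedField]
      exact WithTop.coe_le_coe.mpr le_top)).eq (0, w) (1, 0)
  set G : ℝ × Eu n → ℝ := fun z =>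
    inner ℝ (qq (Φ z) - a) (pp (fderiv ℝ Φ z (1, 0))) + H z.1 (Φ z) with hG
  set Gs : ℝ × Eu n → Eu n →L[ℝ] ℝ := fun z =>
    (innerSL ℝ (qq (fderiv ℝ Φ z (1, 0)))).comp ((pL n).comp ((fderiv ℝ Φ z).comp
      (ContinuousLinearMap.inr ℝ ℝ (Eu n)))) +
    (innerSL ℝ (qq (Φ z) - a)).comp ((pL n).comp ((fderiv ℝ (fderiv ℝ Φ) z (1, 0)).comp
      (ContinuousLinearMap.inr ℝ ℝ (Eu n)))) with hGs
  have hGsw : ∀ z w, Gs z w = inner ℝ (qq (fderiv ℝ Φ z (1, 0))) (pp (fderiv ℝ Φ z (0, w))) +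
      inner ℝ (qq (Φ z) - a) (pp (fderiv ℝ (fderiv ℝ Φ) z (1, 0) (0, w))) := by
    intro z w
    simp only [hGs, add_apply, ContinuousLinearMap.comp_apply, innerSL_apply_apply, pL_apply,
      ContinuousLinearMap.inr_apply]
  have hact : act u H φ a = fun r => ∫ t in (0 : ℝ)..1, G (t, r) := by
    funext r
    unfold act agr
    refine intervalIntegral.integral_congr fun t _ => ?_
    simp only [hG, ht]
    rfl
  have cG : Continuous G := by
    have c1 := hΦ.continuous
    have c2 := hD.continuous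
    have c3 : Continuous (fun z : ℝ × Eu n => H z.1 (Φ z)) :=
      h.Hs.continuous.comp (continuous_fst.prodMk c1)
    exact (((continuous_qq.comp c1).sub continuous_const).inner
      (continuous_pp.comp (c2.clm_apply continuous_const))).add c3
  have cGs : Continuous Gs := by
    have c1 := hΦ.continuous
    have c2 := hD.continuous
    have c3 := hDD.continuous
    have c4 : Continuous (fun z : ℝ × Eu n => innerSL ℝ (qq (fderiv ℝ Φ z (1, 0)))) :=
      (innerSL ℝ).continuous.comp (continuous_qq.comp (c2.clm_apply continuous_const))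
    have c5 : Continuous (fun z : ℝ × Eu n => innerSL ℝ (qq (Φ z) - a)) :=
      (innerSL ℝ).continuous.comp ((continuous_qq.comp c1).sub continuous_const)
    exact (c4.clm_comp (continuous_const.clm_comp (c2.clm_comp continuous_const))).add
      (c5.clm_comp (continuous_const.clm_comp
        ((c3.clm_apply continuous_const).clm_comp continuous_const)))
  have hGd : ∀ t r, HasFDerivAt (fun r => G (t, r)) (Gs (t, r)) r := by
    intro t r
    have h0 := act_d2 hΦd t r
    have h1 : HasFDerivAt (fun r => qq (Φ (t, r)) - a)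
        ((qL n).comp ((fderiv ℝ Φ (t, r)).comp (ContinuousLinearMap.inr ℝ ℝ (Eu n)))) r :=
      ((qL n).hasFDerivAt.comp r h0).sub_const a
    have h3 : HasFDerivAt (fun r => pp (fderiv ℝ Φ (t, r) (1, 0)))
        (((pL n).comp (ContinuousLinearMap.apply ℝ (Eu (n + n)) ((1 : ℝ), (0 : Eu n)))).comp
          ((fderiv ℝ (fderiv ℝ Φ) (t, r)).comp (ContinuousLinearMap.inr ℝ ℝ (Eu n)))) r :=
      ((pL n).comp (ContinuousLinearMap.apply ℝ (Eu (n + n))
        ((1 : ℝ), (0 : Eu n)))).hasFDerivAt.comp r (act_d2 hDd t r)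
    have h4 := (h.Hd t (Φ (t, r))).comp r h0
    have h5 := (h1.inner ℝ h3).add h4
    refine h5.congr_fderiv ?_
    ext w
    rw [hGsw]
    have e1 := hsym (t, r) w
    have e2 := om_J (u t (Φ (t, r))) (fderiv ℝ Φ (t, r) (0, w))
    rw [om_eq] at e2
    simp only [add_apply, ContinuousLinearMap.comp_apply,
      ContinuousLinearMap.prod_apply, fderivInnerCLM_apply, innerSL_apply_apply,
      ContinuousLinearMap.inr_apply, qL_apply, pL_apply, ContinuousLinearMap.apply_apply, e1, ht,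
      ← e2]
    rw [real_inner_comm (qq (fderiv ℝ Φ (t, r) (0, w))) (pp (u t (Φ (t, r))))]
    ring
  have hK : ∀ t w, HasDerivAt
      (fun τ => inner ℝ (qq (Φ (τ, s)) - a) (pp (fderiv ℝ Φ (τ, s) (0, w)))) (Gs (t, s) w) t := by
    intro t w
    have h1 : HasDerivAt (fun τ => qq (Φ (τ, s)) - a) (qq (fderiv ℝ Φ (t, s) (1, 0))) t :=
      ((qL n).hasFDerivAt.comp_hasDerivAt t (act_d1 hΦd t s)).sub_const a
    have h2 : HasDerivAt (fun τ => pp (fderiv ℝ Φ (τ, s) (0, w)))
        (pp (fderiv ℝ (fderiv ℝ Φ) (t, s) (1, 0) (0, w))) t :=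
      ((pL n).comp (ContinuousLinearMap.apply ℝ (Eu (n + n))
        ((0 : ℝ), w))).hasFDerivAt.comp_hasDerivAt t (act_d1 hDd t s)
    refine (h1.inner ℝ h2).congr_deriv ?_
    rw [hGsw]
    ring
  have hint : ∀ w, ∫ t in (0 : ℝ)..1, Gs (t, s) w =
      inner ℝ (qq (Φ (1, s)) - a) (pp (fderiv ℝ Φ (1, s) (0, w))) -
      inner ℝ (qq (Φ (0, s)) - a) (pp (fderiv ℝ Φ (0, s) (0, w))) := by
    intro w
    refine intervalIntegral.integral_eq_sub_of_hasDerivAt
      (f := fun τ => inner ℝ (qq (Φ (τ, s)) - a) (pp (fderiv ℝ Φ (τ, s) (0, w))))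
      (fun t _ => hK t w) (Continuous.intervalIntegrable ?_ _ _)
    exact (cGs.comp (continuous_id.prodMk continuous_const)).clm_apply continuous_const
  have h0 : qq (Φ (0, s)) = a := by
    simp only [hΦdef, h.f0]
    simp
  rw [hact]
  refine (act_param cG cGs hGd s).congr_fderiv ?_
  ext w
  have hii : IntervalIntegrable (fun t => Gs (t, s)) volume 0 1 :=
    Continuous.intervalIntegrable (cGs.comp (continuous_id.prodMk continuous_const)) _ _
  rw [ContinuousLinearMap.intervalIntegral_apply hii, hint, h0]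
  have h1 : HasFDerivAt (fun r => pp (φ 1 (pt a r)))
      ((pL n).comp ((fderiv ℝ Φ (1, s)).comp (ContinuousLinearMap.inr ℝ ℝ (Eu n)))) s :=
    (pL n).hasFDerivAt.comp s (act_d2 hΦd 1 s)
  rw [h1.fderiv, sub_self, inner_zero_left, sub_zero]
  rfl

end TN
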