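import Pool.Agent.TN.Lim
import Pool.Agent.TN.Act
import Pool.Agent.TN.Bas
import Pool.Agent.TN.Ham
import Pool.Agent.TN.Osf

/-!
# The front (project TN)

The front of a slice under a symplectic diffeomorphism of the torus, and the exchange of the
positions and the momenta.
-/

set_option autoImplicit false
set_option maxHeartbeats 400000

open MeasureTheory Set Pool.Agent.H68.VD
open scoped ENNReal ContDiff

namespace TN

noncomputable section

variable {n : ℕ}

theorem front0 {φ : ℝ → Eu (n + n) → Eu (n + n)} (h : SPath φ) (h0 : φ 0 = id) (a : Eu n) :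
    ∃ A : Eu n → ℝ, FrA (nrm (φ 1)) a A ∧
      ∀ y, ∃ s, pp (nrm (φ 1) (pt a s)) = y ∧ |A s| ≤ Ebd 0 φ a := by
  obtain ⟨hψ, hψ0, hm, hv⟩ := frame h h0
  obtain ⟨H, hH, hfl⟩ := exists_ham hψ hψ0 hm a
  have hdc : Continuous fun t => dsp (φ t) :=
    continuous_iff_continuousAt.mpr fun t => (dsp_deriv h t).continuousAt
  have hd0 : Continuous fun t => qq (dsp (φ t)) := continuous_qq.comp hdc
  have hgc : Continuous fun t => 2 * osf 0 (vel φ t) (a + qq (dsp (φ t))) := by
    have h1 : Continuous fun t : ℝ => ((t, a + qq (dsp (φ t))) : ℝ × Eu n) :=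
      continuous_id.prodMk (continuous_const.add hd0)
    have h2 := (osf_cont 0 h).comp h1
    exact continuous_const.mul h2
  have hg : ∀ t ∈ Icc (0 : ℝ) 1, ∀ r,
      |H t (pt a r)| ≤ 2 * osf 0 (vel φ t) (a + qq (dsp (φ t))) := by
    intro t _ r
    have hs : ContDiff ℝ ∞ (vel φ t) :=
      (vel_smooth h).comp (contDiff_prodMk_right t)
    have h3 := flx_shift hs (vel_per h t) (vel_sy h t) (dsp (φ t)) a r
    have h4 : vel (fun t => nrm (φ t)) t =
      fun x => vel φ t (x + dsp (φ t)) - mn (vel φ t) := funext fun x => hv t x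
    rw [hfl t r, h4]
    exact h3
  refine ⟨act (vel fun t => nrm (φ t)) H (fun t => nrm (φ t)) a, act_deriv hH a,
    fun y => ?_⟩
  obtain ⟨s, hs1, hs2⟩ := key hH a y _ hgc hg
  refine ⟨s, hs1, hs2.trans (le_of_eq ?_)⟩
  rw [intervalIntegral.integral_const_mul]
  unfold Ebd
  simp only [pr, if_true]

private theorem sw_add (x y : Eu (n + n)) : sw (x + y) = sw x + sw y :=
  ext_qp (by simp) (by simp)

private theorem sw_sub (x y : Eu (n + n)) : sw (x - y) = sw x - sw y :=
  ext_qp (by simp) (by simp)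

private theorem sw_smul (c : ℝ) (x : Eu (n + n)) : sw (c • x) = c • sw x :=
  ext_qp (by simp) (by simp)

private theorem norm_sw (x : Eu (n + n)) : ‖sw x‖ = ‖x‖ := by
  have h : ‖sw x‖ ^ 2 = ‖x‖ ^ 2 := by
    rw [norm_qp, norm_qp x, qq_sw, pp_sw, add_comm]
  exact (sq_eq_sq₀ (norm_nonneg _) (norm_nonneg _)).1 h

/-- the exchange of positions and momenta as a linear isometry -/
private def swI (n : ℕ) : Eu (n + n) ≃ₗᵢ[ℝ] Eu (n + n) where
  toFun := sw
  invFun := sw
  map_add' := sw_add
  map_smul' := sw_smul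
  left_inv := sw_sw
  right_inv := sw_sw
  norm_map' := norm_sw

private theorem swI_apply (x : Eu (n + n)) : swI n x = sw x := rfl

private theorem sw_iv (k : Fin (n + n) → ℤ) : sw (iv k) =
    iv (kk (fun i => k (Fin.natAdd n i)) (fun i => k (Fin.castAdd n i))) := by
  rw [iv_kk]
  refine ext_qp ?_ ?_
  · rw [qq_sw, pp_iv, qq_pt]
  · rw [pp_sw, qq_iv, pp_pt]

private theorem sw_bij : Function.Bijective (sw (n := n)) :=
  Function.bijective_iff_has_inverse.mpr ⟨sw, sw_sw, sw_sw⟩

private theorem sw_castAdd (x : Eu (n + n)) (i : Fin n) :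
    sw x (Fin.castAdd n i) = x (Fin.natAdd n i) := by
  have h := congrArg (fun z : Eu n => z i) (qq_sw x)
  exact h

private theorem sw_natAdd (x : Eu (n + n)) (i : Fin n) :
    sw x (Fin.natAdd n i) = x (Fin.castAdd n i) := by
  have h := congrArg (fun z : Eu n => z i) (pp_sw x)
  exact h

private theorem cube_sw : (fun x => swI n x) ⁻¹' cube (n + n) = cube (n + n) := by
  ext x
  simp only [mem_preimage, swI_apply, cube, Set.mem_ofPred_eq]
  constructor
  · intro h j
    refine Fin.addCases (fun i => ?_) (fun i => ?_) j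
    · rw [← sw_natAdd]; exact h _
    · rw [← sw_castAdd]; exact h _
  · intro h j
    refine Fin.addCases (fun i => ?_) (fun i => ?_) j
    · rw [sw_castAdd]; exact h _
    · rw [sw_natAdd]; exact h _

/-- integrals over the cube do not change under the exchange of the coordinates -/
private theorem int_sw (u : Eu (n + n) → Eu (n + n)) :
    ∫ x in cube (n + n), sw (u (sw x)) = sw (∫ x in cube (n + n), u x) := by
  have h1 : ∫ x in cube (n + n), sw (u (sw x)) = swI n (∫ x in cube (n + n), u (sw x)) := by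
    rw [show (fun x => sw (u (sw x))) = fun x => (swI n).toContinuousLinearEquiv (u (sw x)) from
      funext fun x => (swI_apply _).symm]
    exact ContinuousLinearEquiv.integral_comp_comm (swI n).toContinuousLinearEquiv _
  have h2 : ∫ x in cube (n + n), u (sw x) = ∫ x in cube (n + n), u x := by
    have h3 := ((swI n).measurePreserving).setIntegral_preimage_emb
      (swI n).toHomeomorph.measurableEmbedding u (cube (n + n))
    rw [cube_sw] at h3
    rw [← h3]
    refine integral_congr_ae (Filter.Eventually.of_forall fun x => ?_)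
    simp only [swI_apply]
  rw [h1, h2, swI_apply]

private theorem mn_sw (u : Eu (n + n) → Eu (n + n)) : mn (fun x => sw (u (sw x))) = sw (mn u) :=
  int_sw u

private theorem dsp_sw (f : Eu (n + n) → Eu (n + n)) :
    dsp (fun x => sw (f (sw x))) = sw (dsp f) := by
  unfold dsp
  rw [← int_sw]
  refine integral_congr_ae (Filter.Eventually.of_forall fun x => ?_)
  simp only [sw_sub, sw_sw]

private theorem ham_sw (u : Eu (n + n) → Eu (n + n)) (x : Eu (n + n)) :
    ham (fun x => sw (u (sw x))) x = -ham u (sw x) := by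
  unfold ham
  rw [mn_sw, ← intervalIntegral.integral_neg]
  refine intervalIntegral.integral_congr fun s _ => ?_
  show om (sw (u (sw (s • x))) - sw (mn u)) x = -om (u (s • sw x) - mn u) (sw x)
  rw [← sw_sub, sw_smul, ← om_sw, sw_sw]

private theorem osf_sw (u : Eu (n + n) → Eu (n + n)) (a : Eu n) :
    osf 0 (fun x => sw (u (sw x))) a = osf 1 u a := by
  have h2 : ∀ r : Eu n, sw (ln 0 a r) = ln 1 a r := by
    intro r
    exact ext_qp (by simp) (by simp)
  have h1 : ∀ y : Eu n, |ham (fun x => sw (u (sw x))) (ln 0 a y) -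
      ham (fun x => sw (u (sw x))) (ln 0 a 0)| = |ham u (ln 1 a y) - ham u (ln 1 a 0)| := by
    intro y
    rw [ham_sw, ham_sw, h2, h2, ← abs_neg]
    congr 1
    ring
  unfold osf
  simp only [h1]

/-- exchange of positions and momenta -/
theorem swap {φ : ℝ → Eu (n + n) → Eu (n + n)} (h : SPath φ) :
    SPath (fun t x => sw (φ t (sw x))) ∧
      (∀ a, Ebd 0 (fun t x => sw (φ t (sw x))) a = Ebd 1 φ a) ∧
      ∀ t x, nrm (fun x => sw (φ t (sw x))) x = sw (nrm (φ t) (sw x)) := by
  have hswd : ContDiff ℝ ∞ (sw (n := n)) := by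
    rw [show (sw (n := n)) = fun x => swI n x from funext fun x => (swI_apply x).symm]
    exact (swI n).contDiff
  have hswf : ∀ x, HasFDerivAt (sw (n := n))
      ((swI n).toContinuousLinearEquiv : Eu (n + n) →L[ℝ] Eu (n + n)) x := by
    intro x
    rw [show (sw (n := n)) = fun x => swI n x from funext fun x => (swI_apply x).symm]
    exact (swI n).toContinuousLinearEquiv.hasFDerivAt
  have hbij : ∀ t, Function.Bijective fun x => sw (φ t (sw x)) := fun t =>
    sw_bij.comp ((h.path.bij t).comp sw_bij)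
  have hvel : ∀ t, vel (fun t x => sw (φ t (sw x))) t = fun x => sw (vel φ t (sw x)) := by
    intro t
    funext x
    have h1 : Function.invFun (fun x => sw (φ t (sw x))) x =
        sw (Function.invFun (φ t) (sw x)) := by
      apply (hbij t).1
      rw [Function.rightInverse_invFun (hbij t).2 x]
      simp only [sw_sw]
      rw [Function.rightInverse_invFun (h.path.bij t).2 (sw x), sw_sw]
    unfold vel
    rw [h1]
    simp only [sw_sw]
    have h2 : DifferentiableAt ℝ (fun τ => φ τ (Function.invFun (φ t) (sw x))) t := by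
      have h3 : ContDiff ℝ ∞ (fun τ => φ τ (Function.invFun (φ t) (sw x))) :=
        h.path.smooth.comp (contDiff_prodMk_left _)
      exact (h3.differentiable (by simp)).differentiableAt
    have h4 := (hswf _).comp_hasDerivAt t h2.hasDerivAt
    exact h4.deriv.trans (swI_apply _)
  have hder : ∀ t x, HasFDerivAt (fun x => sw (φ t (sw x)))
      (((swI n).toContinuousLinearEquiv : Eu (n + n) →L[ℝ] Eu (n + n)).comp
        ((fderiv ℝ (φ t) (sw x)).comp
          ((swI n).toContinuousLinearEquiv : Eu (n + n) →L[ℝ] Eu (n + n)))) x := by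
    intro t x
    have hφ : DifferentiableAt ℝ (φ t) (sw x) := by
      have h3 : ContDiff ℝ ∞ (φ t) := h.path.smooth.comp (contDiff_prodMk_right t)
      exact (h3.differentiable (by simp)).differentiableAt
    exact (hswf _).comp x (hφ.hasFDerivAt.comp x (hswf x))
  refine ⟨⟨⟨?_, hbij, ?_, ?_⟩, ?_⟩, ?_, ?_⟩
  · have h1 : ContDiff ℝ ∞ fun q : ℝ × Eu (n + n) => (q.1, sw q.2) :=
      contDiff_fst.prodMk (hswd.comp contDiff_snd)
    exact hswd.comp (h.path.smooth.comp h1)
  · intro t x
    rw [(hder t x).fderiv]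
    have h5 : ((swI n).toContinuousLinearEquiv : Eu (n + n) →L[ℝ] Eu (n + n)).det *
        ((swI n).toContinuousLinearEquiv : Eu (n + n) →L[ℝ] Eu (n + n)).det = 1 := by
      unfold ContinuousLinearMap.det
      rw [← LinearMap.det_comp]
      have h6 : (((swI n).toContinuousLinearEquiv : Eu (n + n) →L[ℝ] Eu (n + n)) :
            Eu (n + n) →ₗ[ℝ] Eu (n + n)) ∘ₗ
          (((swI n).toContinuousLinearEquiv : Eu (n + n) →L[ℝ] Eu (n + n)) :
            Eu (n + n) →ₗ[ℝ] Eu (n + n)) = LinearMap.id := by
        apply LinearMap.ext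
        intro v
        show swI n (swI n v) = v
        rw [swI_apply, swI_apply, sw_sw]
      rw [h6, LinearMap.det_id]
    have h7 : ∀ A B C : Eu (n + n) →L[ℝ] Eu (n + n),
        (A.comp (B.comp C)).det = A.det * C.det * B.det := by
      intro A B C
      unfold ContinuousLinearMap.det
      have h8 : ((A.comp (B.comp C) : Eu (n + n) →L[ℝ] Eu (n + n)) :
            Eu (n + n) →ₗ[ℝ] Eu (n + n)) =
          (A : Eu (n + n) →ₗ[ℝ] Eu (n + n)) ∘ₗ ((B : Eu (n + n) →ₗ[ℝ] Eu (n + n)) ∘ₗ
            (C : Eu (n + n) →ₗ[ℝ] Eu (n + n))) := rfl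
      rw [h8, LinearMap.det_comp, LinearMap.det_comp]
      ring
    rw [h7, h5, one_mul, h.path.det]
  · rintro t g ⟨k, rfl⟩ x
    show sw (φ t (sw (x + iv k))) = sw (φ t (sw x)) + iv k
    have h1 : φ t (sw x + sw (iv k)) = φ t (sw x) + sw (iv k) := by
      rw [sw_iv]
      exact h.path.equi t (fun x => x + iv _) ⟨_, rfl⟩ (sw x)
    rw [sw_add, h1, sw_add, sw_sw]
  · intro t x v w
    rw [(hder t x).fderiv]
    show om (sw (fderiv ℝ (φ t) (sw x) (sw v))) (sw (fderiv ℝ (φ t) (sw x) (sw w))) = om v w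
    rw [om_sw, h.symp, om_sw, neg_neg]
  · intro a
    unfold Ebd
    congr 1
    refine intervalIntegral.integral_congr fun t _ => ?_
    simp only [hvel, dsp_sw, osf_sw]
    simp [pr]
  · intro t x
    unfold nrm
    rw [dsp_sw, sw_sub]

end

end TN
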