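import Mathlib
import Pool.Agent.H68.VD.S

/-!
# Project TN: symplectic diffeomorphisms of the torus of dimension 2n (MP_b0bf68_gt). Definitions
-/

set_option autoImplicit false

open MeasureTheory Set Pool.Agent.H68.VD
open scoped ENNReal ContDiff

namespace TN

noncomputable section

variable {n : ℕ}

/-! ### Definitions used in the statement -/

/-- The deck group of the torus `ℝ^m / ℤ^m`: the translations by the integer vectors. -/
def lat (m : ℕ) : Set (Eu m → Eu m) := {f | ∃ k : Fin m → ℤ, f = fun x => x + iv k}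

/-- The standard symplectic form `∑ dq_i ∧ dp_i` of `ℝ^(2n)`, coordinates `(q_1, …, q_n, p_1, …, p_n)`. -/
def om (x y : Eu (n + n)) : ℝ :=
  ∑ i : Fin n, (x (Fin.castAdd n i) * y (Fin.natAdd n i) - x (Fin.natAdd n i) * y (Fin.castAdd n i))

/-- A smooth path of lifts of symplectic diffeomorphisms of the torus. -/
structure SPath (φ : ℝ → Eu (n + n) → Eu (n + n)) : Prop where
  path : FPath (lat (n + n)) φ
  symp : ∀ t x v w, om (fderiv ℝ (φ t) x v) (fderiv ℝ (φ t) x w) = om v w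

/-- `f` is a lift of an element of the identity component of the group of symplectic diffeomorphisms of
the torus. -/
def SG (f : Eu (n + n) → Eu (n + n)) : Prop :=
  ∃ φ : ℝ → Eu (n + n) → Eu (n + n), SPath φ ∧ φ 0 = id ∧ φ 1 = f

/-- The geodesic distance of the symplectic diffeomorphisms of the torus with lifts `f` and `g` for the
norm `N` on velocity fields: the infimum of the lengths of the paths that join `f` to a lift `γ ∘ g` of
the second one. -/
def sdist (N : (Eu (n + n) → Eu (n + n)) → ℝ≥0∞) (f g : Eu (n + n) → Eu (n + n)) : ℝ≥0∞ :=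
  ⨅ (φ : ℝ → Eu (n + n) → Eu (n + n)) (_ : SPath φ ∧ φ 0 = f ∧ ∃ γ ∈ lat (n + n), φ 1 = γ ∘ g),
    len N φ

/-- The diameter of the identity component of the group of symplectic diffeomorphisms. -/
def sdiam (N : (Eu (n + n) → Eu (n + n)) → ℝ≥0∞) : ℝ≥0∞ :=
  ⨆ (f : Eu (n + n) → Eu (n + n)) (_ : SG f) (g : Eu (n + n) → Eu (n + n)) (_ : SG g), sdist N f g

/-! ### Auxiliary definitions -/

/-- the positions -/
def qq (x : Eu (n + n)) : Eu n := WithLp.toLp 2 (fun i => x (Fin.castAdd n i))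

/-- the momenta -/
def pp (x : Eu (n + n)) : Eu n := WithLp.toLp 2 (fun i => x (Fin.natAdd n i))

/-- the point with positions `a` and momenta `b` -/
def pt (a b : Eu n) : Eu (n + n) := WithLp.toLp 2 (fun j => Fin.addCases (fun i => a i) (fun i => b i) j)

/-- `om x y = ⟪Jm x, y⟫` -/
def Jm (x : Eu (n + n)) : Eu (n + n) := pt (-(pp x)) (qq x)

/-- the point of the slice `q = a` (or `p = a`) whose other coordinates are `r` -/
def ln (i : Fin 2) (a r : Eu n) : Eu (n + n) := if i = 0 then pt a r else pt r a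

/-- the positions or the momenta -/
def pr (i : Fin 2) (x : Eu (n + n)) : Eu n := if i = 0 then qq x else pp x

/-- exchange of positions and momenta -/
def sw (x : Eu (n + n)) : Eu (n + n) := pt (pp x) (qq x)

/-- the mean of a field -/
def mn (u : Eu (n + n) → Eu (n + n)) : Eu (n + n) := ∫ x in cube (n + n), u x

/-- the mean displacement of a map -/
def dsp (f : Eu (n + n) → Eu (n + n)) : Eu (n + n) := ∫ x in cube (n + n), (f x - x)

/-- symplectic vector fields -/
def SyF (u : Eu (n + n) → Eu (n + n)) : Prop :=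
  ∀ x v w, om (fderiv ℝ u x v) w + om v (fderiv ℝ u x w) = 0

/-- the Hamiltonian of the field `u` minus its mean, equal to zero at the origin -/
def ham (u : Eu (n + n) → Eu (n + n)) (x : Eu (n + n)) : ℝ :=
  ∫ s in (0 : ℝ)..1, om (u (s • x) - mn u) x

/-- the oscillation (from the point with the other coordinates zero) on the slice `a` -/
def osf (i : Fin 2) (u : Eu (n + n) → Eu (n + n)) (a : Eu n) : ℝ :=
  sSup ((fun y => |ham u (ln i a y) - ham u (ln i a 0)|) '' {y : Eu n | ∀ j, y j ∈ Icc (0 : ℝ) 1})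

/-- the norm controls the oscillation on typical slices -/
def Slc (N : (Eu (n + n) → Eu (n + n)) → ℝ≥0∞) : Prop :=
  ∃ C : ℝ, 0 ≤ C ∧ ∀ (i : Fin 2) (u : Eu (n + n) → Eu (n + n)), ContDiff ℝ ∞ u → Per u → SyF u →
    ∫⁻ a in cube n, ENNReal.ofReal (osf i u a) ≤ ENNReal.ofReal C * N u

/-- the norm controls the mean -/
def Mnc (N : (Eu (n + n) → Eu (n + n)) → ℝ≥0∞) : Prop := ∃ C : ℝ, 0 ≤ C ∧
  ∀ u : Eu (n + n) → Eu (n + n), Continuous u → Per u → ENNReal.ofReal ‖mn u‖ ≤ ENNReal.ofReal C * N u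

/-- the norm controls the `L^1` norm -/
def Lnc (N : (Eu (n + n) → Eu (n + n)) → ℝ≥0∞) : Prop := ∃ C : ℝ, 0 ≤ C ∧
  ∀ u : Eu (n + n) → Eu (n + n), Continuous u → Per u →
    ∫⁻ x in cube (n + n), ‖u x‖ₑ ≤ ENNReal.ofReal C * N u

/-- a flow `φ` with the periodic Hamiltonian `H` and the velocity field `u` -/
structure HFl (u : ℝ → Eu (n + n) → Eu (n + n)) (H : ℝ → Eu (n + n) → ℝ)
    (φ : ℝ → Eu (n + n) → Eu (n + n)) : Prop where
  us : ContDiff ℝ ∞ (fun z : ℝ × Eu (n + n) => u z.1 z.2)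
  up : ∀ t, Per (u t)
  Hs : ContDiff ℝ ∞ (fun z : ℝ × Eu (n + n) => H z.1 z.2)
  Hp : ∀ t, Per (H t)
  Hd : ∀ t x, HasFDerivAt (H t) (innerSL ℝ (Jm (u t x))) x
  fs : ContDiff ℝ ∞ (fun z : ℝ × Eu (n + n) => φ z.1 z.2)
  fd : ∀ t x, HasDerivAt (fun τ => φ τ x) (u t (φ t x)) t
  f0 : ∀ x, φ 0 x = x

/-- the integrand of the action -/
def agr (u : ℝ → Eu (n + n) → Eu (n + n)) (H : ℝ → Eu (n + n) → ℝ) (a : Eu n) (t : ℝ)
    (x : Eu (n + n)) : ℝ := inner ℝ (qq x - a) (pp (u t x)) + H t x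

/-- the action of the orbit of the point `(a, s)` -/
def act (u : ℝ → Eu (n + n) → Eu (n + n)) (H : ℝ → Eu (n + n) → ℝ)
    (φ : ℝ → Eu (n + n) → Eu (n + n)) (a s : Eu n) : ℝ :=
  ∫ t in (0 : ℝ)..1, agr u H a t (φ t (pt a s))

/-- `Q`, `p` is an orbit of the symplectic Euler scheme with `m` steps -/
structure Orb (u : ℝ → Eu (n + n) → Eu (n + n)) (m : ℕ) (Q p : ℕ → Eu n) : Prop where
  hQ : ∀ i < m, Q (i + 1) = Q i + (1 / m : ℝ) • qq (u (i / m) (pt (Q (i + 1)) (p i)))
  hp : ∀ i < m, p (i + 1) = p i + (1 / m : ℝ) • pp (u (i / m) (pt (Q (i + 1)) (p i)))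

/-- the action function `A` of the map `F` on the slice `q = a` -/
def FrA (F : Eu (n + n) → Eu (n + n)) (a : Eu n) (A : Eu n → ℝ) : Prop :=
  ∀ s, HasFDerivAt A ((innerSL ℝ (qq (F (pt a s)) - a)).comp
    (fderiv ℝ (fun r => pp (F (pt a r))) s)) s

/-- convolution of the periodic function `θ` with the kernel `K` at the scale `1/l` -/
def cvt {m : ℕ} (K : Eu m → Eu m) (l : ℝ) (θ : Eu m → ℝ) (z : Eu m) : Eu m :=
  ∫ w, θ (z + l⁻¹ • w) • K w

/-- convolution of the periodic field `u` with the kernel `K` at the scale `1/l` -/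
def cvg {m : ℕ} (K : Eu m → Eu m) (l : ℝ) (u : Eu m → Eu m) (x : Eu m) : ℝ :=
  ∫ w, inner ℝ (u (x - l⁻¹ • w)) (K w)

/-- `H` is a periodic Hamiltonian of the periodic field `v` -/
structure MH (v : Eu (n + n) → Eu (n + n)) (H : Eu (n + n) → ℝ) : Prop where
  vs : ContDiff ℝ ∞ v
  vp : Per v
  Hs : ContDiff ℝ ∞ H
  Hp : Per H
  Hd : ∀ x, HasFDerivAt H (innerSL ℝ (Jm (v x))) x

/-- the end of a path, corrected to have mean displacement zero -/
def nrm (f : Eu (n + n) → Eu (n + n)) (x : Eu (n + n)) : Eu (n + n) := f x - dsp f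

/-- the bound of the action function on the slice `a` -/
def Ebd (i : Fin 2) (φ : ℝ → Eu (n + n) → Eu (n + n)) (a : Eu n) : ℝ :=
  2 * ∫ t in (0 : ℝ)..1, osf i (vel φ t) (a + pr i (dsp (φ t)))

end

end TN
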