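import Mathlib
import Pool.Agent.TN.Defs

/-!
# Project TN (MP_b0bf68_gt), row TN-13: the argument with the theorem of Sard
-/

set_option autoImplicit false

open MeasureTheory Set Pool.Agent.H68.VD
open scoped ENNReal ContDiff

namespace TN

noncomputable section

variable {n : ℕ}

private theorem srd_closed {q η : Eu n → Eu n} {a : Eu n} {M : ℝ} (hq : Continuous q)
    (hη : Continuous η) (hM : ∀ s, ‖η s - s‖ ≤ M) :
    IsClosed {y : Eu n | ∃ s, η s = y ∧ q s = a} := by
  refine isClosed_of_closure_subset fun y hy => ?_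
  obtain ⟨u, hu, hlim⟩ := mem_closure_iff_seq_limit.1 hy
  choose s hs hqs using hu
  have hb : ∃ R : ℝ, ∀ j, s j ∈ Metric.closedBall (0 : Eu n) R := by
    obtain ⟨R, hR⟩ := (hlim.norm.bddAbove_range)
    refine ⟨R + M, fun j => ?_⟩
    have h1 : ‖u j‖ ≤ R := hR ⟨j, rfl⟩
    have h2 := hM (s j)
    rw [hs j] at h2
    rw [mem_closedBall_zero_iff]
    calc ‖s j‖ = ‖u j - (u j - s j)‖ := by rw [sub_sub_cancel]
      _ ≤ ‖u j‖ + ‖u j - s j‖ := norm_sub_le _ _
      _ ≤ R + M := add_le_add h1 h2
  obtain ⟨R, hR⟩ := hb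
  obtain ⟨z, -, φ, hφ, hz⟩ := (isCompact_closedBall (0 : Eu n) R).tendsto_subseq hR
  refine ⟨z, ?_, ?_⟩
  · have h1 : Filter.Tendsto (fun j => η (s (φ j))) Filter.atTop (nhds (η z)) :=
      (hη.tendsto z).comp hz
    have h2 : Filter.Tendsto (fun j => η (s (φ j))) Filter.atTop (nhds y) := by
      have : (fun j => η (s (φ j))) = u ∘ φ := by
        funext j; exact hs (φ j)
      rw [this]
      exact hlim.comp hφ.tendsto_atTop
    exact tendsto_nhds_unique h1 h2
  · have h1 : Filter.Tendsto (fun j => q (s (φ j))) Filter.atTop (nhds (q z)) :=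
      (hq.tendsto z).comp hz
    have h2 : Filter.Tendsto (fun j => q (s (φ j))) Filter.atTop (nhds a) := by
      have : (fun j => q (s (φ j))) = fun _ => a := by
        funext j; exact hqs (φ j)
      rw [this]
      exact tendsto_const_nhds
    exact tendsto_nhds_unique h1 h2

private theorem srd_null {η : Eu n → Eu n} (hη : ContDiff ℝ 1 η) :
    volume (η '' {s | (fderiv ℝ η s).det = 0}) = 0 := by
  refine addHaar_image_eq_zero_of_det_fderivWithin_eq_zero volume
    (f' := fun s => fderiv ℝ η s) (fun x _ => ?_) (fun x hx => hx)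
  exact ((hη.differentiable (by norm_num)).differentiableAt.hasFDerivAt).hasFDerivWithinAt

/-- on a line the regular points of a level set are isolated -/
private theorem srd_line {g g' : ℝ → ℝ} (c : ℝ) (hg : ∀ t, HasDerivAt g (g' t) t) :
    {t | g t = c ∧ g' t ≠ 0}.Countable := by
  refine (countable_setOfPred_isolated_right_within (s := {t | g t = c})).mono ?_
  intro t ht
  refine ⟨ht.1, ?_⟩
  have hev := (hg t).eventually_ne (c := c) ht.2
  rw [← Filter.empty_mem_iff_bot, mem_nhdsWithin_iff_eventually]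
  rw [eventually_nhdsWithin_iff] at hev
  filter_upwards [hev] with z hz hzS
  exact hz (ne_of_gt hzS.2) hzS.1

/-- the regular points of a level set of a function of class `C¹` form a null set -/
private theorem srd_level {A : Eu n → ℝ} {A' : Eu n → Eu n →L[ℝ] ℝ}
    (hA : ∀ s, HasFDerivAt A (A' s) s) (hA' : Continuous A') (c : ℝ) :
    volume {s | A s = c ∧ A' s ≠ 0} = 0 := by
  have hAc : Continuous A := continuous_iff_continuousAt.2 fun s => (hA s).continuousAt
  have hsub : {s | A s = c ∧ A' s ≠ 0} ⊆
      ⋃ i : Fin n, {s | A s = c ∧ A' s (EuclideanSpace.single i 1) ≠ 0} := by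
    intro s hs
    by_contra hcon
    refine hs.2 ?_
    have h0 : ∀ i : Fin n, A' s (EuclideanSpace.single i 1) = 0 := by
      intro i
      by_contra hi
      exact hcon (mem_iUnion.2 ⟨i, hs.1, hi⟩)
    have : (A' s : Eu n →ₗ[ℝ] ℝ) = 0 := by
      refine (EuclideanSpace.basisFun (Fin n) ℝ).toBasis.ext fun i => ?_
      simpa using h0 i
    ext x
    exact LinearMap.congr_fun this x
  refine measure_mono_null hsub (measure_iUnion_null fun i => ?_)
  have hmeas : MeasurableSet {s | A s = c ∧ A' s (EuclideanSpace.single i 1) ≠ 0} := by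
    refine ((isClosed_singleton (x := c)).preimage hAc).measurableSet.inter ?_
    have : Continuous fun s => A' s (EuclideanSpace.single i 1) :=
      hA'.clm_apply continuous_const
    exact ((isOpen_ne (x := (0 : ℝ))).preimage this).measurableSet
  have key := ae_mem_of_ae_add_linearMap_mem
    (LinearMap.toSpanSingleton ℝ (Eu n) (EuclideanSpace.single i 1)) volume volume
    (s := {s | A s = c ∧ A' s (EuclideanSpace.single i 1) ≠ 0}ᶜ) hmeas.compl (fun y => ?_)
  · rw [ae_iff] at key
    simpa using key
  · have hline : ∀ t : ℝ, HasDerivAt (fun t : ℝ => A (y + t • EuclideanSpace.single i 1))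
        (A' (y + t • EuclideanSpace.single i 1) (EuclideanSpace.single i 1)) t := by
      intro t
      have h1 : HasDerivAt (fun t : ℝ => y + t • (EuclideanSpace.single i 1 : Eu n))
          (EuclideanSpace.single i 1) t := by
        simpa using ((hasDerivAt_id t).smul_const (EuclideanSpace.single i 1 : Eu n)).const_add y
      exact (hA _).comp_hasDerivAt t h1
    have hcount := srd_line c hline
    rw [ae_iff]
    refine measure_mono_null ?_ (hcount.measure_zero volume)
    intro t ht
    simpa using ht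

theorem sardn {q η : Eu n → Eu n} {A : Eu n → ℝ} {a : Eu n} {c M : ℝ} (hq : Continuous q)
    (hη : ContDiff ℝ 1 η)
    (hA : ∀ s, HasFDerivAt A ((innerSL ℝ (q s - a)).comp (fderiv ℝ η s)) s)
    (hM : ∀ s, ‖η s - s‖ ≤ M) (hc : ∀ y, ∃ s, η s = y ∧ A s = c) :
    ∀ y, ∃ s, η s = y ∧ q s = a := by
  set Y : Set (Eu n) := {y : Eu n | ∃ s, η s = y ∧ q s = a} with hY
  have hcl : IsClosed Y := srd_closed hq hη.continuous hM
  have hcont : Continuous fun s => (innerSL ℝ (q s - a)).comp (fderiv ℝ η s) := by
    refine Continuous.clm_comp ?_ (hη.continuous_fderiv (by norm_num))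
    exact (innerSL ℝ).continuous.comp (hq.sub continuous_const)
  have hsub : Yᶜ ⊆ η '' {s | A s = c ∧ (innerSL ℝ (q s - a)).comp (fderiv ℝ η s) ≠ 0} ∪
      η '' {s | (fderiv ℝ η s).det = 0} := by
    intro y hy
    obtain ⟨s, hs, hAs⟩ := hc y
    by_cases hdet : (fderiv ℝ η s).det = 0
    · exact Or.inr ⟨s, hdet, hs⟩
    · refine Or.inl ⟨s, ⟨hAs, fun h0 => hy ⟨s, hs, ?_⟩⟩, hs⟩
      have hunit : IsUnit (LinearMap.det (fderiv ℝ η s : Eu n →ₗ[ℝ] Eu n)) :=
        isUnit_iff_ne_zero.2 hdet
      have hsurj : Function.Surjective (fderiv ℝ η s) := by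
        have := LinearEquiv.surjective (LinearMap.equivOfDetNeZero _ hdet)
        exact this
      obtain ⟨w, hw⟩ := hsurj (q s - a)
      have h1 := congrArg (fun L : Eu n →L[ℝ] ℝ => L w) h0
      simp only [ContinuousLinearMap.comp_apply, hw, innerSL_apply_apply,
        zero_apply, inner_self_eq_zero] at h1
      exact sub_eq_zero.1 h1
  have hnull : volume Yᶜ = 0 := by
    refine measure_mono_null hsub (measure_union_null ?_ (srd_null hη))
    exact addHaar_image_eq_zero_of_differentiableOn_of_addHaar_eq_zero volume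
      (hη.differentiable (by norm_num)).differentiableOn (srd_level hA hcont c)
  have hempty : Yᶜ = ∅ := (hcl.isOpen_compl.measure_eq_zero_iff volume).1 hnull
  intro y
  have : y ∈ Y := by
    rw [compl_empty_iff] at hempty
    rw [hempty]
    trivial
  exact this

end

end TN
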