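import Pool.Agent.TN.Lin
import Pool.Agent.TN.Srd
import Pool.Agent.H59.SP.Brou2

/-!
# Project TN (MP_b0bf68_gt), row TN-14: invariant slices, passage to the limit in the front
(helper8)
-/

set_option autoImplicit false
set_option linter.all false

open MeasureTheory Set Pool.Agent.H68.VD
open scoped ENNReal ContDiff

namespace TN

noncomputable section

variable {n : ℕ}

theorem surj {f : Eu n → Eu n} {M : ℝ} (hf : Continuous f) (hM : ∀ x, ‖f x - x‖ ≤ M) :
    Function.Surjective f := by
  intro y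
  have hM0 : 0 ≤ M := (norm_nonneg _).trans (hM y)
  obtain ⟨x, -, hx⟩ := SP.brouwer (isCompact_closedBall y M) (convex_closedBall y M)
    ⟨y, Metric.mem_closedBall_self hM0⟩ (f := fun x => x - f x + y)
    ((continuous_id.sub hf).add continuous_const).continuousOn (fun x _ => by
      rw [Metric.mem_closedBall, dist_eq_norm, add_sub_cancel_right, norm_sub_rev]
      exact hM x)
  refine ⟨x, ?_⟩
  have h1 : x - f x + y = x := hx
  have h2 : y - f x = 0 := by
    have h3 : x - f x + y - x = 0 := by rw [h1, sub_self]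
    rw [← h3]
    abel
  exact (sub_eq_zero.1 h2).symm

private theorem Inv_bdd {f : Eu n → Eu n} (hf : Continuous f)
    (hp : ∀ x (k : Fin n → ℤ), f (x + iv k) = f x + iv k) : ∃ M : ℝ, ∀ x, ‖f x - x‖ ≤ M := by
  obtain ⟨M, hM⟩ := (isCompact_closedBall (0 : Eu n) (√n)).exists_bound_of_continuousOn
    (hf.sub continuous_id).continuousOn
  refine ⟨M, fun x => ?_⟩
  set r : Eu n := WithLp.toLp 2 (fun i => Int.fract (x i)) with hr
  have hx : x = r + iv (fun i => ⌊x i⌋) := by
    ext i
    simp [hr, iv]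
  have hrn : r ∈ Metric.closedBall (0 : Eu n) (√n) := by
    rw [mem_closedBall_zero_iff, EuclideanSpace.norm_eq]
    apply Real.sqrt_le_sqrt
    calc ∑ i, ‖r i‖ ^ 2 ≤ ∑ _i : Fin n, (1 : ℝ) := by
          refine Finset.sum_le_sum fun i _ => ?_
          have h1 : r i = Int.fract (x i) := rfl
          rw [h1, Real.norm_eq_abs, abs_of_nonneg (Int.fract_nonneg _)]
          have h2 := Int.fract_nonneg (x i)
          have h3 := (Int.fract_lt_one (x i)).le
          nlinarith
      _ = n := by simp
  have h1 : f x - x = f r - r := by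
    conv_lhs => rw [hx, hp]
    abel
  rw [h1]
  exact hM r hrn

private theorem Inv_pt_add (a y : Eu n) (k : Fin n → ℤ) :
    pt a (y + iv k) = pt a y + iv (kk 0 k) := by
  rw [iv_kk]
  have h0 : (iv (0 : Fin n → ℤ) : Eu n) = 0 := by
    ext i
    simp [iv]
  rw [h0, ← pt_add, add_zero]

private theorem Inv_pp_kk (k : Fin n → ℤ) : pp (iv (kk 0 k) : Eu (n + n)) = iv k := by
  rw [iv_kk, pp_pt]

theorem inv_slice {F : Eu (n + n) → Eu (n + n)} (hF : Continuous F) (hb : Function.Bijective F)
    (hi : Continuous (Function.invFun F))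
    (he : ∀ x (k : Fin (n + n) → ℤ), F (x + iv k) = F x + iv k) {a : Eu n}
    (h : ∀ y, ∃ s, pp (F (pt a s)) = y ∧ qq (F (pt a s)) = a) : ∀ s, qq (F (pt a s)) = a := by
  have hGF : ∀ x, Function.invFun F (F x) = x := Function.leftInverse_invFun hb.injective
  have hFG : ∀ x, F (Function.invFun F x) = x := Function.rightInverse_invFun hb.surjective
  have hGe : ∀ x (k : Fin (n + n) → ℤ), Function.invFun F (x + iv k) = Function.invFun F x + iv k := by
    intro x k
    apply hb.injective
    rw [hFG, he, hFG]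
  have h1 : ∀ y, Function.invFun F (pt a y) = pt a (pp (Function.invFun F (pt a y))) := by
    intro y
    obtain ⟨s, hs1, hs0⟩ := h y
    have h2 : F (pt a s) = pt a y := ext_qp (by simpa using hs0) (by simpa using hs1)
    rw [← h2, hGF, pp_pt]
  have hcont : Continuous (fun y : Eu n => pp (Function.invFun F (pt a y))) :=
    continuous_pp.comp (hi.comp (continuous_pt.comp (continuous_const.prodMk continuous_id)))
  have hper : ∀ (y : Eu n) (k : Fin n → ℤ),
      pp (Function.invFun F (pt a (y + iv k))) = pp (Function.invFun F (pt a y)) + iv k := by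
    intro y k
    rw [Inv_pt_add, hGe, pp_add, Inv_pp_kk]
  obtain ⟨M, hM⟩ := Inv_bdd hcont hper
  intro s
  obtain ⟨y, hy⟩ := surj hcont hM s
  have h3 : pt a s = Function.invFun F (pt a y) := by
    rw [h1 y]
    exact congrArg (pt a) hy.symm
  rw [h3, hFG]
  simp

theorem front_lim {F : Eu (n + n) → Eu (n + n)} (hF : ContDiff ℝ ∞ F) (hb : Function.Bijective F)
    (hi : Continuous (Function.invFun F))
    (he : ∀ x (k : Fin (n + n) → ℤ), F (x + iv k) = F x + iv k)
    {a : Eu n} (E : ℕ → ℝ) (hE : Filter.Tendsto E Filter.atTop (nhds 0)) (A : ℕ → Eu n → ℝ)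
    (hA : ∀ j, FrA F a (A j)) (h : ∀ j y, ∃ s, pp (F (pt a s)) = y ∧ |A j s| ≤ E j) :
    ∀ s, qq (F (pt a s)) = a := by
  have hFp : ContDiff ℝ ∞ (fun s : Eu n => F (pt a s)) :=
    hF.comp (contDiff_pt.comp (contDiff_const.prodMk contDiff_id))
  have hη : ContDiff ℝ ∞ (fun s : Eu n => pp (F (pt a s))) := contDiff_pp.comp hFp
  have hq : Continuous (fun s : Eu n => qq (F (pt a s))) := continuous_qq.comp hFp.continuous
  have hηc : Continuous (fun s : Eu n => pp (F (pt a s))) := hη.continuous
  -- the bound of the displacement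
  obtain ⟨M, hM⟩ : ∃ M : ℝ, ∀ s : Eu n, ‖pp (F (pt a s)) - s‖ ≤ M := by
    refine Inv_bdd hηc fun x k => ?_
    rw [Inv_pt_add, he, pp_add, Inv_pp_kk]
  -- the functions `A j` differ by constants
  have hconst : ∀ j s, A j s = A 0 s + (A j 0 - A 0 0) := by
    intro j s
    have hd : ∀ s, HasFDerivAt (fun r => A j r - A 0 r) (0 : Eu n →L[ℝ] ℝ) s := by
      intro s
      have h1 := (hA j s).sub (hA 0 s)
      rw [sub_self] at h1
      exact h1
    have h1 := is_const_of_fderiv_eq_zero (𝕜 := ℝ) (f := fun r => A j r - A 0 r)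
      (fun s => (hd s).differentiableAt) (fun s => (hd s).fderiv) s 0
    have h2 : A j s - A 0 s = A j 0 - A 0 0 := h1
    linarith
  set c : ℕ → ℝ := fun j => A j 0 - A 0 0 with hc
  have hA0 : Continuous (A 0) := continuous_iff_continuousAt.2 fun s => (hA 0 s).continuousAt
  -- preimages lie in compact balls
  have hmem : ∀ s y : Eu n, pp (F (pt a s)) = y → s ∈ Metric.closedBall y M := by
    intro s y hs
    have h1 := hM s
    rw [hs] at h1
    rw [Metric.mem_closedBall, dist_eq_norm, norm_sub_rev]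
    exact h1
  obtain ⟨B, hB⟩ := hE.bddAbove_range
  -- the constants are bounded
  obtain ⟨c', φ, hφ, hlim⟩ : ∃ (c' : ℝ) (φ : ℕ → ℕ), StrictMono φ ∧
      Filter.Tendsto (fun i => c (φ i)) Filter.atTop (nhds c') := by
    obtain ⟨K, hK⟩ := (isCompact_closedBall (0 : Eu n) M).exists_bound_of_continuousOn
      hA0.continuousOn
    have hcb : ∀ j, c j ∈ Icc (-(K + B)) (K + B) := by
      intro j
      obtain ⟨s, hs1, hs2⟩ := h j 0
      have h1 := hK s (hmem s 0 hs1)
      rw [Real.norm_eq_abs] at h1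
      rw [hconst j s] at hs2
      have h3 : E j ≤ B := hB ⟨j, rfl⟩
      have h1' := abs_le.1 h1
      have h2' := abs_le.1 hs2
      have h4 : c j = A j 0 - A 0 0 := rfl
      rw [h4]
      constructor <;> linarith [h1'.1, h1'.2, h2'.1, h2'.2]
    obtain ⟨c', -, φ, hφ, hlim⟩ := isCompact_Icc.tendsto_subseq hcb
    exact ⟨c', φ, hφ, hlim⟩
  have hfin : ∀ y, ∃ s, pp (F (pt a s)) = y ∧ A 0 s = -c' := by
    intro y
    choose s hs1 hs2 using fun j => h j y
    obtain ⟨s', -, ψ, hψ, hlim2⟩ := (isCompact_closedBall y M).tendsto_subseq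
      (x := fun i => s (φ i)) (fun i => hmem _ y (hs1 _))
    refine ⟨s', ?_, ?_⟩
    · have h1 : Filter.Tendsto (fun i => pp (F (pt a (s (φ (ψ i)))))) Filter.atTop
          (nhds (pp (F (pt a s')))) := (hηc.tendsto s').comp hlim2
      have h2 : (fun i => pp (F (pt a (s (φ (ψ i)))))) = fun _ => y := by
        funext i
        exact hs1 _
      rw [h2] at h1
      exact (tendsto_nhds_unique h1 tendsto_const_nhds)
    · have h1 : Filter.Tendsto (fun i => A 0 (s (φ (ψ i))) + c (φ (ψ i))) Filter.atTop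
          (nhds (A 0 s' + c')) :=
        ((hA0.tendsto s').comp hlim2).add (hlim.comp hψ.tendsto_atTop)
      have h2 : Filter.Tendsto (fun i => A 0 (s (φ (ψ i))) + c (φ (ψ i))) Filter.atTop
          (nhds 0) := by
        refine squeeze_zero_norm (a := fun i => E (φ (ψ i))) (fun i => ?_)
          (hE.comp ((hφ.comp hψ).tendsto_atTop))
        have h3 := hs2 (φ (ψ i))
        rw [hconst] at h3
        exact h3
      have h3 := tendsto_nhds_unique h1 h2
      linarith
  exact inv_slice hF.continuous hb hi he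
    (sardn hq (hη.of_le (by exact_mod_cast le_top)) (hA 0) hM hfin)

end

end TN
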