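import Pool.Agent.TN.Lin
import Pool.Agent.H68.VD.Tr
import Pool.Agent.H68.VD.Fam
import Pool.Agent.H68.VD.Exact
import Pool.Agent.TN.Bas
import Pool.Agent.TN.Osf
import Pool.Agent.TN.Frt
import Pool.Agent.TN.Avg
import Pool.Agent.TN.Inv

/-!
# Project TN, row TN-15: the distance is not degenerate
-/

set_option autoImplicit false

open MeasureTheory Set Pool.Agent.H68.VD Filter
open scoped ENNReal ContDiff

namespace TN

noncomputable section

variable {n : ℕ}

/-! ### Basic facts -/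

theorem non_iv_zero {m : ℕ} : (iv (0 : Fin m → ℤ) : Eu m) = 0 := by
  ext i; simp [iv]

theorem non_pt_add (a s : Eu n) (k : Fin n → ℤ) : pt (a + iv k) s = pt a s + iv (kk k 0) := by
  rw [iv_kk, non_iv_zero, ← pt_add, add_zero]

theorem non_qq_kk (k : Fin n → ℤ) : qq (iv (kk k 0) : Eu (n + n)) = iv k := by
  rw [iv_kk, qq_pt]

/-- the open cube is dense in the cube -/
theorem non_cube_sub : cube n ⊆ closure {x : Eu n | ∀ i, x i ∈ Ioo (0 : ℝ) 1} := by
  intro x hx
  set c : Eu n := WithLp.toLp 2 (fun _ => (1 / 2 : ℝ)) with hc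
  have hc' : ∀ i, c i = 1 / 2 := fun i => rfl
  have h1 : Tendsto (fun j : ℕ => x + (1 / ((j : ℝ) + 1)) • (c - x)) atTop (nhds x) := by
    have h2 : Tendsto (fun j : ℕ => x + (1 / ((j : ℝ) + 1)) • (c - x)) atTop
        (nhds (x + (0 : ℝ) • (c - x))) :=
      tendsto_const_nhds.add (tendsto_one_div_add_atTop_nhds_zero_nat.smul_const _)
    rwa [zero_smul, add_zero] at h2
  refine mem_closure_of_tendsto h1 (Eventually.of_forall fun j => ?_)
  intro i
  have hj : (0 : ℝ) < 1 / ((j : ℝ) + 1) := by positivity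
  have hj1 : 1 / ((j : ℝ) + 1) ≤ 1 := by
    rw [div_le_one (by positivity)]
    have : (0 : ℝ) ≤ j := Nat.cast_nonneg j
    linarith
  have hxi := hx i
  have h3 : (x + (1 / ((j : ℝ) + 1)) • (c - x)) i = x i + (1 / ((j : ℝ) + 1)) * (1 / 2 - x i) := by
    simp [hc']
  rw [h3]
  set r := 1 / ((j : ℝ) + 1) with hr
  have h4 := hxi.1
  have h5 := hxi.2
  constructor
  · nlinarith
  · nlinarith

theorem non_isOpen_cube : IsOpen {x : Eu n | ∀ i, x i ∈ Ioo (0 : ℝ) 1} := by
  rw [setOf_forall]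
  refine isOpen_iInter_of_finite fun i => ?_
  exact isOpen_Ioo.preimage ((EuclideanSpace.proj i : Eu n →L[ℝ] ℝ).continuous)

theorem non_continuous_pr (i : Fin 2) : Continuous (pr (n := n) i) := by
  unfold pr
  by_cases h : i = 0
  · simp only [h, if_true]; exact continuous_qq
  · simp only [h, if_false]; exact continuous_pp

/-- the end of a path from the identity, corrected to have mean displacement zero, is a
homeomorphism -/
theorem non_nrm {φ : ℝ → Eu (n + n) → Eu (n + n)} (h : SPath φ) :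
    ContDiff ℝ ∞ (nrm (φ 1)) ∧ Function.Bijective (nrm (φ 1)) ∧
      Continuous (Function.invFun (nrm (φ 1))) ∧
      ∀ x (k : Fin (n + n) → ℤ), nrm (φ 1) (x + iv k) = nrm (φ 1) x + iv k := by
  have h1 : ContDiff ℝ ∞ (φ 1) := by
    have := h.path.smooth.comp
      (contDiff_const.prodMk contDiff_id : ContDiff ℝ ∞ fun x : Eu (n + n) => ((1 : ℝ), x))
    exact this
  have hb := h.path.bij 1
  have hinv : Continuous (Function.invFun (φ 1)) := by
    have h2 : IsPath (TrA.sub (lat_deck (n + n))) φ := (TrA.path_iff (lat_deck (n + n)) φ).1 h.path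
    have h3 := famKit.inv (n + n) (TrA.sub (lat_deck (n + n))) ℝ φ h2
    have h4 := h3.smooth.comp
      (contDiff_const.prodMk contDiff_id : ContDiff ℝ ∞ fun x : Eu (n + n) => ((1 : ℝ), x))
    exact h4.continuous
  have hb' : Function.Bijective (nrm (φ 1)) := by
    constructor
    · intro x y hxy
      apply hb.1
      have : φ 1 x - dsp (φ 1) = φ 1 y - dsp (φ 1) := hxy
      exact sub_left_injective this
    · intro y
      obtain ⟨x, hx⟩ := hb.2 (y + dsp (φ 1))
      exact ⟨x, by show φ 1 x - dsp (φ 1) = y; rw [hx]; abel⟩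
  refine ⟨h1.sub contDiff_const, hb', ?_, ?_⟩
  · have : Function.invFun (nrm (φ 1)) = fun y => Function.invFun (φ 1) (y + dsp (φ 1)) := by
      funext y
      apply hb'.1
      rw [Function.rightInverse_invFun hb'.2 y]
      show y = φ 1 (Function.invFun (φ 1) (y + dsp (φ 1))) - dsp (φ 1)
      rw [Function.rightInverse_invFun hb.2]
      abel
    rw [this]
    exact hinv.comp (continuous_id.add continuous_const)
  · intro x k
    have := h.path.equi 1 (fun x => x + iv k) ⟨k, rfl⟩ x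
    show φ 1 (x + iv k) - dsp (φ 1) = φ 1 x - dsp (φ 1) + iv k
    rw [this]
    abel

theorem non_dsp_cont {φ : ℝ → Eu (n + n) → Eu (n + n)} (h : SPath φ) :
    Continuous (fun t => dsp (φ t)) :=
  continuous_iff_continuousAt.2 fun t => (dsp_deriv h t).continuousAt

theorem non_Ebd_cont (i : Fin 2) {φ : ℝ → Eu (n + n) → Eu (n + n)} (h : SPath φ) :
    Continuous (fun a => Ebd i φ a) := by
  unfold Ebd
  have h1 := osf_cont i h
  have h4 : Continuous (fun t => pr i (dsp (φ t))) := (non_continuous_pr i).comp (non_dsp_cont h)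
  have h2 : Continuous (fun z : Eu n × ℝ => (z.2, z.1 + pr i (dsp (φ z.2)))) :=
    continuous_snd.prodMk (continuous_fst.add (h4.comp continuous_snd))
  have h3 : Continuous (Function.uncurry
      (fun (a : Eu n) (t : ℝ) => osf i (vel φ t) (a + pr i (dsp (φ t))))) := by
    have h5 := h1.comp h2
    simp only [Function.comp_def] at h5
    simp only [Function.uncurry_def]
    exact h5
  exact continuous_const.mul
    (intervalIntegral.continuous_parametric_intervalIntegral_of_continuous' h3 0 1)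

theorem non_Ebd_nonneg (i : Fin 2) (φ : ℝ → Eu (n + n) → Eu (n + n)) (a : Eu n) :
    0 ≤ Ebd i φ a := by
  unfold Ebd
  refine mul_nonneg zero_le_two ?_
  apply intervalIntegral.integral_nonneg zero_le_one
  intro t _
  exact osf_nonneg _ _ _

/-- the bounds tend to zero on almost all slices -/
theorem non_tendsto {N : (Eu (n + n) → Eu (n + n)) → ℝ≥0∞} (hN : Slc N)
    {χ : ℕ → ℝ → Eu (n + n) → Eu (n + n)}
    (hχ : ∀ j, SPath (χ j)) (hlen : ∀ j, len N (χ j) ≤ (4 : ℝ≥0∞)⁻¹ ^ j) (i : Fin 2) :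
    ∀ᵐ a ∂(volume.restrict (cube n)), Tendsto (fun j => Ebd i (χ j) a) atTop (nhds 0) := by
  obtain ⟨C, hC, hav⟩ := avg hN
  have hm : ∀ j, Measurable (fun a => ENNReal.ofReal (Ebd i (χ j) a)) := fun j =>
    ENNReal.measurable_ofReal.comp (non_Ebd_cont i (hχ j)).measurable
  have hfin : ∫⁻ a in cube n, ∑' j, ENNReal.ofReal (Ebd i (χ j) a) ≠ ⊤ := by
    rw [lintegral_tsum fun j => (hm j).aemeasurable]
    have h1 : ∑' j, ∫⁻ a in cube n, ENNReal.ofReal (Ebd i (χ j) a) ≤
        ∑' j : ℕ, ENNReal.ofReal C * (4 : ℝ≥0∞)⁻¹ ^ j := by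
      refine ENNReal.tsum_le_tsum fun j => (hav i (χ j) (hχ j)).trans ?_
      exact mul_le_mul' le_rfl (hlen j)
    refine ne_top_of_le_ne_top ?_ h1
    rw [ENNReal.tsum_mul_left]
    refine ENNReal.mul_ne_top ENNReal.ofReal_ne_top ?_
    rw [ENNReal.tsum_geometric]
    apply ENNReal.inv_ne_top.2
    rw [Ne, tsub_eq_zero_iff_le, not_le]
    exact ENNReal.inv_lt_one.2 (by norm_num)
  have h2 := ae_lt_top (Measurable.tsum hm) hfin
  filter_upwards [h2] with a ha
  have h3 := ENNReal.tendsto_atTop_zero_of_tsum_ne_top ha.ne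
  have h4 := (ENNReal.tendsto_toReal ENNReal.zero_ne_top).comp h3
  simp only [ENNReal.toReal_zero] at h4
  refine h4.congr fun j => ?_
  exact ENNReal.toReal_ofReal (non_Ebd_nonneg i (χ j) a)

/-- the limit map preserves a slice of the first kind -/
theorem non_line {χ : ℕ → ℝ → Eu (n + n) → Eu (n + n)} (hχ : ∀ j, SPath (χ j))
    (h0 : ∀ j, χ j 0 = id) {F : Eu (n + n) → Eu (n + n)} (hF : ∀ j, nrm (χ j 1) = F) {a : Eu n}
    (hE : Tendsto (fun j => Ebd 0 (χ j) a) atTop (nhds 0)) : ∀ s, qq (F (pt a s)) = a := by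
  choose A hA1 hA2 using fun j => front0 (hχ j) (h0 j) a
  obtain ⟨c1, c2, c3, c4⟩ := non_nrm (hχ 0)
  rw [hF 0] at c1 c2 c3 c4
  refine front_lim c1 c2 c3 c4 (fun j => Ebd 0 (χ j) a) hE A (fun j => ?_) (fun j y => ?_)
  · have := hA1 j
    rwa [hF j] at this
  · have := hA2 j y
    rwa [hF j] at this

/-- the positions -/
theorem non_coord {χ : ℕ → ℝ → Eu (n + n) → Eu (n + n)}
    (hχ : ∀ j, SPath (χ j)) (h0 : ∀ j, χ j 0 = id) {F : Eu (n + n) → Eu (n + n)}
    (hF : ∀ j, nrm (χ j 1) = F)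
    (hE : ∀ᵐ a ∂(volume.restrict (cube n)), Tendsto (fun j => Ebd 0 (χ j) a) atTop (nhds 0)) :
    ∀ x, qq (F x) = qq x := by
  obtain ⟨c1, -, -, c4⟩ := non_nrm (hχ 0)
  rw [hF 0] at c1 c4
  have hcube : ∀ s, EqOn (fun a : Eu n => qq (F (pt a s))) (fun a => a) (cube n) := by
    intro s
    have h2 : Continuous fun a : Eu n => qq (F (pt a s)) :=
      continuous_qq.comp (c1.continuous.comp
        (continuous_pt.comp (continuous_id.prodMk continuous_const)))
    have h3 : EqOn (fun a : Eu n => qq (F (pt a s))) (fun a => a)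
        {x : Eu n | ∀ i, x i ∈ Ioo (0 : ℝ) 1} := by
      apply Measure.eqOn_open_of_ae_eq (μ := volume) _ non_isOpen_cube h2.continuousOn
        continuousOn_id
      have hsub : {x : Eu n | ∀ i, x i ∈ Ioo (0 : ℝ) 1} ⊆ cube n :=
        fun x hx i => Ioo_subset_Ico_self (hx i)
      filter_upwards [ae_restrict_of_ae_restrict_of_subset hsub hE] with a ha
      exact non_line hχ h0 hF ha s
    exact (h3.closure h2 continuous_id).mono non_cube_sub
  intro x
  set a : Eu n := WithLp.toLp 2 (fun i => Int.fract (qq x i)) with ha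
  set k : Fin n → ℤ := fun i => ⌊qq x i⌋ with hk
  have hq : qq x = a + iv k := by
    ext i
    simp only [ha, hk, iv, PiLp.add_apply]
    exact (Int.fract_add_floor _).symm
  have h1 : x = pt a (pp x) + iv (kk k 0) := by
    rw [← non_pt_add, ← hq, pt_qq_pp]
  have h2 := hcube (pp x) (fun i => ⟨Int.fract_nonneg _, Int.fract_lt_one _⟩ : a ∈ cube n)
  simp only at h2
  have h4 : qq (F x) = qq (F (pt a (pp x)) + iv (kk k 0)) := by
    rw [← c4, ← h1]
  rw [h4, qq_add, h2, non_qq_kk, ← hq]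

theorem non_dsp_add (h : Eu (n + n) → Eu (n + n)) (hh : Continuous h) (k : Fin (n + n) → ℤ) :
    dsp (fun x => h x + iv k) = dsp h + iv k := by
  unfold dsp
  have h1 : ∀ x : Eu (n + n), h x + iv k - x = (h x - x) + iv k := fun x => by abel
  simp only [h1]
  rw [integral_add (ExactA.integrableOn_cube (u := fun x : Eu (n + n) => h x - x)
    (hh.sub continuous_id)) (ExactA.integrableOn_cube continuous_const),
    ExactA.integral_const_cube]

theorem non_dsp_id : dsp (id : Eu (n + n) → Eu (n + n)) = 0 := by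
  unfold dsp
  simp

/-- the mean displacement of the end of a short path is small -/
theorem non_dsp_le {N : (Eu (n + n) → Eu (n + n)) → ℝ≥0∞} {C : ℝ}
    (hC : ∀ u : Eu (n + n) → Eu (n + n),
    Continuous u → Per u → ENNReal.ofReal ‖mn u‖ ≤ ENNReal.ofReal C * N u)
    {φ : ℝ → Eu (n + n) → Eu (n + n)} (h : SPath φ) (h0 : φ 0 = id) :
    ENNReal.ofReal ‖dsp (φ 1)‖ ≤ ENNReal.ofReal C * len N φ := by
  have hpath : IsPath (TrA.sub (lat_deck (n + n))) φ :=
    (TrA.path_iff (lat_deck (n + n)) φ).1 h.path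
  have hc : Continuous fun t => mn (vel φ t) := ExactA.cont_mean famKit hpath
  have h1 : ∫ t in (0 : ℝ)..1, mn (vel φ t) = dsp (φ 1) := by
    rw [intervalIntegral.integral_eq_sub_of_hasDerivAt (f := fun t => dsp (φ t))
      (fun t _ => dsp_deriv h t) (hc.intervalIntegrable 0 1)]
    rw [h0, non_dsp_id, sub_zero]
  rw [← h1]
  have h2 : ‖∫ t in (0 : ℝ)..1, mn (vel φ t)‖ ≤ ∫ t in Icc (0 : ℝ) 1, ‖mn (vel φ t)‖ := by
    rw [intervalIntegral.integral_of_le zero_le_one, ← integral_Icc_eq_integral_Ioc]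
    exact norm_integral_le_integral_norm _
  refine (ENNReal.ofReal_le_ofReal h2).trans ?_
  rw [ofReal_integral_eq_lintegral_ofReal
    (hc.norm.continuousOn.integrableOn_compact isCompact_Icc)
    (Eventually.of_forall fun t => norm_nonneg _)]
  unfold len
  rw [← lintegral_const_mul' _ _ ENNReal.ofReal_ne_top]
  refine lintegral_mono fun t => ?_
  have hs : Continuous (vel φ t) := by
    have := (vel_smooth h).continuous.comp
      (continuous_const.prodMk continuous_id : Continuous fun x : Eu (n + n) => (t, x))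
    exact this
  exact hC _ hs (vel_per h t)

/-- **The geodesic distance is not degenerate.** -/
theorem nondeg {N : (Eu (n + n) → Eu (n + n)) → ℝ≥0∞} (hN : Slc N) (hM : Mnc N)
    {f g : Eu (n + n) → Eu (n + n)} (hf : SG f) (hg : SG g) (h : sdist N f g = 0) :
    ∃ γ ∈ lat (n + n), g = γ ∘ f := by
  obtain ⟨k, -, hkf, hfk, hh, hcomp⟩ := right_div hf hg
  have hex : ∀ j : ℕ, ∃ (φ : ℝ → Eu (n + n) → Eu (n + n)) (m : Fin (n + n) → ℤ), SPath φ ∧
      φ 0 = f ∧ (∀ x, φ 1 x = g x + iv m) ∧ len N φ ≤ (4 : ℝ≥0∞)⁻¹ ^ j := by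
    intro j
    have hj : sdist N f g < (4 : ℝ≥0∞)⁻¹ ^ j := by
      rw [h]
      exact ENNReal.pow_pos (ENNReal.inv_pos.2 (by norm_num)) j
    unfold sdist at hj
    rw [iInf_lt_iff] at hj
    obtain ⟨φ, hφ⟩ := hj
    rw [iInf_lt_iff] at hφ
    obtain ⟨⟨h1, h2, γ, ⟨m, rfl⟩, h3⟩, h4⟩ := hφ
    refine ⟨φ, m, h1, h2, fun x => ?_, h4.le⟩
    rw [h3]
    rfl
  choose φ m hφ1 hφ2 hφ3 hφ4 using hex
  set χ : ℕ → ℝ → Eu (n + n) → Eu (n + n) := fun j t x => φ j t (k x) with hχ
  have hχ1 : ∀ j, SPath (χ j) := fun j => (hcomp (φ j) (hφ1 j) (hφ2 j)).1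
  have hχ2 : ∀ j, χ j 0 = id := by
    intro j
    funext x
    simp only [hχ, hφ2 j, hfk, id]
  have hχ3 : ∀ j, len N (χ j) ≤ (4 : ℝ≥0∞)⁻¹ ^ j := by
    intro j
    have : len N (χ j) = len N (φ j) := by
      unfold len
      congr 1
      funext t
      rw [(hcomp (φ j) (hφ1 j) (hφ2 j)).2 t]
    rw [this]
    exact hφ4 j
  set g' : Eu (n + n) → Eu (n + n) := fun x => g (k x) with hg'
  have hg'c : Continuous g' := by
    obtain ⟨ψ, h1, -, h3⟩ := hh
    have h4 := h1.path.smooth.continuous.comp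
      (continuous_const.prodMk continuous_id : Continuous fun x : Eu (n + n) => ((1 : ℝ), x))
    rw [← h3]
    exact h4
  have hχ4 : ∀ j, χ j 1 = fun x => g' x + iv (m j) := by
    intro j
    funext x
    exact hφ3 j (k x)
  have hdsp : ∀ j, dsp (χ j 1) = dsp g' + iv (m j) := by
    intro j
    rw [hχ4 j, non_dsp_add g' hg'c]
  have hF : ∀ j, nrm (χ j 1) = nrm g' := by
    intro j
    funext x
    unfold nrm
    rw [hdsp, hχ4 j]
    simp only
    abel
  -- positions
  have hc0 : ∀ x, qq (nrm g' x) = qq x :=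
    non_coord hχ1 hχ2 hF (non_tendsto hN hχ1 hχ3 0)
  -- momenta
  have hc1 : ∀ x, pp (nrm g' x) = pp x := by
    have h1 := non_coord (χ := fun j t x => sw (χ j t (sw x))) (F := fun x => sw (nrm g' (sw x)))
      (fun j => (swap (hχ1 j)).1) (fun j => by
        funext x
        simp only [hχ2 j, id, sw_sw])
      (fun j => by
        funext x
        rw [(swap (hχ1 j)).2.2 1 x, hF j])
      (by
        filter_upwards [non_tendsto hN hχ1 hχ3 1] with a ha
        refine ha.congr fun j => ?_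
        exact ((swap (hχ1 j)).2.1 a).symm)
    intro x
    have h2 := h1 (sw x)
    rw [sw_sw, qq_sw, qq_sw] at h2
    exact h2
  have hid : ∀ x, g' x = x + dsp g' := by
    intro x
    have h1 : nrm g' x = x := ext_qp (hc0 x) (hc1 x)
    have h2 : g' x - dsp g' = x := h1
    exact sub_eq_iff_eq_add.1 h2
  -- the mean displacement is an integer vector
  obtain ⟨C, hC0, hC⟩ := hM
  have hlim : Tendsto (fun j => ‖dsp g' + iv (m j)‖) atTop (nhds 0) := by
    have h1 : Tendsto (fun j : ℕ => ENNReal.ofReal C * (4 : ℝ≥0∞)⁻¹ ^ j) atTop (nhds 0) := by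
      have h2 : Tendsto (fun j : ℕ => (4 : ℝ≥0∞)⁻¹ ^ j) atTop (nhds 0) :=
        ENNReal.tendsto_pow_atTop_nhds_zero_of_lt_one (ENNReal.inv_lt_one.2 (by norm_num))
      have h3 := ENNReal.Tendsto.const_mul (a := ENNReal.ofReal C) h2
        (Or.inr ENNReal.ofReal_ne_top)
      rwa [mul_zero] at h3
    have h2 : Tendsto (fun j => ENNReal.ofReal ‖dsp g' + iv (m j)‖) atTop (nhds 0) := by
      refine tendsto_of_tendsto_of_tendsto_of_le_of_le tendsto_const_nhds h1
        (fun j => bot_le) (fun j => ?_)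
      have h3 := non_dsp_le hC (hχ1 j) (hχ2 j)
      rw [hdsp j] at h3
      exact h3.trans (mul_le_mul' le_rfl (hχ3 j))
    have h4 := (ENNReal.tendsto_toReal ENNReal.zero_ne_top).comp h2
    simp only [ENNReal.toReal_zero] at h4
    refine h4.congr fun j => ?_
    exact ENNReal.toReal_ofReal (norm_nonneg _)
  have hint : ∀ i : Fin (n + n), ∃ z : ℤ, (z : ℝ) = dsp g' i := by
    intro i
    have h1 : Tendsto (fun j => (dsp g' + iv (m j)) i) atTop (nhds 0) := by
      rw [tendsto_zero_iff_norm_tendsto_zero]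
      refine tendsto_of_tendsto_of_tendsto_of_le_of_le tendsto_const_nhds hlim
        (fun j => norm_nonneg _) (fun j => ?_)
      exact PiLp.norm_apply_le _ i
    have h2 : Tendsto (fun j => ((-(m j i) : ℤ) : ℝ)) atTop (nhds (dsp g' i)) := by
      have h3 : Tendsto (fun j => dsp g' i - (dsp g' + iv (m j)) i) atTop (nhds (dsp g' i - 0)) :=
        tendsto_const_nhds.sub h1
      rw [sub_zero] at h3
      refine h3.congr fun j => ?_
      rw [PiLp.add_apply]
      simp [iv]
    have h4 := Int.isClosedEmbedding_coe_real.isClosed_range.mem_of_tendsto h2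
      (Eventually.of_forall fun j => ⟨-(m j i), rfl⟩)
    obtain ⟨z, hz⟩ := h4
    exact ⟨z, hz⟩
  choose z hz using hint
  have hz' : dsp g' = iv z := by
    ext i
    rw [← hz i]
    rfl
  refine ⟨fun x => x + iv z, ⟨z, rfl⟩, ?_⟩
  funext x
  have h1 := hid (f x)
  simp only [hg', hkf] at h1
  show g x = f x + iv z
  rw [h1, ← hz']

/-- **Points with the same image have distance zero.** -/
theorem dist_zero {N : (Eu (n + n) → Eu (n + n)) → ℝ≥0∞} (hN : N (fun _ => 0) = 0)
    {f g : Eu (n + n) → Eu (n + n)} (hf : SG f) {γ : Eu (n + n) → Eu (n + n)}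
    (hγ : γ ∈ lat (n + n)) (h : g = γ ∘ f) : sdist N f g = 0 := by
  obtain ⟨ψ, h1, -, h3⟩ := hf
  obtain ⟨m, rfl⟩ := hγ
  have hfs : ContDiff ℝ ∞ f := by
    have h4 := h1.path.smooth.comp
      (contDiff_const.prodMk contDiff_id : ContDiff ℝ ∞ fun x : Eu (n + n) => ((1 : ℝ), x))
    rw [← h3]
    exact h4
  have hp : FPath (lat (n + n)) (fun _ => f) := by
    refine ⟨hfs.comp contDiff_snd, fun _ => ?_, fun _ x => ?_, fun _ g hg x => ?_⟩
    · rw [← h3]; exact h1.path.bij 1
    · rw [← h3]; exact h1.path.det 1 x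
    · rw [← h3]; exact h1.path.equi 1 g hg x
  have hs : SPath (fun _ => f) := ⟨hp, fun _ x v w => by
    have := h1.symp 1 x v w
    rw [h3] at this
    exact this⟩
  have hlen : len N (fun _ => f) = 0 := by
    unfold len
    have : ∀ t, vel (fun _ => f) t = fun _ => 0 := by
      intro t
      funext x
      simp [vel]
    simp [this, hN]
  apply le_antisymm _ bot_le
  unfold sdist
  refine iInf_le_of_le (fun _ => f) (iInf_le_of_le ⟨hs, rfl, fun x => x + iv (-m), ⟨-m, rfl⟩, ?_⟩ ?_)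
  · funext x
    rw [h]
    simp only [Function.comp]
    rw [TrA.iv_neg]
    abel
  · exact hlen.le

end

end TN
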