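import Pool.Agent.TN.Lin
import Pool.Agent.H68.VD.Tr
import Pool.Agent.H68.VD.Exact
import Pool.Agent.H68.VD.Flux
import Pool.Agent.H68.VD.Fam

/-!
# Project TN, row TN-16: the diameter is positive
-/

set_option autoImplicit false
set_option linter.all false

open MeasureTheory Set Pool.Agent.H68.VD
open scoped ENNReal ContDiff

namespace TN

noncomputable section

variable {n : ℕ}

private theorem Pos_iv_add {m : ℕ} (k l : Fin m → ℤ) : (iv (k + l) : Eu m) = iv k + iv l := by
  ext i
  simp [iv]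

private theorem Pos_iv_zero {m : ℕ} : (iv 0 : Eu m) = 0 := by
  ext i
  simp [iv]

private theorem Pos_deck (m : ℕ) : FlatDeck (lat m) where
  one := ⟨0, by funext x; rw [Pos_iv_zero, add_zero]; rfl⟩
  mul := by
    rintro g ⟨k, rfl⟩ h ⟨l, rfl⟩
    refine ⟨l + k, ?_⟩
    funext x
    show x + iv l + iv k = x + iv (l + k)
    rw [Pos_iv_add, add_assoc]
  inv := by
    rintro g ⟨k, rfl⟩
    refine ⟨fun x => x + iv (-k), ⟨-k, rfl⟩, ?_, ?_⟩
    · funext x
      show x + iv (-k) + iv k = x
      rw [add_assoc, ← Pos_iv_add, neg_add_cancel, Pos_iv_zero, add_zero]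
    · funext x
      show x + iv k + iv (-k) = x
      rw [add_assoc, ← Pos_iv_add, add_neg_cancel, Pos_iv_zero, add_zero]
  trans := fun k => ⟨k, rfl⟩
  fin := by
    refine ⟨{id}, Set.finite_singleton _, ?_⟩
    rintro g ⟨k, rfl⟩
    exact ⟨id, rfl, k, fun x => rfl⟩
  aff := by
    rintro g ⟨k, rfl⟩
    refine ⟨id, ?_, fun c v => rfl, fun l => ⟨l, rfl⟩⟩
    intro x v
    show x + v + iv k = x + iv k + v
    abel
  free := by
    rintro g ⟨k, rfl⟩ hne x hx
    apply hne
    have h1 : (iv k : Eu m) = 0 := by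
      have h2 : x + iv k = x := hx
      simpa using h2
    funext y
    show y + iv k = y
    rw [h1, add_zero]

private theorem Pos_key {N : (Eu (n + n) → Eu (n + n)) → ℝ≥0∞} {C : ℝ}
    (hC : ∀ u : Eu (n + n) → Eu (n + n), Continuous u → Per u →
      ENNReal.ofReal ‖mn u‖ ≤ ENNReal.ofReal C * N u)
    {φ : ℝ → Eu (n + n) → Eu (n + n)} (h : FPath (lat (n + n)) φ) :
    ENNReal.ofReal ‖dsp (φ 1) - dsp (φ 0)‖ ≤ ENNReal.ofReal C * len N φ := by
  have hφ : IsPath (TrA.sub (Pos_deck (n + n))) φ := (TrA.path_iff (Pos_deck (n + n)) φ).1 h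
  have hP := TrA.deck (Pos_deck (n + n))
  have hmean := (fluxKit famKit).mean (n + n) (TrA.sub (Pos_deck (n + n))) hP φ hφ
  have hcont : Continuous (fun t => mn (vel φ t)) := ExactA.cont_mean famKit hφ
  have h1 : ∫ t in (0 : ℝ)..1, mn (vel φ t) = dsp (φ 1) - dsp (φ 0) :=
    intervalIntegral.integral_eq_sub_of_hasDerivAt (fun t _ => hmean t)
      (hcont.intervalIntegrable _ _)
  have hvel : Continuous (fun q : ℝ × Eu (n + n) => vel φ q.1 q.2) :=
    (famKit.velSmooth (n + n) _ φ hφ).continuous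
  rw [← h1, intervalIntegral.integral_of_le zero_le_one, ← integral_Icc_eq_integral_Ioc,
    ofReal_norm_eq_enorm]
  refine (enorm_integral_le_lintegral_enorm _).trans ?_
  rw [len, ← lintegral_const_mul' _ _ ENNReal.ofReal_ne_top]
  refine lintegral_mono fun t => ?_
  rw [← ofReal_norm_eq_enorm]
  refine hC _ (hvel.comp (Continuous.prodMk_right t)) ?_
  intro x k
  have h2 := famKit.velEqui (n + n) _ φ hφ _ (hP.trans k) t x
  rw [AffineEquiv.constVAdd_apply, vadd_eq_add, add_comm (iv k) x] at h2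
  rw [h2]
  simp

private theorem Pos_fderiv {m : ℕ} (w : Eu m) (t : ℝ) (x : Eu m) :
    fderiv ℝ (fun x : Eu m => x + t • w) x = ContinuousLinearMap.id ℝ (Eu m) := by
  rw [fderiv_add_const, fderiv_fun_id]

private theorem Pos_path (w : Eu (n + n)) : SPath (fun t x => x + t • w) where
  path :=
    { smooth := by fun_prop
      bij := by
        intro t
        refine ⟨fun x y hxy => add_right_cancel hxy, fun y => ⟨y - t • w, ?_⟩⟩
        show y - t • w + t • w = y
        abel
      det := by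
        intro t x
        show (fderiv ℝ (fun x : Eu (n + n) => x + t • w) x).det = 1
        rw [Pos_fderiv]
        simp [ContinuousLinearMap.det]
      equi := by
        rintro t g ⟨k, rfl⟩ x
        show x + iv k + t • w = x + t • w + iv k
        abel }
  symp := by
    intro t x v v'
    show om (fderiv ℝ (fun x : Eu (n + n) => x + t • w) x v)
      (fderiv ℝ (fun x : Eu (n + n) => x + t • w) x v') = om v v'
    rw [Pos_fderiv]
    rfl

private theorem Pos_dsp_add (w : Eu (n + n)) : dsp (fun x => x + w) = w := by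
  have h : (fun x : Eu (n + n) => x + w - x) = fun _ => w := by
    funext x
    abel
  rw [dsp, h]
  exact ExactA.integral_const_cube w

theorem diam_pos (hn : 0 < n) {N : (Eu (n + n) → Eu (n + n)) → ℝ≥0∞} (hM : Mnc N) :
    0 < sdiam N := by
  obtain ⟨C, hC0, hC⟩ := hM
  let i0 : Fin (n + n) := ⟨0, by omega⟩
  let e : Eu (n + n) := WithLp.toLp 2 (fun _ => (1 / 2 : ℝ))
  have he : e i0 = 1 / 2 := rfl
  have hid : SG (n := n) id := ⟨fun t x => x + t • (0 : Eu (n + n)), Pos_path 0, by funext x; simp,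
    by funext x; simp⟩
  have hg : SG (n := n) (fun x => x + e) :=
    ⟨fun t x => x + t • e, Pos_path _, by funext x; simp, by funext x; simp⟩
  have hkey : ∀ φ : ℝ → Eu (n + n) → Eu (n + n), SPath φ ∧ φ 0 = id ∧
      (∃ γ ∈ lat (n + n), φ 1 = γ ∘ (fun x => x + e)) →
      ENNReal.ofReal (1 / 2) ≤ ENNReal.ofReal C * len N φ := by
    rintro φ ⟨h1, h2, γ, ⟨k, rfl⟩, h3⟩
    refine le_trans (ENNReal.ofReal_le_ofReal ?_) (Pos_key hC h1.path)
    have h4 : φ 1 = fun x => x + (e + iv k) := by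
      rw [h3]
      funext x
      show x + e + iv k = x + (e + iv k)
      rw [add_assoc]
    have h5 : φ 0 = fun x => x + (0 : Eu (n + n)) := by
      rw [h2]
      funext x
      simp
    rw [h4, h5, Pos_dsp_add, Pos_dsp_add, sub_zero]
    refine le_trans ?_ (PiLp.norm_apply_le _ i0)
    have h6 : (e + iv k : Eu (n + n)) i0 = 1 / 2 + (k i0 : ℝ) := by
      rw [PiLp.add_apply, he]
      simp [iv]
    rw [h6, Real.norm_eq_abs, le_abs]
    rcases le_or_gt 0 (k i0) with h | h
    · left
      have : (0 : ℝ) ≤ (k i0 : ℝ) := by exact_mod_cast h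
      linarith
    · right
      have : (k i0 : ℝ) ≤ -1 := by exact_mod_cast (by omega : k i0 ≤ -1)
      linarith
  have hC1 : ENNReal.ofReal C ≠ 0 := by
    intro h
    have h1 := hkey (fun t x => x + t • e) ⟨Pos_path _, by funext x; simp, id,
      (Pos_deck (n + n)).one, by funext x; simp⟩
    rw [h, zero_mul] at h1
    have h2 : (0 : ℝ≥0∞) < ENNReal.ofReal (1 / 2) := by
      rw [ENNReal.ofReal_pos]
      norm_num
    exact absurd h1 (not_le.2 h2)
  have hpos : (0 : ℝ≥0∞) < ENNReal.ofReal (1 / 2) / ENNReal.ofReal C := by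
    rw [ENNReal.div_pos_iff]
    refine ⟨?_, ENNReal.ofReal_ne_top⟩
    have h2 : (0 : ℝ≥0∞) < ENNReal.ofReal (1 / 2) := by
      rw [ENNReal.ofReal_pos]
      norm_num
    exact h2.ne'
  refine lt_of_lt_of_le hpos ?_
  refine le_trans ?_ (le_iSup₂_of_le (f := fun (f : Eu (n + n) → Eu (n + n)) (_ : SG f) =>
    ⨆ (g : Eu (n + n) → Eu (n + n)) (_ : SG g), sdist N f g) id hid
      (le_iSup₂_of_le (f := fun (g : Eu (n + n) → Eu (n + n)) (_ : SG g) => sdist N id g) _ hg
        le_rfl))
  refine le_iInf₂ fun φ hφ => ?_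
  rw [ENNReal.div_le_iff hC1 ENNReal.ofReal_ne_top, mul_comm]
  exact hkey φ hφ

end

end TN
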