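import Pool.Agent.TN.ShrA
import Pool.Agent.TN.Frt
import Pool.Agent.TN.Avg

/-!
Project TN, row TN-12: the diameter is infinite.
-/

set_option autoImplicit false

open MeasureTheory Set Pool.Agent.H68.VD
open scoped ENNReal ContDiff

namespace TN

noncomputable section

variable {n : ℕ}

theorem diam_top (hn : 0 < n) {N : (Eu (n + n) → Eu (n + n)) → ℝ≥0∞} (hN : Slc N) :
    sdiam N = ⊤ :=
  shr_diam_top hn (fun _ h h0 a => front0 h h0 a) (avg hN)

end

end TN
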