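import Pool.Agent.TN.Ham
import Pool.Agent.TH.SlH

/-!
Project TN, row TN-19 (MP_b0bf68_gt): the slice bound of the two dimensional torus in the notation of
the general case.
-/

set_option autoImplicit false

open MeasureTheory Set Pool.Agent.H68.VD
open scoped ENNReal ContDiff

namespace TN

noncomputable section

/-- the unit vector of the line -/
private def e1 : Eu 1 := WithLp.toLp 2 (fun _ => (1 : ℝ))

private theorem eu1_eq (y : Eu 1) : y = (y 0) • e1 := by
  ext i
  rw [Subsingleton.elim i 0]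
  simp [e1]

private theorem om_one (x y : Eu (1 + 1)) : om x y = x 0 * y 1 - x 1 * y 0 := by
  simp [om]

private theorem slh_ln (i : Fin 2) (a r : Eu 1) : ln i a r = TH.ln i (a 0) (r 0) := by
  have hpt : ∀ a b : Eu 1, pt a b = TH.pt (a 0) (b 0) := by
    intro a b
    ext j
    fin_cases j
    · rfl
    · rfl
  unfold ln TH.ln
  split_ifs
  · exact hpt a r
  · exact hpt r a

private theorem slh_dvf {u : Eu (1 + 1) → Eu (1 + 1)} (hs : SyF u) : TH.DvF u := by
  intro x
  have h := hs x (ev 0) (ev 1)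
  rw [om_one, om_one] at h
  have h00 : (ev (0 : Fin (1 + 1)) : Eu (1 + 1)) 0 = 1 := by simp [ev]
  have h01 : (ev (0 : Fin (1 + 1)) : Eu (1 + 1)) 1 = 0 := by simp [ev]
  have h10 : (ev (1 : Fin (1 + 1)) : Eu (1 + 1)) 0 = 0 := by simp [ev]
  have h11 : (ev (1 : Fin (1 + 1)) : Eu (1 + 1)) 1 = 1 := by simp [ev]
  rw [h00, h01, h10, h11] at h
  have h2 : ∑ j : Fin 2, (fderiv ℝ u x (ev j)) j = (fderiv ℝ u x (ev 0)) 0 + (fderiv ℝ u x (ev 1)) 1 :=
    Fin.sum_univ_two _
  show ∑ j : Fin 2, (fderiv ℝ u x (ev j)) j = 0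
  rw [h2]
  linarith

private theorem slh_inner (x y : Eu (1 + 1)) :
    inner ℝ (Jm x) y = x 0 * y 1 - x 1 * y 0 := by
  rw [← om_one, om_J]

/-- the increments of the Hamiltonian are the fluxes -/
private theorem slh_diff (i : Fin 2) {u : Eu (1 + 1) → Eu (1 + 1)} (hu : ContDiff ℝ ∞ u) (hp : Per u)
    (hs : SyF u) (a y : Eu 1) :
    |ham u (ln i a y) - ham u (ln i a 0)| = |TH.flx i u (a 0) (y 0)| := by
  have hM := ham_MH hu hp hs
  have hv : Continuous (fun x => u x - mn u) := hM.vs.continuous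
  have hmn : TH.mn u = mn u := rfl
  have hb0 : ∀ r : ℝ, (r • e1) 0 = r := by intro r; simp [e1]
  fin_cases i
  · -- slices of constant position
    have hc : ∀ r : ℝ, HasDerivAt (fun r : ℝ => pt a (r • e1)) (pt 0 e1) r := by
      intro r
      have h1 : HasDerivAt (fun r : ℝ => r • e1) ((1 : ℝ) • e1) r := (hasDerivAt_id r).smul_const e1
      have h2 := ((iP 1).hasFDerivAt.comp_hasDerivAt r h1).const_add (iQ 1 a)
      have h3 : (fun r : ℝ => pt a (r • e1)) = fun r => iQ 1 a + (⇑(iP 1) ∘ fun r : ℝ => r • e1) r := by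
        funext r
        rw [pt_eq]
        rfl
      rw [h3]
      rw [one_smul] at h2
      exact h2
    have hd : ∀ r : ℝ, HasDerivAt (fun r : ℝ => ham u (pt a (r • e1)))
        (u (pt a (r • e1)) 0 - mn u 0) r := by
      intro r
      have h1 := (hM.Hd (pt a (r • e1))).comp_hasDerivAt r (hc r)
      have h2 : (innerSL ℝ (Jm (u (pt a (r • e1)) - mn u))) (pt 0 e1) =
          u (pt a (r • e1)) 0 - mn u 0 := by
        rw [innerSL_apply_apply, slh_inner]
        have h3 : (pt (0 : Eu 1) e1) 1 = 1 := rfl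
        have h4 : (pt (0 : Eu 1) e1) 0 = 0 := rfl
        rw [h3, h4]
        simp
      rw [h2] at h1
      exact h1
    have hcont : Continuous fun r : ℝ => u (pt a (r • e1)) 0 - mn u 0 := by
      have h1 : Continuous fun r : ℝ => pt a (r • e1) :=
        continuous_iff_continuousAt.mpr fun r => (hc r).continuousAt
      exact ((PiLp.continuous_apply 2 _ 0).comp (hu.continuous.comp h1)).sub continuous_const
    have h := intervalIntegral.integral_eq_sub_of_hasDerivAt (a := 0) (b := y 0)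
      (fun r _ => hd r) (hcont.intervalIntegrable _ _)
    have hf : TH.flx 0 u (a 0) (y 0) = ∫ r in (0 : ℝ)..(y 0), (u (pt a (r • e1)) 0 - mn u 0) := by
      unfold TH.flx
      apply intervalIntegral.integral_congr
      intro r _
      have h1 : TH.ln 0 (a 0) r = pt a (r • e1) := by
        have h2 := slh_ln 0 a (r • e1)
        rw [hb0] at h2
        rw [← h2]
        simp [ln]
      simp only [h1, hmn]
    show |ham u (ln 0 a y) - ham u (ln 0 a 0)| = |TH.flx 0 u (a 0) (y 0)|
    rw [hf, h]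
    have h5 : ln 0 a y = pt a ((y 0) • e1) := by
      rw [← eu1_eq y]; simp [ln]
    have h6 : ln 0 a 0 = pt a ((0 : ℝ) • e1) := by
      rw [zero_smul]; simp [ln]
    rw [h5, h6]
  · have hc : ∀ r : ℝ, HasDerivAt (fun r : ℝ => pt (r • e1) a) (pt e1 0) r := by
      intro r
      have h1 : HasDerivAt (fun r : ℝ => r • e1) ((1 : ℝ) • e1) r := (hasDerivAt_id r).smul_const e1
      have h2 := ((iQ 1).hasFDerivAt.comp_hasDerivAt r h1).add_const (iP 1 a)
      have h3 : (fun r : ℝ => pt (r • e1) a) = fun r => (⇑(iQ 1) ∘ fun r : ℝ => r • e1) r + iP 1 a := by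
        funext r
        rw [pt_eq]
        rfl
      rw [h3]
      rw [one_smul] at h2
      exact h2
    have hd : ∀ r : ℝ, HasDerivAt (fun r : ℝ => ham u (pt (r • e1) a))
        (-(u (pt (r • e1) a) 1 - mn u 1)) r := by
      intro r
      have h1 := (hM.Hd (pt (r • e1) a)).comp_hasDerivAt r (hc r)
      have h2 : (innerSL ℝ (Jm (u (pt (r • e1) a) - mn u))) (pt e1 0) =
          -(u (pt (r • e1) a) 1 - mn u 1) := by
        rw [innerSL_apply_apply, slh_inner]
        have h3 : (pt e1 (0 : Eu 1)) 1 = 0 := rfl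
        have h4 : (pt e1 (0 : Eu 1)) 0 = 1 := rfl
        rw [h3, h4]
        simp
      rw [h2] at h1
      exact h1
    have hcont : Continuous fun r : ℝ => -(u (pt (r • e1) a) 1 - mn u 1) := by
      have h1 : Continuous fun r : ℝ => pt (r • e1) a :=
        continuous_iff_continuousAt.mpr fun r => (hc r).continuousAt
      exact (((PiLp.continuous_apply 2 _ 1).comp (hu.continuous.comp h1)).sub continuous_const).neg
    have h := intervalIntegral.integral_eq_sub_of_hasDerivAt (a := 0) (b := y 0)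
      (fun r _ => hd r) (hcont.intervalIntegrable _ _)
    have hf : TH.flx 1 u (a 0) (y 0) = ∫ r in (0 : ℝ)..(y 0), (u (pt (r • e1) a) 1 - mn u 1) := by
      unfold TH.flx
      apply intervalIntegral.integral_congr
      intro r _
      have h1 : TH.ln 1 (a 0) r = pt (r • e1) a := by
        have h2 := slh_ln 1 a (r • e1)
        rw [hb0] at h2
        rw [← h2]
        simp [ln]
      simp only [h1, hmn]
    show |ham u (ln 1 a y) - ham u (ln 1 a 0)| = |TH.flx 1 u (a 0) (y 0)|
    rw [intervalIntegral.integral_neg] at h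
    rw [hf, ← abs_neg (∫ r in (0 : ℝ)..(y 0), (u (pt (r • e1) a) 1 - mn u 1)), h]
    have h5 : ln 1 a y = pt ((y 0) • e1) a := by
      rw [← eu1_eq y]; simp [ln]
    have h6 : ln 1 a 0 = pt ((0 : ℝ) • e1) a := by
      rw [zero_smul]; simp [ln]
    rw [h5, h6]

private theorem slh_osf (i : Fin 2) {u : Eu (1 + 1) → Eu (1 + 1)} (hu : ContDiff ℝ ∞ u) (hp : Per u)
    (hs : SyF u) (a : Eu 1) : osf i u a = TH.osf i u (a 0) := by
  unfold osf TH.osf
  congr 1
  ext r
  constructor
  · rintro ⟨y, hy, rfl⟩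
    exact ⟨y 0, hy 0, (slh_diff i hu hp hs a y).symm⟩
  · rintro ⟨t, ht, rfl⟩
    refine ⟨t • e1, ?_, ?_⟩
    · intro j
      rw [Subsingleton.elim j 0]
      have : (t • e1) 0 = t := by simp [e1]
      rw [this]
      exact ht
    · have h := slh_diff i hu hp hs a (t • e1)
      have h2 : (t • e1) 0 = t := by simp [e1]
      rw [h2] at h
      exact h

/-- the line as a measurable space -/
private def slhE : Eu 1 ≃ᵐ ℝ :=
  (MeasurableEquiv.toLp 2 (Fin 1 → ℝ)).symm.trans (MeasurableEquiv.funUnique (Fin 1) ℝ)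

private theorem slhE_apply (a : Eu 1) : slhE a = a 0 := rfl

private theorem slhE_mp : MeasurePreserving slhE (volume : Measure (Eu 1)) volume :=
  (volume_preserving_funUnique (Fin 1) ℝ).comp (PiLp.volume_preserving_ofLp (Fin 1))

private theorem slh_int (f : ℝ → ℝ≥0∞) :
    ∫⁻ a in cube 1, f (a 0) ≤ ∫⁻ r in Icc (0 : ℝ) 1, f r := by
  have h1 : cube 1 = slhE ⁻¹' (Ico (0 : ℝ) 1) := by
    ext a
    rw [mem_preimage, slhE_apply]
    constructor
    · intro h; exact h 0
    · intro h j
      rw [Subsingleton.elim j 0]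
      exact h
  have h2 : ∫⁻ a in slhE ⁻¹' (Ico (0 : ℝ) 1), f (slhE a) = ∫⁻ r in Ico (0 : ℝ) 1, f r :=
    slhE_mp.setLIntegral_comp_preimage_emb slhE.measurableEmbedding f _
  have h3 : ∫⁻ a in cube 1, f (a 0) = ∫⁻ r in Ico (0 : ℝ) 1, f r := by
    rw [← h2, h1]
    rfl
  rw [h3]
  exact lintegral_mono_set Ico_subset_Icc_self

theorem slc_hs_one {s : ℝ} (hs : -(1 / 2) < s) (hs0 : s < 0) : Slc (n := 1) (hsNorm s) := by
  obtain ⟨C, hC, h⟩ := TH.slc_hs_neg hs hs0
  refine ⟨C, hC, fun i u hu hp hsy => ?_⟩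
  have h1 := h i u hu hp (slh_dvf hsy)
  have h2 : ∫⁻ a in cube 1, ENNReal.ofReal (osf i u a) =
      ∫⁻ a in cube 1, ENNReal.ofReal (TH.osf i u (a 0)) := by
    apply lintegral_congr
    intro a
    rw [slh_osf i hu hp hsy a]
  rw [h2]
  exact (slh_int fun r => ENNReal.ofReal (TH.osf i u r)).trans h1

end

end TN
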