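import Pool.Agent.TN.SlW
import Pool.Agent.TN.SlH
import Pool.Agent.TN.MnN
import Pool.Agent.TN.Dom
import Pool.Agent.TN.Non
import Pool.Agent.TN.Pos
import Pool.Agent.TN.Shr

/-! # Project TN: assembly (MP_b0bf68_gt) -/

set_option autoImplicit false

open MeasureTheory Set Pool.Agent.H68.VD
open scoped ENNReal ContDiff

namespace TN

noncomputable section

variable {n : ℕ} {p : ℝ} {N : ℝ → (Eu (n + n) → Eu (n + n)) → ℝ≥0∞}

theorem mnc_all (hN : (p = 2 ∧ N = fun s => hsNorm s) ∨ (1 < p ∧ N = fun s => wspP s p)) (s : ℝ) :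
    Mnc (N s) := by
  rcases hN with ⟨rfl, rfl⟩ | ⟨hp, rfl⟩
  · exact mnc_hs s
  · exact mnc_w s hp

theorem zero_all (hN : (p = 2 ∧ N = fun s => hsNorm s) ∨ (1 < p ∧ N = fun s => wspP s p)) (s : ℝ) :
    N s (fun _ => 0) = 0 := by
  rcases hN with ⟨rfl, rfl⟩ | ⟨hp, rfl⟩
  · exact hs_zero s
  · exact w_zero s hp

theorem lnc_all (hN : (p = 2 ∧ N = fun s => hsNorm s) ∨ (1 < p ∧ N = fun s => wspP s p)) {s : ℝ}
    (hs : 0 ≤ s) : Lnc (N s) := by
  rcases hN with ⟨rfl, rfl⟩ | ⟨hp, rfl⟩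
  · exact lnc_hs hs
  · exact lnc_w hs hp

theorem slc_all (hn : 0 < n)
    (hN : (p = 2 ∧ N = fun s => hsNorm s) ∨ (1 < p ∧ N = fun s => wspP s p)) {s : ℝ} (hs0 : s < 0)
    (hs : -1 + n / p < s) : Slc (N s) := by
  rcases hN with ⟨rfl, rfl⟩ | ⟨hp, rfl⟩
  · have hn1 : n = 1 := by
      have h1 : (n : ℝ) < 2 := by linarith
      have h2 : n < 2 := by exact_mod_cast h1
      omega
    subst hn1
    exact slc_hs_one (by norm_num at hs; linarith) hs0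
  · exact slc_w_neg hp hs hs0

/-- The torus of dimension `2n`: for the orders `s ≥ 0` and `s > -1 + n/p` the geodesic distance is not
degenerate and the diameter is infinite. -/
theorem rigid (hn : 0 < n)
    (hN : (p = 2 ∧ N = fun s => hsNorm s) ∨ (1 < p ∧ N = fun s => wspP s p)) {s : ℝ}
    (hs : 0 ≤ s ∨ -1 + n / p < s) : (∀ f g, SG f → SG g →
      (sdist (N s) f g = 0 ↔ ∃ γ ∈ lat (n + n), g = γ ∘ f)) ∧ sdiam (N s) = ⊤ := by
  rcases lt_or_ge s 0 with h0 | h0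
  · have hs' : -1 + n / p < s := hs.resolve_left (not_le.2 h0)
    have hS := slc_all hn hN h0 hs'
    refine ⟨fun f g hf hg => ⟨fun h => nondeg hS (mnc_all hN s) hf hg h, ?_⟩, diam_top hn hS⟩
    rintro ⟨γ, hγ, h⟩
    exact dist_zero (zero_all hN s) hf hγ h
  · have hL := lnc_all hN h0
    refine ⟨fun f g hf hg => ⟨fun h => nondeg_dom hL hf hg h, ?_⟩, diam_dom hn hL⟩
    rintro ⟨γ, hγ, h⟩
    exact dist_zero (zero_all hN s) hf hγ h

theorem main (hn : 0 < n)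
    (hN : (p = 2 ∧ N = fun s => hsNorm s) ∨ (1 < p ∧ N = fun s => wspP s p)) :
    (∀ s, (0 ≤ s ∨ -1 + n / p < s) → (∀ f g, SG f → SG g →
      (sdist (N s) f g = 0 ↔ ∃ γ ∈ lat (n + n), g = γ ∘ f)) ∧ sdiam (N s) = ⊤) ∧
    (∀ s, 0 < sdiam (N s)) ∧ ¬ Transition (fun s => sdiam (N s)) := by
  refine ⟨fun s hs => rigid hn hN hs, fun s => diam_pos hn (mnc_all hN s), ?_⟩
  rintro ⟨s₁, s₂, s₃, -, -, h0, -, -⟩
  exact (diam_pos hn (mnc_all hN s₁)).ne' h0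

end

end TN
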