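import Pool.Agent.TN.Lin
import Pool.Agent.H68.VD.DensB

/-!
Project TN, row TN-2: bounds of smooth periodic data.
-/

set_option autoImplicit false

open MeasureTheory Set Pool.Agent.H68.VD
open scoped ENNReal ContDiff

namespace TN

noncomputable section

variable {n : ℕ}

/-- Continuous functions on `[0,1] × ℝ^m` which are periodic in the second variable are bounded. -/
private theorem bdd_of_per {m : ℕ} {F : Type*} [NormedAddCommGroup F] {G : ℝ × Eu m → F}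
    (hG : Continuous G) (hp : ∀ (t : ℝ) (x : Eu m) (k : Fin m → ℤ), G (t, x + iv k) = G (t, x)) :
    ∃ M : ℝ, 0 ≤ M ∧ ∀ t ∈ Icc (0 : ℝ) 1, ∀ x, ‖G (t, x)‖ ≤ M := by
  obtain ⟨C, hC⟩ := (isCompact_Icc (a := (0 : ℝ)) (b := 1)).prod
    (HsA.closed_compact (n := m)) |>.exists_bound_of_continuousOn hG.continuousOn
  refine ⟨max C 0, le_max_right _ _, fun t ht x => ?_⟩
  obtain ⟨k, hk⟩ := DensBA.exists_cube x
  rw [← hp t x k]
  exact (hC _ ⟨ht, HsA.cube_sub_closed hk⟩).trans (le_max_left _ _)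

/-- Smooth functions which are periodic in the second variable are Lipschitz on `[0,1] × ℝ^m`. -/
private theorem lip_of_per {m : ℕ} {F : Type*} [NormedAddCommGroup F] [NormedSpace ℝ F]
    {G : ℝ × Eu m → F} (hG : ContDiff ℝ ∞ G)
    (hp : ∀ (t : ℝ) (x : Eu m) (k : Fin m → ℤ), G (t, x + iv k) = G (t, x)) :
    ∃ M : ℝ, 0 ≤ M ∧ ∀ t ∈ Icc (0 : ℝ) 1, ∀ t' ∈ Icc (0 : ℝ) 1, ∀ x x',
      ‖G (t, x) - G (t', x')‖ ≤ M * (|t - t'| + ‖x - x'‖) := by
  have hd : Continuous (fderiv ℝ G) := hG.continuous_fderiv (by simp)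
  have hdp : ∀ (t : ℝ) (x : Eu m) (k : Fin m → ℤ),
      fderiv ℝ G (t, x + iv k) = fderiv ℝ G (t, x) := by
    intro t x k
    have h1 : (fun z : ℝ × Eu m => G (z + (0, iv k))) = G := by
      funext z
      obtain ⟨s, y⟩ := z
      rw [Prod.mk_add_mk, add_zero]
      exact hp s y k
    have h2 := fderiv_comp_add_right (𝕜 := ℝ) (f := G) (x := ((t, x) : ℝ × Eu m))
      ((0, iv k) : ℝ × Eu m)
    rw [h1, Prod.mk_add_mk, add_zero] at h2
    exact h2.symm
  obtain ⟨M, hM0, hM⟩ := bdd_of_per hd hdp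
  refine ⟨M, hM0, fun t ht t' ht' x x' => ?_⟩
  have hconv : Convex ℝ (Icc (0 : ℝ) 1 ×ˢ (univ : Set (Eu m))) :=
    (convex_Icc 0 1).prod convex_univ
  have h3 := hconv.norm_image_sub_le_of_norm_fderiv_le (𝕜 := ℝ) (f := G) (C := M)
    (x := (t', x')) (y := (t, x))
    (fun z _ => (hG.differentiable (by simp)) z) (fun z hz => hM z.1 hz.1 z.2)
    ⟨ht', mem_univ _⟩ ⟨ht, mem_univ _⟩
  refine h3.trans (mul_le_mul_of_nonneg_left ?_ hM0)
  rw [Prod.mk_sub_mk, Prod.norm_mk, Real.norm_eq_abs]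
  exact max_le (by linarith [norm_nonneg (x - x')]) (by linarith [abs_nonneg (t - t')])

theorem HFl.bnd {u : ℝ → Eu (n + n) → Eu (n + n)} {H : ℝ → Eu (n + n) → ℝ}
    {φ : ℝ → Eu (n + n) → Eu (n + n)} (h : HFl u H φ) :
    ∃ L : ℝ, 0 ≤ L ∧ (∀ t ∈ Icc (0 : ℝ) 1, ∀ x, ‖u t x‖ ≤ L) ∧
      (∀ t ∈ Icc (0 : ℝ) 1, ∀ t' ∈ Icc (0 : ℝ) 1, ∀ x x', ‖u t x - u t' x'‖ ≤ L * (|t - t'| + ‖x - x'‖)) ∧
      (∀ t ∈ Icc (0 : ℝ) 1, ∀ t' ∈ Icc (0 : ℝ) 1, ∀ x x', |H t x - H t' x'| ≤ L * (|t - t'| + ‖x - x'‖)) ∧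
      (∀ t ∈ Icc (0 : ℝ) 1, ∀ x w, |H t (x + w) - H t x - inner ℝ (Jm (u t x)) w| ≤ L * ‖w‖ ^ 2) := by
  obtain ⟨A, hA0, hA⟩ := bdd_of_per (G := fun z : ℝ × Eu (n + n) => u z.1 z.2) h.us.continuous
    (fun t x k => h.up t x k)
  obtain ⟨B, hB0, hB⟩ := lip_of_per (G := fun z : ℝ × Eu (n + n) => u z.1 z.2) h.us
    (fun t x k => h.up t x k)
  obtain ⟨C, hC0, hC⟩ := lip_of_per (G := fun z : ℝ × Eu (n + n) => H z.1 z.2) h.Hs
    (fun t x k => h.Hp t x k)
  refine ⟨A + B + C, by positivity, ?_, ?_, ?_, ?_⟩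
  · intro t ht x
    have := hA t ht x
    dsimp only at this
    linarith
  · intro t ht t' ht' x x'
    have h1 := hB t ht t' ht' x x'
    dsimp only at h1
    have h2 : 0 ≤ |t - t'| + ‖x - x'‖ := by positivity
    nlinarith [mul_nonneg hA0 h2, mul_nonneg hB0 h2, mul_nonneg hC0 h2]
  · intro t ht t' ht' x x'
    have h1 := hC t ht t' ht' x x'
    dsimp only at h1
    rw [Real.norm_eq_abs] at h1
    have h2 : 0 ≤ |t - t'| + ‖x - x'‖ := by positivity
    nlinarith [mul_nonneg hA0 h2, mul_nonneg hB0 h2, mul_nonneg hC0 h2]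
  · intro t ht x w
    have hball : ∀ y ∈ segment ℝ x (x + w), ‖y - x‖ ≤ ‖w‖ := by
      intro y hy
      rw [segment_eq_image'] at hy
      obtain ⟨r, hr, rfl⟩ := hy
      rw [add_sub_cancel_left, add_sub_cancel_left, norm_smul, Real.norm_eq_abs, abs_of_nonneg hr.1]
      exact mul_le_of_le_one_left (norm_nonneg _) hr.2
    set D : Eu (n + n) → (Eu (n + n) →L[ℝ] ℝ) := fun y => innerSL ℝ (Jm (u t y)) with hD
    have hder : ∀ y ∈ segment ℝ x (x + w),
        HasFDerivWithinAt (fun y => H t y - D x y) (D y - D x) (segment ℝ x (x + w)) y := by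
      intro y _
      exact ((h.Hd t y).sub (D x).hasFDerivAt).hasFDerivWithinAt
    have hbd : ∀ y ∈ segment ℝ x (x + w), ‖D y - D x‖ ≤ B * ‖w‖ := by
      intro y hy
      have h1 := hB t ht t ht y x
      dsimp only at h1
      rw [sub_self, abs_zero, zero_add] at h1
      have h2 : ‖u t y - u t x‖ ≤ B * ‖w‖ :=
        h1.trans (mul_le_mul_of_nonneg_left (hball y hy) hB0)
      have h5 : D y - D x = innerSL ℝ (Jm (u t y - u t x)) := by
        rw [hD]
        dsimp only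
        rw [← map_sub]
        congr 1
        exact ((JL n).map_sub (u t y) (u t x)).symm
      rw [h5, innerSL_apply_norm, norm_Jm]
      exact h2
    have h8 := (convex_segment x (x + w)).norm_image_sub_le_of_norm_hasFDerivWithin_le hder hbd
      (left_mem_segment ℝ x (x + w)) (right_mem_segment ℝ x (x + w))
    rw [add_sub_cancel_left, Real.norm_eq_abs] at h8
    have h9 : H t (x + w) - D x (x + w) - (H t x - D x x) =
        H t (x + w) - H t x - inner ℝ (Jm (u t x)) w := by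
      rw [map_add]
      have h10 : D x w = inner ℝ (Jm (u t x)) w := rfl
      rw [h10]
      ring
    rw [h9] at h8
    refine h8.trans ?_
    have h11 : 0 ≤ ‖w‖ ^ 2 := by positivity
    nlinarith [mul_nonneg hA0 h11, mul_nonneg hC0 h11]

end

end TN
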