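import Pool.Agent.TN.Defs

/-!
# Project TN (MP_b0bf68_gt), row TN-22: calculus of `cvg`
-/

set_option autoImplicit false

open MeasureTheory Set Pool.Agent.H68.VD
open scoped ENNReal ContDiff

namespace TN

noncomputable section

theorem cvg_cont {m : ℕ} {K : Eu m → Eu m} (hK : ContDiff ℝ ∞ K) (hKs : HasCompactSupport K)
    {u : Eu m → Eu m} (hu : Continuous u) :
    Continuous (fun z : Ioi (0 : ℝ) × Eu m => cvg K z.1 u z.2) := by
  have : LocallyCompactSpace (Ioi (0 : ℝ)) := isOpen_Ioi.locallyCompactSpace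
  have h1 : Continuous (Function.uncurry fun (z : Ioi (0 : ℝ) × Eu m) (w : Eu m) =>
      (inner ℝ (u (z.2 - (z.1 : ℝ)⁻¹ • w)) (K w) : ℝ)) := by
    refine Continuous.inner (hu.comp ?_) (hK.continuous.comp continuous_snd)
    have h0 : Continuous (fun t : (Ioi (0 : ℝ) × Eu m) × Eu m => ((t.1.1 : ℝ))⁻¹) := by
      refine Continuous.inv₀ (continuous_subtype_val.comp (continuous_fst.comp continuous_fst)) ?_
      intro z
      exact ne_of_gt z.1.1.2
    exact Continuous.sub (continuous_snd.comp continuous_fst) (h0.smul continuous_snd)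
  have h2 := continuous_parametric_integral_of_continuous (μ := (volume : Measure (Eu m))) h1
    (s := tsupport K) hKs
  refine h2.congr fun z => ?_
  unfold cvg
  refine setIntegral_eq_integral_of_forall_compl_eq_zero fun w hw => ?_
  rw [image_eq_zero_of_notMem_tsupport hw, inner_zero_right]

theorem cvg_per {m : ℕ} {K : Eu m → Eu m} {u : Eu m → Eu m} (hu : Per u) (l : ℝ) :
    Per (cvg K l u) := by
  intro x k
  unfold cvg
  refine integral_congr_ae (Filter.Eventually.of_forall fun w => ?_)
  beta_reduce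
  have h1 : x + iv k - l⁻¹ • w = (x - l⁻¹ • w) + iv k := by abel
  rw [h1, hu]

/-- `cvg` as a convolution -/
theorem cvg_conv {m : ℕ} {K : Eu m → Eu m} {u : Eu m → Eu m} {l : ℝ} (hl : 0 < l) (x : Eu m) :
    cvg K l u x = l ^ m * (convolution u (fun z => K (l • z)) (innerSL ℝ) volume x) := by
  rw [convolution_eq_swap]
  have h1 := Measure.integral_comp_smul (volume : Measure (Eu m))
    (fun w => (inner ℝ (u (x - l⁻¹ • w)) (K w) : ℝ)) l
  rw [finrank_euclideanSpace_fin] at h1
  have h2 : (fun z => (inner ℝ (u (x - l⁻¹ • l • z)) (K (l • z)) : ℝ)) =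
      fun t => (innerSL ℝ (u (x - t))) (K (l • t)) := by
    funext z
    rw [inv_smul_smul₀ hl.ne']
    rfl
  rw [h2, smul_eq_mul, abs_of_pos (by positivity)] at h1
  rw [h1]
  unfold cvg
  field_simp

theorem cvg_deriv {m : ℕ} {K : Eu m → Eu m} (hK : ContDiff ℝ ∞ K) (hKs : HasCompactSupport K)
    {u : Eu m → Eu m} (hu : Continuous u) {l : ℝ} (hl : 0 < l) (i : Fin m) (x : Eu m) (r : ℝ) :
    HasDerivAt (fun r : ℝ => cvg K l u (x + r • ev i))
      (l * cvg (fun w => fderiv ℝ K w (ev i)) l u (x + r • ev i)) r := by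
  set g : Eu m → Eu m := fun z => K (l • z) with hg
  have hg1 : ContDiff ℝ ∞ g := hK.comp (contDiff_const_smul l)
  have hgs : HasCompactSupport g := hKs.comp_homeomorph (Homeomorph.smulOfNeZero l hl.ne')
  have hul : LocallyIntegrable u (volume : Measure (Eu m)) := hu.locallyIntegrable
  have h1 := hgs.hasFDerivAt_convolution_right (innerSL ℝ) hul (hg1.of_le (by simp))
    (x + r • ev i)
  have h2 : HasFDerivAt (fun x => cvg K l u x)
      (l ^ m • (convolution u (fderiv ℝ g) ((innerSL ℝ).precompR (Eu m)) volume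
        (x + r • ev i))) (x + r • ev i) := by
    have h3 : (fun x => cvg K l u x) = fun x => l ^ m • (convolution u g (innerSL ℝ) volume x) := by
      funext x
      rw [cvg_conv hl x, smul_eq_mul]
    rw [h3]
    exact h1.const_smul (l ^ m)
  have h0 : HasDerivAt (fun r : ℝ => x + r • (ev i : Eu m)) (ev i) r := by
    have h2 := ((hasDerivAt_id r).smul_const (ev i : Eu m)).const_add x
    simpa using h2
  have h3 := h2.comp_hasDerivAt r h0
  have h4 : (l ^ m • (convolution u (fderiv ℝ g) ((innerSL ℝ).precompR (Eu m)) volume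
        (x + r • ev i))) (ev i) =
      l * cvg (fun w => fderiv ℝ K w (ev i)) l u (x + r • ev i) := by
    rw [_root_.smul_apply, convolution_precompR_apply (innerSL ℝ) hul (hgs.fderiv ℝ)
      (hg1.continuous_fderiv (by simp)), cvg_conv hl]
    have h5 : (fun z => fderiv ℝ g z (ev i)) =
        l • fun z => (fun w => fderiv ℝ K w (ev i)) (l • z) := by
      funext z
      have h6 : HasFDerivAt g ((fderiv ℝ K (l • z)).comp (l • ContinuousLinearMap.id ℝ (Eu m)))
          z := by
        have h7 : HasFDerivAt K (fderiv ℝ K (l • z)) (l • z) :=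
          (hK.differentiable (by simp) (l • z)).hasFDerivAt
        have h8 : HasFDerivAt (fun z : Eu m => l • z) (l • ContinuousLinearMap.id ℝ (Eu m)) z :=
          (hasFDerivAt_id z).const_smul l
        exact h7.comp z h8
      rw [h6.fderiv]
      simp
    rw [h5, convolution_smul]
    simp only [smul_eq_mul, Pi.smul_apply]
    ring
  rw [← h4]
  exact h3

end

end TN
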