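import Pool.Agent.TN.Lin
import Pool.Agent.TH.Mini

/-! # Project TN, row TN-1: minimax for a finite dimensional inner product space -/

set_option autoImplicit false

namespace TN

noncomputable section

theorem minimax {V : Type} [NormedAddCommGroup V] [InnerProductSpace ℝ V] [FiniteDimensional ℝ V]
    (B : V → V → ℝ) (bx bP : V → V → V) (L C e : ℝ)
    (hT : ∀ x P v w, |B (x + v) (P + w) - B x P - inner ℝ (bx x P) v - inner ℝ (bP x P) w| ≤
      L * (‖v‖ ^ 2 + ‖w‖ ^ 2))
    (hc : Continuous fun z : V × V => bx z.1 z.2) (hc' : Continuous fun z : V × V => bP z.1 z.2)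
    (hb : ∀ x P, ‖bx x P‖ ≤ C ∧ ‖bP x P‖ ≤ C) (h0 : ∀ P, |B 0 P| ≤ e) :
    ∃ x P, P + bx x P = 0 ∧ x + bP x P = 0 ∧ |inner ℝ x P + B x P| ≤ e := by
  obtain ⟨m, ι, -⟩ : ∃ (m : ℕ) (ι : V ≃ₗᵢ[ℝ] EuclideanSpace ℝ (Fin m)), True :=
    ⟨_, (stdOrthonormalBasis ℝ V).repr, trivial⟩
  have hin : ∀ a b : V, inner ℝ (ι a) (ι b) = (inner ℝ a b : ℝ) := fun a b => ι.inner_map_map a b
  have hin' : ∀ (a : V) (v : EuclideanSpace ℝ (Fin m)),
      inner ℝ (ι a) v = (inner ℝ a (ι.symm v) : ℝ) := by
    intro a v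
    rw [← hin a (ι.symm v), ι.apply_symm_apply]
  obtain ⟨x, P, h1, h2, h3⟩ := TH.minimax (m := m)
    (fun x P => B (ι.symm x) (ι.symm P)) (fun x P => ι (bx (ι.symm x) (ι.symm P)))
    (fun x P => ι (bP (ι.symm x) (ι.symm P))) L C e
    (fun x P v w => by
      have h := hT (ι.symm x) (ι.symm P) (ι.symm v) (ι.symm w)
      rw [ι.symm.norm_map, ι.symm.norm_map] at h
      simp only [map_add]
      rw [hin', hin']
      exact h)
    (ι.continuous.comp (hc.comp ((ι.symm.continuous.comp continuous_fst).prodMk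
      (ι.symm.continuous.comp continuous_snd))))
    (ι.continuous.comp (hc'.comp ((ι.symm.continuous.comp continuous_fst).prodMk
      (ι.symm.continuous.comp continuous_snd))))
    (fun x P => by
      simp only [ι.norm_map]
      exact hb _ _)
    (fun P => by
      simp only [map_zero]
      exact h0 _)
  refine ⟨ι.symm x, ι.symm P, ?_, ?_, ?_⟩
  · apply ι.injective
    rw [map_add, map_zero, ι.apply_symm_apply]
    exact h1
  · apply ι.injective
    rw [map_add, map_zero, ι.apply_symm_apply]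
    exact h2
  · rw [ι.symm.inner_map_map]
    exact h3

end

end TN
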