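import Mathlib
import Pool.Agent.TN.Lin
import Pool.Agent.TN.Mini
import Pool.Agent.TN.Bnd

/-!
# Critical points of the discrete action
-/

set_option autoImplicit false

open MeasureTheory Set Pool.Agent.H68.VD
open scoped ENNReal ContDiff

namespace TN

noncomputable section

variable {n : ℕ}

/-- the space of the positions (or of the momentum increments) -/
private abbrev DV (m n : ℕ) : Type := PiLp 2 (fun _ : Fin m => Eu n)

private theorem dis_norm {m n : ℕ} {C : ℝ} (hm : 0 < m) (x : DV m n)
    (h : ∀ i, ‖x i‖ ≤ C) : ‖x‖ ≤ m * C := by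
  have hC : 0 ≤ C := (norm_nonneg _).trans (h ⟨0, hm⟩)
  have hn1 : (1 : ℝ) ≤ m := by exact_mod_cast hm
  refine abs_le_of_sq_le_sq' ?_ (by positivity) |>.2
  rw [PiLp.norm_sq_eq_of_L2]
  calc ∑ i, ‖x i‖ ^ 2 ≤ ∑ _i : Fin m, C ^ 2 := by
        refine Finset.sum_le_sum fun i _ => ?_
        exact pow_le_pow_left₀ (norm_nonneg _) (h i) 2
    _ = m * C ^ 2 := by simp
    _ ≤ (m * C) ^ 2 := by
        rw [mul_pow]
        refine mul_le_mul_of_nonneg_right ?_ (sq_nonneg C)
        nlinarith

/-- the momentum -/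
private def dpp {m : ℕ} (y : Eu n) (P : DV m n) (k : ℕ) : Eu n :=
  y - ∑ j : Fin m, if k ≤ (j : ℕ) then P j else 0

private def dz {m : ℕ} (a y : Eu n) (x P : DV m n) (i : Fin m) : Eu (n + n) :=
  pt (a + x i) (dpp y P i)

private theorem dz_add {m : ℕ} (a y : Eu n) (x P v w : DV m n) (i : Fin m) :
    dz a y (x + v) (P + w) i = dz a y x P i +
      pt (v i) (-∑ j : Fin m, if (i : ℕ) ≤ (j : ℕ) then w j else 0) := by
  unfold dz
  rw [← pt_add]
  congr 1
  · simp [add_assoc]
  · unfold dpp
    have : ∑ j : Fin m, (if (i : ℕ) ≤ (j : ℕ) then (P + w) j else 0) =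
        (∑ j : Fin m, if (i : ℕ) ≤ (j : ℕ) then P j else 0) +
          ∑ j : Fin m, if (i : ℕ) ≤ (j : ℕ) then w j else 0 := by
      rw [← Finset.sum_add_distrib]
      refine Finset.sum_congr rfl fun j _ => ?_
      split_ifs
      · simp
      · simp
    rw [this]
    abel

private theorem dis_coord_cont {m : ℕ} (j : Fin m) :
    Continuous fun x : DV m n => x j :=
  (continuous_apply j).comp (PiLp.continuous_ofLp 2 _)

private theorem dz_cont {m : ℕ} (a y : Eu n) (i : Fin m) :
    Continuous fun z : DV m n × DV m n => dz a y z.1 z.2 i := by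
  unfold dz dpp
  refine continuous_pt.comp (Continuous.prodMk ?_ ?_)
  · exact continuous_const.add ((dis_coord_cont i).comp continuous_fst)
  · refine continuous_const.sub (continuous_finsetSum _ fun j _ => ?_)
    split_ifs
    · exact (dis_coord_cont j).comp continuous_snd
    · exact continuous_const

private theorem dis_cs {m : ℕ} (i : ℕ) (w : DV m n) :
    ‖∑ j : Fin m, if i ≤ (j : ℕ) then w j else 0‖ ^ 2 ≤ m * ‖w‖ ^ 2 := by
  have h1 := sq_sum_le_card_mul_sum_sq (s := (Finset.univ : Finset (Fin m)))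
    (f := fun j : Fin m => ‖(if i ≤ (j : ℕ) then w j else 0 : Eu n)‖)
  have h0 := norm_sum_le (Finset.univ : Finset (Fin m))
    (fun j : Fin m => (if i ≤ (j : ℕ) then w j else 0 : Eu n))
  refine (pow_le_pow_left₀ (norm_nonneg _) h0 2).trans (h1.trans ?_)
  rw [PiLp.norm_sq_eq_of_L2, Finset.card_univ, Fintype.card_fin]
  refine mul_le_mul_of_nonneg_left (Finset.sum_le_sum fun j _ => ?_) (by positivity)
  split_ifs
  · exact le_refl _
  · simp only [norm_zero, ne_eq, OfNat.ofNat_ne_zero, not_false_eq_true, zero_pow]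
    positivity

theorem discrete {u : ℝ → Eu (n + n) → Eu (n + n)} {H : ℝ → Eu (n + n) → ℝ}
    {φ : ℝ → Eu (n + n) → Eu (n + n)} (h : HFl u H φ) (a y : Eu n) (g : ℝ → ℝ)
    (hg : ∀ t ∈ Icc (0 : ℝ) 1, ∀ r, |H t (pt a r)| ≤ g t) (m : ℕ) (hm : 0 < m) :
    ∃ Q p : ℕ → Eu n, Orb u m Q p ∧ Q 0 = a ∧ p m = y ∧
      |∑ i ∈ Finset.range m, 1 / m * agr u H a (i / m) (pt (Q (i + 1)) (p i))| ≤
        ∑ i ∈ Finset.range m, 1 / m * g (i / m) := by
  obtain ⟨L, hL0, hLu, -, -, hLT⟩ := h.bnd
  have hn0 : (0 : ℝ) < m := by exact_mod_cast hm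
  have hn1 : (1 : ℝ) ≤ m := by exact_mod_cast hm
  have ht : ∀ i : Fin m, ((i : ℕ) : ℝ) / m ∈ Icc (0 : ℝ) 1 := by
    intro i
    refine ⟨by positivity, ?_⟩
    rw [div_le_one hn0]
    exact_mod_cast i.2.le
  set D : ℝ := 1 / m with hD
  have hD0 : 0 ≤ D := by positivity
  have hnD : m * D = 1 := by rw [hD]; field_simp
  have hD1 : D ≤ 1 := by
    rw [hD, div_le_one hn0]
    exact hn1
  have huc : ∀ t, Continuous (u t) := fun t =>
    h.us.continuous.comp (Continuous.prodMk continuous_const continuous_id)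
  have key : ∃ x P : DV m n,
      P + (WithLp.toLp 2 fun i : Fin m => -(D • pp (u ((i : ℕ) / m) (dz a y x P i)))) = 0 ∧
      x + (WithLp.toLp 2 fun j : Fin m => -∑ i : Fin m,
        if (i : ℕ) ≤ (j : ℕ) then D • qq (u ((i : ℕ) / m) (dz a y x P i)) else 0) = 0 ∧
      |inner ℝ x P + ∑ i : Fin m, D * H ((i : ℕ) / m) (dz a y x P i)| ≤
        ∑ i : Fin m, D * g ((i : ℕ) / m) := by
    refine minimax (V := DV m n)
      (fun x P => ∑ i : Fin m, D * H ((i : ℕ) / m) (dz a y x P i))
      (fun x P => WithLp.toLp 2 fun i : Fin m => -(D • pp (u ((i : ℕ) / m) (dz a y x P i))))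
      (fun x P => WithLp.toLp 2 fun j : Fin m => -∑ i : Fin m,
        if (i : ℕ) ≤ (j : ℕ) then D • qq (u ((i : ℕ) / m) (dz a y x P i)) else 0)
      (L * m) (m * L) (∑ i : Fin m, D * g ((i : ℕ) / m)) ?_ ?_ ?_ ?_ ?_
    · -- the Taylor bound
      intro x P v w
      have e1 : (∑ i : Fin m, D * H ((i : ℕ) / m) (dz a y (x + v) (P + w) i)) -
          (∑ i : Fin m, D * H ((i : ℕ) / m) (dz a y x P i)) -
          inner ℝ (WithLp.toLp 2 fun i : Fin m => -(D • pp (u ((i : ℕ) / m) (dz a y x P i))) :
            DV m n) v -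
          inner ℝ (WithLp.toLp 2 fun j : Fin m => -∑ i : Fin m,
            if (i : ℕ) ≤ (j : ℕ) then D • qq (u ((i : ℕ) / m) (dz a y x P i)) else 0 :
            DV m n) w =
          ∑ i : Fin m, D * (H ((i : ℕ) / m) (dz a y x P i +
            pt (v i) (-∑ j : Fin m, if (i : ℕ) ≤ (j : ℕ) then w j else 0)) -
            H ((i : ℕ) / m) (dz a y x P i) -
            inner ℝ (Jm (u ((i : ℕ) / m) (dz a y x P i)))
              (pt (v i) (-∑ j : Fin m, if (i : ℕ) ≤ (j : ℕ) then w j else 0))) := by
        rw [PiLp.inner_apply, PiLp.inner_apply]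
        have e2 : ∑ j : Fin m, inner ℝ ((WithLp.toLp 2 fun j : Fin m => -∑ i : Fin m,
            if (i : ℕ) ≤ (j : ℕ) then D • qq (u ((i : ℕ) / m) (dz a y x P i)) else 0 :
            DV m n) j) (w j) =
            ∑ i : Fin m, -(D * inner ℝ (qq (u ((i : ℕ) / m) (dz a y x P i)))
              (∑ j : Fin m, if (i : ℕ) ≤ (j : ℕ) then w j else 0)) := by
          simp only [inner_neg_left, sum_inner, inner_sum, Finset.mul_sum, Finset.sum_neg_distrib]
          rw [Finset.sum_comm]
          congr 1
          refine Finset.sum_congr rfl fun i _ => Finset.sum_congr rfl fun j _ => ?_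
          split_ifs
          · rw [real_inner_smul_left]
          · simp
        rw [e2, ← Finset.sum_sub_distrib, ← Finset.sum_sub_distrib, ← Finset.sum_sub_distrib]
        refine Finset.sum_congr rfl fun i _ => ?_
        rw [dz_add, inner_qp (Jm _), qq_pt, pp_pt]
        simp only [Jm, qq_pt, pp_pt, inner_neg_left, inner_neg_right, real_inner_smul_left]
        ring
      rw [e1]
      refine (Finset.abs_sum_le_sum_abs _ _).trans ?_
      calc ∑ i : Fin m, |D * (H ((i : ℕ) / m) (dz a y x P i +
            pt (v i) (-∑ j : Fin m, if (i : ℕ) ≤ (j : ℕ) then w j else 0)) -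
            H ((i : ℕ) / m) (dz a y x P i) -
            inner ℝ (Jm (u ((i : ℕ) / m) (dz a y x P i)))
              (pt (v i) (-∑ j : Fin m, if (i : ℕ) ≤ (j : ℕ) then w j else 0)))|
          ≤ ∑ i : Fin m, D * (L * (m * (‖v‖ ^ 2 + ‖w‖ ^ 2))) := by
            refine Finset.sum_le_sum fun i _ => ?_
            rw [abs_mul, abs_of_nonneg hD0]
            refine mul_le_mul_of_nonneg_left ?_ hD0
            refine (hLT _ (ht i) _ _).trans ?_
            refine mul_le_mul_of_nonneg_left ?_ hL0
            rw [norm_pt_sq, norm_neg]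
            have h1 := dis_cs (m := m) i w
            have h2 : ‖v i‖ ^ 2 ≤ ‖v‖ ^ 2 :=
              pow_le_pow_left₀ (norm_nonneg _) (PiLp.norm_apply_le v i) 2
            have h3 : 0 ≤ ‖v‖ ^ 2 := by positivity
            nlinarith
        _ = L * m * (‖v‖ ^ 2 + ‖w‖ ^ 2) := by
            rw [Finset.sum_const, Finset.card_univ, Fintype.card_fin, nsmul_eq_mul]
            calc (m : ℝ) * (D * (L * (m * (‖v‖ ^ 2 + ‖w‖ ^ 2)))) =
                (m * D) * (L * m * (‖v‖ ^ 2 + ‖w‖ ^ 2)) := by ring
              _ = _ := by rw [hnD, one_mul]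
    · refine (PiLp.continuous_toLp 2 _).comp (continuous_pi fun i => ?_)
      have := (huc ((i : ℕ) / m)).comp (dz_cont a y i)
      exact ((continuous_pp.comp this).const_smul D).neg
    · refine (PiLp.continuous_toLp 2 _).comp (continuous_pi fun j => ?_)
      refine (continuous_finsetSum _ fun i _ => ?_).neg
      split_ifs
      · have := (huc ((i : ℕ) / m)).comp (dz_cont a y i)
        exact (continuous_qq.comp this).const_smul D
      · exact continuous_const
    · intro x P
      have hu : ∀ (i : Fin m), ‖u ((i : ℕ) / m) (dz a y x P i)‖ ≤ L := fun i =>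
        hLu _ (ht i) _
      refine ⟨dis_norm hm _ fun i => ?_, dis_norm hm _ fun j => ?_⟩
      · simp only
        rw [norm_neg, norm_smul, Real.norm_eq_abs, abs_of_nonneg hD0]
        calc D * ‖pp (u ((i : ℕ) / m) (dz a y x P i))‖ ≤ 1 * L :=
              mul_le_mul hD1 ((norm_pp_le _).trans (hu i)) (norm_nonneg _) zero_le_one
          _ = L := one_mul L
      · simp only
        rw [norm_neg]
        refine (norm_sum_le _ _).trans ?_
        calc ∑ i : Fin m, ‖(if (i : ℕ) ≤ (j : ℕ) then D • qq (u ((i : ℕ) / m) (dz a y x P i))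
              else 0 : Eu n)‖
            ≤ ∑ _i : Fin m, D * L := by
              refine Finset.sum_le_sum fun i _ => ?_
              split_ifs
              · rw [norm_smul, Real.norm_eq_abs, abs_of_nonneg hD0]
                exact mul_le_mul_of_nonneg_left ((norm_qq_le _).trans (hu i)) hD0
              · rw [norm_zero]
                positivity
          _ = L := by
              rw [Finset.sum_const, Finset.card_univ, Fintype.card_fin, nsmul_eq_mul, ← mul_assoc,
                hnD, one_mul]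
    · intro P
      refine (Finset.abs_sum_le_sum_abs _ _).trans (Finset.sum_le_sum fun i _ => ?_)
      rw [abs_mul, abs_of_nonneg hD0]
      refine mul_le_mul_of_nonneg_left ?_ hD0
      have h1 : dz a y (0 : DV m n) P i = pt a (dpp y P i) := by
        unfold dz
        simp
      rw [h1]
      exact hg _ (ht i) _
  obtain ⟨x, P, hx, hP, hxP⟩ := key
  -- the orbit
  have hPi : ∀ i : Fin m, P i = D • pp (u ((i : ℕ) / m) (dz a y x P i)) := by
    intro i
    have := congrArg (fun z : DV m n => z i) hx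
    simp only [PiLp.add_apply, PiLp.zero_apply] at this
    exact add_neg_eq_zero.1 this
  have hxj : ∀ j : Fin m, x j = ∑ i : Fin m,
      if (i : ℕ) ≤ (j : ℕ) then D • qq (u ((i : ℕ) / m) (dz a y x P i)) else 0 := by
    intro j
    have := congrArg (fun z : DV m n => z j) hP
    simp only [PiLp.add_apply, PiLp.zero_apply] at this
    exact add_neg_eq_zero.1 this
  set Q : ℕ → Eu n := fun k => a + ∑ i : Fin m,
    if (i : ℕ) < k then D • qq (u ((i : ℕ) / m) (dz a y x P i)) else 0 with hQd
  have hQx : ∀ i : Fin m, Q (i + 1) = a + x i := by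
    intro i
    rw [hQd, hxj i]
    simp only [Nat.lt_succ_iff]
  have hz : ∀ i : Fin m, pt (Q (i + 1)) (dpp y P i) = dz a y x P i := by
    intro i
    rw [hQx]
    rfl
  refine ⟨Q, dpp y P, ⟨?_, ?_⟩, ?_, ?_, ?_⟩
  · intro i hi
    have h1 := hz ⟨i, hi⟩
    simp only at h1
    rw [h1, hQd]
    simp only
    rw [add_assoc]
    congr 1
    have : D • qq (u ((i : ℕ) / m) (dz a y x P ⟨i, hi⟩)) = ∑ k : Fin m, if (k : ℕ) = i then
        D • qq (u ((k : ℕ) / m) (dz a y x P k)) else 0 := by
      rw [Finset.sum_eq_single (⟨i, hi⟩ : Fin m)]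
      · simp
      · intro b _ hb
        rw [if_neg]
        intro hbi
        exact hb (Fin.ext hbi)
      · simp
    rw [this, ← Finset.sum_add_distrib]
    refine Finset.sum_congr rfl fun k _ => ?_
    rcases lt_trichotomy (k : ℕ) i with hk | hk | hk
    · rw [if_pos (by omega), if_pos hk, if_neg (by omega), add_zero]
    · rw [if_pos (by omega), if_neg (by omega), if_pos hk, zero_add]
    · rw [if_neg (by omega), if_neg (by omega), if_neg (by omega), add_zero]
  · intro i hi
    have h1 := hz ⟨i, hi⟩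
    simp only at h1
    rw [h1]
    have h2 := hPi ⟨i, hi⟩
    simp only at h2
    rw [← h2]
    unfold dpp
    have : P ⟨i, hi⟩ = ∑ k : Fin m, if (k : ℕ) = i then P k else 0 := by
      rw [Finset.sum_eq_single (⟨i, hi⟩ : Fin m)]
      · simp
      · intro b _ hb
        rw [if_neg]
        intro hbi
        exact hb (Fin.ext hbi)
      · simp
    have h3 : (∑ j : Fin m, if i ≤ (j : ℕ) then P j else 0) =
        (∑ j : Fin m, if i + 1 ≤ (j : ℕ) then P j else 0) +
          ∑ k : Fin m, if (k : ℕ) = i then P k else 0 := by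
      rw [← Finset.sum_add_distrib]
      refine Finset.sum_congr rfl fun k _ => ?_
      rcases lt_trichotomy (k : ℕ) i with hk | hk | hk
      · rw [if_neg (by omega), if_neg (by omega), if_neg (by omega), add_zero]
      · rw [if_pos (by omega), if_neg (by omega), if_pos hk, zero_add]
      · rw [if_pos (by omega), if_pos (by omega), if_neg (by omega), add_zero]
    rw [this, h3]
    abel
  · rw [hQd]
    simp
  · unfold dpp
    rw [Finset.sum_eq_zero, sub_zero]
    intro j _
    rw [if_neg (by have := j.2; omega)]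
  · rw [Finset.sum_range, Finset.sum_range]
    have h4 : ∑ i : Fin m, 1 / m * agr u H a ((i : ℕ) / m) (pt (Q (i + 1)) (dpp y P i)) =
        inner ℝ x P + ∑ i : Fin m, D * H ((i : ℕ) / m) (dz a y x P i) := by
      rw [PiLp.inner_apply, ← Finset.sum_add_distrib]
      refine Finset.sum_congr rfl fun i _ => ?_
      rw [hz i, agr]
      have h5 : qq (dz a y x P i) = a + x i := qq_pt _ _
      have h6 : inner ℝ (x i) (P i) =
          D * inner ℝ (x i) (pp (u ((i : ℕ) / m) (dz a y x P i))) := by
        conv_lhs => rw [hPi i]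
        rw [real_inner_smul_right]
      rw [h5, h6, add_sub_cancel_left]
      ring
    rw [h4]
    exact hxP

end

end TN
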