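import Pool.Agent.TN.Bnd

/-! TN-4: the symplectic Euler scheme against the flow. -/

set_option autoImplicit false

open MeasureTheory Set Pool.Agent.H68.VD
open scoped ENNReal ContDiff

namespace TN

noncomputable section

variable {n : ℕ}

/-- the discrete Gronwall inequality -/
private theorem gro_disc {d : ℕ → ℝ} {n : ℕ} {L K D : ℝ} (hL : 0 ≤ L) (hK : 0 ≤ K) (hD : 0 ≤ D)
    (h0 : d 0 ≤ 0) (h : ∀ i < n, d (i + 1) ≤ (1 + L * D) * d i + K * D ^ 2) :
    ∀ i ≤ n, d i ≤ i * K * D ^ 2 * Real.exp (L * (i * D)) := by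
  intro i
  induction i with
  | zero =>
    intro _
    simpa using h0
  | succ i ih =>
    intro hi
    have h1 := ih (by omega)
    have h2 := h i (by omega)
    have h3 : (0 : ℝ) ≤ 1 + L * D := by positivity
    have h4 : 1 + L * D ≤ Real.exp (L * D) := by
      have := Real.add_one_le_exp (L * D)
      linarith
    have h5 : Real.exp (L * (((i + 1 : ℕ) : ℝ) * D)) = Real.exp (L * (i * D)) * Real.exp (L * D) := by
      rw [← Real.exp_add]
      congr 1
      push_cast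
      ring
    have h6 : (1 : ℝ) ≤ Real.exp (L * (((i + 1 : ℕ) : ℝ) * D)) := by
      apply Real.one_le_exp
      positivity
    have h7 : 0 ≤ (i : ℝ) * K * D ^ 2 * Real.exp (L * (i * D)) := by positivity
    have h8 : (1 + L * D) * d i ≤ Real.exp (L * D) * (i * K * D ^ 2 * Real.exp (L * (i * D))) :=
      (mul_le_mul_of_nonneg_left h1 h3).trans (mul_le_mul_of_nonneg_right h4 h7)
    have h9 : K * D ^ 2 ≤ K * D ^ 2 * Real.exp (L * (((i + 1 : ℕ) : ℝ) * D)) :=
      le_mul_of_one_le_right (by positivity) h6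
    calc d (i + 1) ≤ (1 + L * D) * d i + K * D ^ 2 := h2
      _ ≤ Real.exp (L * D) * (i * K * D ^ 2 * Real.exp (L * (i * D))) +
          K * D ^ 2 * Real.exp (L * (((i + 1 : ℕ) : ℝ) * D)) := add_le_add h8 h9
      _ = ((i + 1 : ℕ) : ℝ) * K * D ^ 2 * Real.exp (L * (((i + 1 : ℕ) : ℝ) * D)) := by
          rw [h5]
          push_cast
          ring

theorem gron {u : ℝ → Eu (n + n) → Eu (n + n)} {H : ℝ → Eu (n + n) → ℝ}
    {φ : ℝ → Eu (n + n) → Eu (n + n)} (h : HFl u H φ) :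
    ∃ C : ℝ, 0 ≤ C ∧ ∀ (m : ℕ), 0 < m → ∀ Q p : ℕ → Eu n, Orb u m Q p →
      ∀ i < m, ∀ t ∈ Icc ((i : ℝ) / m) ((i + 1 : ℝ) / m),
        ‖pt (Q (i + 1)) (p i) - φ t (pt (Q 0) (p 0))‖ ≤ C / m ∧
        ‖pt (Q m) (p m) - φ 1 (pt (Q 0) (p 0))‖ ≤ C / m := by
  obtain ⟨L, hL, hb, hl, -, -⟩ := HFl.bnd h
  set K : ℝ := L * (1 + 2 * L) with hK
  have hK0 : 0 ≤ K := by positivity
  refine ⟨2 * L + K * Real.exp L, by positivity, ?_⟩
  intro m hm Q p hO
  have hm0 : (0 : ℝ) < m := by exact_mod_cast hm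
  set D : ℝ := 1 / m with hD
  have hD0 : 0 < D := by positivity
  have hmD : (m : ℝ) * D = 1 := by
    rw [hD]
    field_simp
  set z₀ := pt (Q 0) (p 0) with hz₀
  have hdiv : ∀ x : ℝ, x / m = x * D := fun x => by rw [hD]; ring
  have ht0 : ∀ i ≤ m, (i : ℝ) / m ∈ Icc (0 : ℝ) 1 := by
    intro i hi
    refine ⟨by positivity, ?_⟩
    rw [div_le_one hm0]
    exact_mod_cast hi
  -- speed of the flow
  have hw : ∀ s ∈ Icc (0 : ℝ) 1, ∀ t ∈ Icc (0 : ℝ) 1, ‖φ t z₀ - φ s z₀‖ ≤ L * |t - s| := by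
    intro s hs t ht
    have h1 := (convex_Icc (0 : ℝ) 1).norm_image_sub_le_of_norm_hasDerivWithin_le
      (f := fun τ => φ τ z₀) (f' := fun τ => u τ (φ τ z₀)) (C := L)
      (fun τ _ => (h.fd τ z₀).hasDerivWithinAt) (fun τ hτ => hb τ hτ _) hs ht
    simpa [Real.norm_eq_abs] using h1
  have hz1 : ∀ i < m, ‖pt (Q (i + 1)) (p i) - pt (Q i) (p i)‖ ≤ L * D := by
    intro i hi
    rw [← pt_sub, sub_self, hO.hQ i hi, add_sub_cancel_left]
    refine (norm_pt_le _ _).trans ?_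
    rw [norm_zero, add_zero, norm_smul, Real.norm_eq_abs, abs_of_pos hD0, mul_comm]
    refine mul_le_mul_of_nonneg_right ?_ hD0.le
    exact (norm_qq_le _).trans (hb _ (ht0 i hi.le) _)
  have hz2 : ∀ i < m, pt (Q (i + 1)) (p (i + 1)) - pt (Q i) (p i) =
      D • u (i / m) (pt (Q (i + 1)) (p i)) := by
    intro i hi
    rw [← pt_sub]
    refine ext_qp ?_ ?_
    · rw [qq_pt, qq_smul]
      conv_lhs => rw [hO.hQ i hi]
      rw [add_sub_cancel_left]
    · rw [pp_pt, pp_smul]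
      conv_lhs => rw [hO.hp i hi]
      rw [add_sub_cancel_left]
  set d : ℕ → ℝ := fun i => ‖pt (Q i) (p i) - φ (i / m) z₀‖ with hd
  have hstep : ∀ i < m, d (i + 1) ≤ (1 + L * D) * d i + K * D ^ 2 := by
    intro i hi
    have hs := ht0 i hi.le
    have hs' : ((i + 1 : ℕ) : ℝ) / m ∈ Icc (0 : ℝ) 1 := ht0 (i + 1) hi
    have hss : (((i + 1 : ℕ) : ℝ) / m) - i / m = D := by
      rw [hD]
      push_cast
      ring
    set ζ := pt (Q (i + 1)) (p i) with hζ
    set v := u (i / m) ζ with hv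
    have hsub : Icc ((i : ℝ) / m) (((i + 1 : ℕ) : ℝ) / m) ⊆ Icc 0 1 := fun τ hτ =>
      ⟨hs.1.trans hτ.1, hτ.2.trans hs'.2⟩
    have h1 := (convex_Icc ((i : ℝ) / m) (((i + 1 : ℕ) : ℝ) / m)).norm_image_sub_le_of_norm_hasDerivWithin_le
      (f := fun τ : ℝ => φ τ z₀ - τ • v) (f' := fun τ => u τ (φ τ z₀) - v)
      (C := L * (d i + (1 + 2 * L) * D))
      (fun τ _ => by
        have h2 : HasDerivAt (fun τ : ℝ => τ • v) v τ := by
          simpa using (hasDerivAt_id τ).smul_const v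
        exact ((h.fd τ z₀).sub h2).hasDerivWithinAt)
      (fun τ hτ => by
        refine (hl τ (hsub hτ) _ hs _ _).trans (mul_le_mul_of_nonneg_left ?_ hL)
        have h3 : |τ - i / m| ≤ D := by
          rw [abs_of_nonneg (by linarith [hτ.1])]
          linarith [hτ.2]
        have h4 : ‖φ τ z₀ - φ (i / m) z₀‖ ≤ L * D :=
          (hw _ hs τ (hsub hτ)).trans (mul_le_mul_of_nonneg_left h3 hL)
        have h5 : φ τ z₀ - ζ = (φ τ z₀ - φ (i / m) z₀) - (pt (Q i) (p i) - φ (i / m) z₀) -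
            (ζ - pt (Q i) (p i)) := by abel
        have h6 : ‖φ τ z₀ - ζ‖ ≤ L * D + d i + L * D := by
          rw [h5]
          exact (norm_sub_le _ _).trans (add_le_add ((norm_sub_le _ _).trans
            (add_le_add h4 le_rfl)) (hz1 i hi))
        nlinarith)
      (left_mem_Icc.2 (by linarith)) (right_mem_Icc.2 (by linarith))
    have h7 : ‖(((i + 1 : ℕ) : ℝ) / m) - i / m‖ = D := by
      rw [hss, Real.norm_eq_abs, abs_of_pos hD0]
    rw [h7] at h1
    have h8 : pt (Q (i + 1)) (p (i + 1)) - φ (((i + 1 : ℕ) : ℝ) / m) z₀ =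
        (pt (Q i) (p i) - φ (i / m) z₀) - ((φ (((i + 1 : ℕ) : ℝ) / m) z₀ -
          (((i + 1 : ℕ) : ℝ) / m) • v) - (φ (i / m) z₀ - ((i : ℝ) / m) • v)) := by
      have h9 : pt (Q (i + 1)) (p (i + 1)) = pt (Q i) (p i) + D • v := by
        rw [hv, hζ, ← hz2 i hi]
        abel
      have h10 : D • v = (((i + 1 : ℕ) : ℝ) / m) • v - ((i : ℝ) / m) • v := by
        rw [← sub_smul, hss]
      rw [h9, h10]
      abel
    show ‖pt (Q (i + 1)) (p (i + 1)) - φ (((i + 1 : ℕ) : ℝ) / m) z₀‖ ≤ _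
    rw [h8]
    refine (norm_sub_le _ _).trans ((add_le_add le_rfl h1).trans (le_of_eq ?_))
    show d i + _ = _
    rw [hK]
    ring
  have hd0 : d 0 ≤ 0 := by
    show ‖pt (Q 0) (p 0) - φ ((0 : ℕ) / m) z₀‖ ≤ 0
    rw [Nat.cast_zero, zero_div, h.f0, ← hz₀, sub_self, norm_zero]
  have hdi : ∀ i ≤ m, d i ≤ K * Real.exp L * D := by
    intro i hi
    have h1 := gro_disc hL hK0 hD0.le hd0 hstep i hi
    have h2 : (i : ℝ) * D ≤ 1 := by
      rw [← hmD]
      exact mul_le_mul_of_nonneg_right (by exact_mod_cast hi) hD0.le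
    have h3 : Real.exp (L * (i * D)) ≤ Real.exp L := by
      apply Real.exp_le_exp.2
      nlinarith
    calc d i ≤ i * K * D ^ 2 * Real.exp (L * (i * D)) := h1
      _ = (i * D) * (K * D * Real.exp (L * (i * D))) := by ring
      _ ≤ 1 * (K * D * Real.exp L) := by
          refine mul_le_mul h2 ?_ (by positivity) (by norm_num)
          exact mul_le_mul_of_nonneg_left h3 (by positivity)
      _ = K * Real.exp L * D := by ring
  intro i hi t ht
  have hs := ht0 i hi.le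
  have hs' : ((i + 1 : ℕ) : ℝ) / m ∈ Icc (0 : ℝ) 1 := ht0 (i + 1) hi
  have ht1 : t ∈ Icc (0 : ℝ) 1 := by
    refine ⟨hs.1.trans ht.1, ht.2.trans ?_⟩
    have := hs'.2
    push_cast at this
    exact this
  constructor
  · have h1 : pt (Q (i + 1)) (p i) - φ t z₀ = (pt (Q (i + 1)) (p i) - pt (Q i) (p i)) +
        (pt (Q i) (p i) - φ (i / m) z₀) - (φ t z₀ - φ (i / m) z₀) := by abel
    have h2 : |t - i / m| ≤ D := by
      rw [abs_of_nonneg (by linarith [ht.1])]
      have := ht.2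
      rw [hD]
      have h3 : (i + 1 : ℝ) / m = i / m + 1 / m := by ring
      linarith
    rw [h1]
    refine (norm_sub_le _ _).trans ((add_le_add ((norm_add_le _ _).trans
      (add_le_add (hz1 i hi) (hdi i hi.le))) ((hw _ hs t ht1).trans
        (mul_le_mul_of_nonneg_left h2 hL))).trans (le_of_eq ?_))
    rw [hdiv]
    ring
  · have h1 := hdi m le_rfl
    have h2 : d m = ‖pt (Q m) (p m) - φ 1 z₀‖ := by
      show ‖pt (Q m) (p m) - φ ((m : ℝ) / m) z₀‖ = _
      rw [div_self hm0.ne']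
    rw [h2] at h1
    refine h1.trans ?_
    rw [hdiv]
    nlinarith

end

end TN
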