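import Pool.Agent.TN.Bnd
import Pool.Agent.TN.Dis
import Pool.Agent.TN.Gro

/-!
# TN-5: the limit of the discrete orbits
-/

set_option autoImplicit false

open MeasureTheory Set Pool.Agent.H68.VD
open scoped ENNReal ContDiff

namespace TN

noncomputable section

variable {n : ℕ}

private theorem lim_riem {m : ℕ} (hm : 0 < m) {f : ℝ → ℝ} (hf : Continuous f) (c : ℕ → ℝ) {e : ℝ}
    (h : ∀ i < m, ∀ t ∈ Icc ((i : ℝ) / m) ((i + 1 : ℝ) / m), |c i - f t| ≤ e) :
    |∑ i ∈ Finset.range m, 1 / m * c i - ∫ t in (0 : ℝ)..1, f t| ≤ e := by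
  have hn' : (0 : ℝ) < m := Nat.cast_pos.2 hm
  have h1 : ∑ i ∈ Finset.range m, ∫ t in ((i : ℝ) / m)..((i + 1 : ℝ) / m), f t =
      ∫ t in (0 : ℝ)..1, f t := by
    have h2 := intervalIntegral.sum_integral_adjacent_intervals (μ := volume) (f := f)
      (a := fun i : ℕ => (i : ℝ) / m) (n := m) (fun k _ => hf.intervalIntegrable _ _)
    simp only [Nat.cast_zero, zero_div, div_self hn'.ne', Nat.cast_add, Nat.cast_one] at h2
    exact h2
  rw [← h1, ← Finset.sum_sub_distrib]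
  have h3 : ∀ i ∈ Finset.range m,
      |1 / (m : ℝ) * c i - ∫ t in ((i : ℝ) / m)..((i + 1 : ℝ) / m), f t| ≤ e * (1 / m) := by
    intro i hi
    have hi' := Finset.mem_range.1 hi
    have hlen : ((i : ℝ) + 1) / m - (i : ℝ) / m = 1 / m := by ring
    have hle : (i : ℝ) / m ≤ (i + 1 : ℝ) / m := by
      have : 0 ≤ 1 / (m : ℝ) := by positivity
      linarith
    have h4 : 1 / (m : ℝ) * c i - ∫ t in ((i : ℝ) / m)..((i + 1 : ℝ) / m), f t =
        ∫ t in ((i : ℝ) / m)..((i + 1 : ℝ) / m), (c i - f t) := by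
      rw [intervalIntegral.integral_sub intervalIntegrable_const
        (hf.intervalIntegrable _ _), intervalIntegral.integral_const, hlen, smul_eq_mul]
    rw [h4]
    have h5 := intervalIntegral.norm_integral_le_of_norm_le_const
      (a := (i : ℝ) / m) (b := (i + 1 : ℝ) / m) (C := e) (f := fun t => c i - f t) ?_
    · rw [hlen, abs_of_nonneg (by positivity : 0 ≤ 1 / (m : ℝ))] at h5
      exact h5
    · intro t ht
      rw [uIoc_of_le hle] at ht
      exact h i hi' t ⟨ht.1.le, ht.2⟩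
  refine (Finset.abs_sum_le_sum_abs _ _).trans ((Finset.sum_le_sum h3).trans ?_)
  rw [Finset.sum_const, Finset.card_range, nsmul_eq_mul]
  refine le_of_eq ?_
  field_simp

private theorem lim_agr_lip {u : ℝ → Eu (n + n) → Eu (n + n)} {H : ℝ → Eu (n + n) → ℝ} {L : ℝ}
    (hL : 0 ≤ L)
    (h1 : ∀ t ∈ Icc (0 : ℝ) 1, ∀ x, ‖u t x‖ ≤ L)
    (h2 : ∀ t ∈ Icc (0 : ℝ) 1, ∀ t' ∈ Icc (0 : ℝ) 1, ∀ x x',
      ‖u t x - u t' x'‖ ≤ L * (|t - t'| + ‖x - x'‖))
    (h3 : ∀ t ∈ Icc (0 : ℝ) 1, ∀ t' ∈ Icc (0 : ℝ) 1, ∀ x x',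
      |H t x - H t' x'| ≤ L * (|t - t'| + ‖x - x'‖))
    {a : Eu n} {t t' : ℝ} (ht : t ∈ Icc (0 : ℝ) 1) (ht' : t' ∈ Icc (0 : ℝ) 1)
    {x x' : Eu (n + n)} (hx : ‖qq x - a‖ ≤ L) :
    |agr u H a t x - agr u H a t' x'| ≤ (L * L + 2 * L) * (|t - t'| + ‖x - x'‖) := by
  have e1 : agr u H a t x - agr u H a t' x' = inner ℝ (qq x - a) (pp (u t x - u t' x')) +
      inner ℝ (qq (x - x')) (pp (u t' x')) + (H t x - H t' x') := by
    simp only [agr, pp_sub, qq_sub, inner_sub_left, inner_sub_right]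
    ring
  have b1 : ‖pp (u t x - u t' x')‖ ≤ L * (|t - t'| + ‖x - x'‖) :=
    (norm_pp_le _).trans (h2 t ht t' ht' x x')
  have b2 : ‖qq (x - x')‖ ≤ ‖x - x'‖ := norm_qq_le _
  have b3 : ‖pp (u t' x')‖ ≤ L := (norm_pp_le _).trans (h1 t' ht' x')
  have b4 := h3 t ht t' ht' x x'
  have c1 : |inner ℝ (qq x - a) (pp (u t x - u t' x'))| ≤ L * (L * (|t - t'| + ‖x - x'‖)) :=
    (abs_real_inner_le_norm _ _).trans (mul_le_mul hx b1 (norm_nonneg _) hL)
  have c2 : |inner ℝ (qq (x - x')) (pp (u t' x'))| ≤ ‖x - x'‖ * L :=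
    (abs_real_inner_le_norm _ _).trans (mul_le_mul b2 b3 (norm_nonneg _) (norm_nonneg _))
  have c3 : 0 ≤ L * |t - t'| := mul_nonneg hL (abs_nonneg _)
  rw [e1]
  refine (abs_add_three _ _ _).trans ?_
  nlinarith [c1, c2, c3, b4]

private theorem lim_pt_cont (a : Eu n) : Continuous fun s : Eu n => pt a s := by
  have : (fun s : Eu n => pt a s) = fun s => iQ n a + iP n s := funext fun s => pt_eq a s
  rw [this]
  exact continuous_const.add (iP n).continuous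

private theorem lim_agr_cont {u : ℝ → Eu (n + n) → Eu (n + n)} {H : ℝ → Eu (n + n) → ℝ}
    {φ : ℝ → Eu (n + n) → Eu (n + n)} (h : HFl u H φ) (a : Eu n) :
    Continuous fun z : Eu n × ℝ => agr u H a z.2 (φ z.2 (pt a z.1)) := by
  have c1 : Continuous fun z : Eu n × ℝ => pt a z.1 := (lim_pt_cont a).comp continuous_fst
  have c2 : Continuous fun z : Eu n × ℝ => φ z.2 (pt a z.1) :=
    h.fs.continuous.comp (continuous_snd.prodMk c1)
  have c3 : Continuous fun z : Eu n × ℝ => u z.2 (φ z.2 (pt a z.1)) :=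
    h.us.continuous.comp (continuous_snd.prodMk c2)
  have c4 : Continuous fun z : Eu n × ℝ => H z.2 (φ z.2 (pt a z.1)) :=
    h.Hs.continuous.comp (continuous_snd.prodMk c2)
  have c5 : Continuous fun z : Eu n × ℝ => qq (φ z.2 (pt a z.1)) :=
    (qL n).continuous.comp c2
  have c6 : Continuous fun z : Eu n × ℝ => pp (u z.2 (φ z.2 (pt a z.1))) :=
    (pL n).continuous.comp c3
  exact ((c5.sub continuous_const).inner c6).add c4

private theorem lim_orb_bd {u : ℝ → Eu (n + n) → Eu (n + n)} {L : ℝ}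
    (h1 : ∀ t ∈ Icc (0 : ℝ) 1, ∀ x, ‖u t x‖ ≤ L) {m : ℕ} (hm : 0 < m) {Q p : ℕ → Eu n}
    (ho : Orb u m Q p) (i : ℕ) (hi : i ≤ m) :
    ‖Q i - Q 0‖ ≤ L * (i / m) ∧ ‖p i - p 0‖ ≤ L * (i / m) := by
  have hn' : (0 : ℝ) < m := Nat.cast_pos.2 hm
  induction i with
  | zero => simp
  | succ i ih =>
    obtain ⟨a1, a2⟩ := ih (by omega)
    have hi' : i < m := by omega
    have ht : (i : ℝ) / m ∈ Icc (0 : ℝ) 1 :=
      ⟨by positivity, (div_le_one hn').2 (by exact_mod_cast hi'.le)⟩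
    have e1 := ho.hQ i hi'
    have e2 := ho.hp i hi'
    have b := h1 _ ht (pt (Q (i + 1)) (p i))
    have b0 : ‖(1 / (m : ℝ)) • qq (u (i / m) (pt (Q (i + 1)) (p i)))‖ ≤ 1 / m * L := by
      rw [norm_smul, Real.norm_of_nonneg (by positivity : 0 ≤ 1 / (m : ℝ))]
      exact mul_le_mul_of_nonneg_left ((norm_qq_le _).trans b) (by positivity)
    have b1 : ‖(1 / (m : ℝ)) • pp (u (i / m) (pt (Q (i + 1)) (p i)))‖ ≤ 1 / m * L := by
      rw [norm_smul, Real.norm_of_nonneg (by positivity : 0 ≤ 1 / (m : ℝ))]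
      exact mul_le_mul_of_nonneg_left ((norm_pp_le _).trans b) (by positivity)
    have hsum : L * (((i + 1 : ℕ) : ℝ) / m) = L * (i / m) + 1 / m * L := by
      push_cast
      ring
    rw [hsum]
    constructor
    · have e3 : Q (i + 1) - Q 0 = (Q i - Q 0) +
          (1 / (m : ℝ)) • qq (u (i / m) (pt (Q (i + 1)) (p i))) := by
        rw [sub_add_eq_add_sub, ← e1]
      rw [e3]
      exact (norm_add_le _ _).trans (add_le_add a1 b0)
    · have e3 : p (i + 1) - p 0 = (p i - p 0) +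
          (1 / (m : ℝ)) • pp (u (i / m) (pt (Q (i + 1)) (p i))) := by
        rw [sub_add_eq_add_sub, ← e2]
      rw [e3]
      exact (norm_add_le _ _).trans (add_le_add a2 b1)

private theorem lim_one {u : ℝ → Eu (n + n) → Eu (n + n)} {H : ℝ → Eu (n + n) → ℝ}
    {φ : ℝ → Eu (n + n) → Eu (n + n)}
    (h : HFl u H φ) (a y : Eu n) (g : ℝ → ℝ)
    (hg : ∀ t ∈ Icc (0 : ℝ) 1, ∀ r, |H t (pt a r)| ≤ g t) :
    ∃ L D : ℝ, ∀ m : ℕ, 0 < m → ∃ s : Eu n, ‖s - y‖ ≤ L ∧ ‖pp (φ 1 (pt a s)) - y‖ ≤ D / m ∧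
      |act u H φ a s| ≤ ∑ i ∈ Finset.range m, 1 / m * g (i / m) + D / m := by
  obtain ⟨L, hL, h1, h2, h3, -⟩ := h.bnd
  obtain ⟨C, hC, hG⟩ := gron h
  refine ⟨L, C + (L * L + 2 * L) * (1 + C), fun m hm => ?_⟩
  obtain ⟨Q, p, ho, hQ, hp, hs⟩ := discrete h a y g hg m hm
  have hn' : (0 : ℝ) < m := Nat.cast_pos.2 hm
  have hK : 0 ≤ (L * L + 2 * L) * (1 + C) := by positivity
  refine ⟨p 0, ?_, ?_, ?_⟩
  · have := (lim_orb_bd h1 hm ho m le_rfl).2
    rw [hp, div_self hn'.ne', mul_one] at this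
    rwa [norm_sub_rev]
  · have h4 := (hG m hm Q p ho 0 hm 0 ⟨by simp, by positivity⟩).2
    have h5 : ‖pp (pt (Q m) (p m)) - pp (φ 1 (pt (Q 0) (p 0)))‖ ≤ C / m := by
      rw [← pp_sub]
      exact (norm_pp_le _).trans h4
    rw [pp_pt, hp, hQ, norm_sub_rev] at h5
    refine h5.trans ?_
    exact div_le_div_of_nonneg_right (by linarith) hn'.le
  · have hc : Continuous fun t => agr u H a t (φ t (pt a (p 0))) :=
      (lim_agr_cont h a).comp (Continuous.prodMk continuous_const continuous_id)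
    have h4 := lim_riem hm hc (fun i => agr u H a (i / m) (pt (Q (i + 1)) (p i)))
      (e := (L * L + 2 * L) * (1 + C) / m) ?_
    · have h5 : |act u H φ a (p 0)| ≤
          |∑ i ∈ Finset.range m, 1 / m * agr u H a (i / m) (pt (Q (i + 1)) (p i))| +
          (L * L + 2 * L) * (1 + C) / m := by
        have h6 := abs_sub_abs_le_abs_sub (act u H φ a (p 0))
          (∑ i ∈ Finset.range m, 1 / m * agr u H a (i / m) (pt (Q (i + 1)) (p i)))
        rw [abs_sub_comm] at h4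
        have h7 : |act u H φ a (p 0) -
            ∑ i ∈ Finset.range m, 1 / m * agr u H a (i / m) (pt (Q (i + 1)) (p i))| ≤
            (L * L + 2 * L) * (1 + C) / m := h4
        linarith
      have h8 : (L * L + 2 * L) * (1 + C) / m ≤ (C + (L * L + 2 * L) * (1 + C)) / m :=
        div_le_div_of_nonneg_right (by linarith) hn'.le
      linarith
    · intro i hi t ht
      have hi1 : (i : ℝ) + 1 ≤ m := by exact_mod_cast hi
      have ht0 : (0 : ℝ) ≤ (i : ℝ) / m := by positivity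
      have ht1 : ((i : ℝ) + 1) / m ≤ 1 := (div_le_one hn').2 hi1
      have hti : (i : ℝ) / m ≤ ((i : ℝ) + 1) / m := ht.1.trans ht.2
      have hlen : ((i : ℝ) + 1) / m - (i : ℝ) / m = 1 / m := by ring
      have hx : ‖qq (pt (Q (i + 1)) (p i)) - a‖ ≤ L := by
        have h5 := (lim_orb_bd h1 hm ho (i + 1) hi).1
        rw [qq_pt, ← hQ]
        refine h5.trans ?_
        push_cast
        calc L * (((i : ℝ) + 1) / m) ≤ L * 1 := mul_le_mul_of_nonneg_left ht1 hL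
          _ = L := mul_one L
      have h5 := lim_agr_lip (H := H) (a := a) hL h1 h2 h3 (t := (i : ℝ) / m) (t' := t)
        ⟨ht0, hti.trans ht1⟩ ⟨ht0.trans ht.1, ht.2.trans ht1⟩ (x := pt (Q (i + 1)) (p i))
        (x' := φ t (pt a (p 0))) hx
      refine h5.trans ?_
      have h6 := (hG m hm Q p ho i hi t ht).1
      rw [hQ] at h6
      have h7 : |(i : ℝ) / m - t| ≤ 1 / m := by
        rw [abs_sub_comm, abs_of_nonneg (by linarith [ht.1])]
        linarith [ht.2]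
      calc (L * L + 2 * L) * (|(i : ℝ) / m - t| + ‖pt (Q (i + 1)) (p i) - φ t (pt a (p 0))‖)
          ≤ (L * L + 2 * L) * (1 / m + C / m) :=
            mul_le_mul_of_nonneg_left (add_le_add h7 h6) (by positivity)
        _ = (L * L + 2 * L) * (1 + C) / m := by ring

private theorem lim_riem_lim {g : ℝ → ℝ} (hg : Continuous g) :
    Filter.Tendsto (fun n : ℕ => ∑ i ∈ Finset.range (n + 1),
      1 / ((n + 1 : ℕ) : ℝ) * g (i / ((n + 1 : ℕ) : ℝ))) Filter.atTop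
      (nhds (∫ t in (0 : ℝ)..1, g t)) := by
  rw [Metric.tendsto_atTop]
  intro ε hε
  have huc : UniformContinuousOn g (Icc 0 1) :=
    isCompact_Icc.uniformContinuousOn_of_continuous hg.continuousOn
  obtain ⟨δ, hδ, hu⟩ := Metric.uniformContinuousOn_iff.1 huc (ε / 2) (by positivity)
  obtain ⟨N, hN⟩ := exists_nat_one_div_lt hδ
  refine ⟨N, fun n hn => ?_⟩
  rw [Real.dist_eq]
  have hn' : (0 : ℝ) < ((n + 1 : ℕ) : ℝ) := Nat.cast_pos.2 (Nat.succ_pos n)
  have hlt : 1 / ((n + 1 : ℕ) : ℝ) < δ := by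
    refine lt_of_le_of_lt ?_ hN
    apply one_div_le_one_div_of_le (by positivity)
    push_cast
    have : (N : ℝ) ≤ n := by exact_mod_cast hn
    linarith
  refine lt_of_le_of_lt (lim_riem (Nat.succ_pos n) hg (fun i => g (i / ((n + 1 : ℕ) : ℝ)))
    (e := ε / 2) ?_) (by linarith)
  intro i hi t ht
  have hi1 : (i : ℝ) + 1 ≤ ((n + 1 : ℕ) : ℝ) := by exact_mod_cast hi
  have ht0 : (0 : ℝ) ≤ (i : ℝ) / ((n + 1 : ℕ) : ℝ) := by positivity
  have ht1 : ((i : ℝ) + 1) / ((n + 1 : ℕ) : ℝ) ≤ 1 := (div_le_one hn').2 hi1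
  have hti : (i : ℝ) / ((n + 1 : ℕ) : ℝ) ≤ ((i : ℝ) + 1) / ((n + 1 : ℕ) : ℝ) := ht.1.trans ht.2
  have hlen : ((i : ℝ) + 1) / ((n + 1 : ℕ) : ℝ) - (i : ℝ) / ((n + 1 : ℕ) : ℝ) =
      1 / ((n + 1 : ℕ) : ℝ) := by ring
  have h7 : |(i : ℝ) / ((n + 1 : ℕ) : ℝ) - t| ≤ 1 / ((n + 1 : ℕ) : ℝ) := by
    rw [abs_sub_comm, abs_of_nonneg (by linarith [ht.1])]
    linarith [ht.2]
  have h8 := hu ((i : ℝ) / ((n + 1 : ℕ) : ℝ)) ⟨ht0, hti.trans ht1⟩ t
    ⟨ht0.trans ht.1, ht.2.trans ht1⟩ (by rw [Real.dist_eq]; exact lt_of_le_of_lt h7 hlt)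
  rw [Real.dist_eq] at h8
  exact h8.le

theorem key {u : ℝ → Eu (n + n) → Eu (n + n)} {H : ℝ → Eu (n + n) → ℝ}
    {φ : ℝ → Eu (n + n) → Eu (n + n)} (h : HFl u H φ) (a y : Eu n) (g : ℝ → ℝ) (hgc : Continuous g)
    (hg : ∀ t ∈ Icc (0 : ℝ) 1, ∀ r, |H t (pt a r)| ≤ g t) :
    ∃ s, pp (φ 1 (pt a s)) = y ∧ |act u H φ a s| ≤ ∫ t in (0 : ℝ)..1, g t := by
  obtain ⟨L, D, hone⟩ := lim_one h a y g hg
  choose s hs1 hs2 hs3 using fun m : ℕ => hone (m + 1) (Nat.succ_pos m)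
  have hmem : ∀ m, s m ∈ Metric.closedBall y L := by
    intro m
    rw [mem_closedBall_iff_norm]
    exact hs1 m
  obtain ⟨s0, -, ψ, hψ, hlim⟩ := (isCompact_closedBall y L).tendsto_subseq hmem
  have hD : Filter.Tendsto (fun m : ℕ => D / ((m + 1 : ℕ) : ℝ)) Filter.atTop (nhds 0) := by
    have h1 : Filter.Tendsto (fun m : ℕ => D * (1 / ((m : ℝ) + 1))) Filter.atTop
        (nhds (D * 0)) := tendsto_one_div_add_atTop_nhds_zero_nat.const_mul D
    rw [mul_zero] at h1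
    refine h1.congr fun m => ?_
    push_cast
    ring
  have c1 : Continuous fun s : Eu n => pp (φ 1 (pt a s)) := by
    have c2 : Continuous fun s : Eu n => φ 1 (pt a s) :=
      h.fs.continuous.comp (continuous_const.prodMk (lim_pt_cont a))
    exact (pL n).continuous.comp c2
  have c3 : Continuous fun s : Eu n => act u H φ a s :=
    intervalIntegral.continuous_parametric_intervalIntegral_of_continuous' (lim_agr_cont h a) 0 1
  refine ⟨s0, ?_, ?_⟩
  · have h1 : Filter.Tendsto (fun k => ‖pp (φ 1 (pt a (s (ψ k)))) - y‖) Filter.atTop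
        (nhds ‖pp (φ 1 (pt a s0)) - y‖) :=
      (((c1.sub continuous_const).norm).tendsto s0).comp hlim
    have h2 : ‖pp (φ 1 (pt a s0)) - y‖ ≤ 0 :=
      le_of_tendsto_of_tendsto' h1 (hD.comp hψ.tendsto_atTop) fun k => hs2 (ψ k)
    exact sub_eq_zero.1 (norm_le_zero_iff.1 h2)
  · have h1 : Filter.Tendsto (fun k => |act u H φ a (s (ψ k))|) Filter.atTop
        (nhds |act u H φ a s0|) := ((c3.abs).tendsto s0).comp hlim
    have h2 := ((lim_riem_lim hgc).add hD).comp hψ.tendsto_atTop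
    rw [add_zero] at h2
    exact le_of_tendsto_of_tendsto' h1 h2 fun k => hs3 (ψ k)

end

end TN
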