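import Pool.Agent.TN.Lin
import Pool.Agent.H68.VD.Flux
import Pool.Agent.H68.VD.InfD

/-!
Project TN, row TN-12: shears, the diameter is infinite (from the statements of TN-10, TN-11).
-/

set_option autoImplicit false

open MeasureTheory Set Pool.Agent.H68.VD
open scoped ENNReal ContDiff

namespace TN

noncomputable section

variable {n : ℕ}

/-- the derivative of the profile -/
private def kap (M r : ℝ) : ℝ := M * (2 * Real.pi) * Real.cos (2 * Real.pi * r)

/-- the path of shears -/
private def shr (i : Fin n) (M t : ℝ) (x : Eu (n + n)) : Eu (n + n) :=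
  pt (qq x + (t * kap M (pp x i)) • ev i) (pp x)

private theorem kap_smooth (M : ℝ) : ContDiff ℝ ∞ (kap M) := by
  unfold kap
  fun_prop

private theorem kap_int (M r : ℝ) (m : ℤ) : kap M (r + m) = kap M r := by
  unfold kap
  rw [show 2 * Real.pi * (r + m) = 2 * Real.pi * r + m * (2 * Real.pi) by ring,
    Real.cos_add_int_mul_two_pi]

private theorem kap_half (M r : ℝ) : kap M (r + 1 / 2) = - kap M r := by
  unfold kap
  rw [show 2 * Real.pi * (r + 1 / 2) = 2 * Real.pi * r + Real.pi by ring, Real.cos_add_pi]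
  ring

/-- the momentum coordinate `i`, as a continuous linear form -/
private def pi' (i : Fin n) : Eu (n + n) →L[ℝ] ℝ := (EuclideanSpace.proj i : Eu n →L[ℝ] ℝ).comp (pL n)

private theorem pi'_apply (i : Fin n) (x : Eu (n + n)) : pi' i x = pp x i := rfl

private theorem kp_smooth (i : Fin n) (M : ℝ) : ContDiff ℝ ∞ (fun x : Eu (n + n) => kap M (pp x i)) :=
  (kap_smooth M).comp (pi' i).contDiff

private theorem shr_eq (i : Fin n) (M t : ℝ) (x : Eu (n + n)) :
    shr i M t x = x + (t * kap M (pp x i)) • iQ n (ev i) := by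
  refine ext_qp ?_ ?_ <;> simp [shr]

private theorem shr_smooth (i : Fin n) (M : ℝ) :
    ContDiff ℝ ∞ (fun q : ℝ × Eu (n + n) => shr i M q.1 q.2) := by
  simp only [shr_eq]
  exact contDiff_snd.add ((contDiff_fst.mul ((kp_smooth i M).comp contDiff_snd)).smul contDiff_const)

private theorem shr_bij (i : Fin n) (M t : ℝ) : Function.Bijective (shr i M t) := by
  refine Function.bijective_iff_has_inverse.2 ⟨shr i M (-t), fun x => ?_, fun x => ?_⟩
  · refine ext_qp ?_ ?_ <;> simp [shr, add_assoc]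
  · refine ext_qp ?_ ?_ <;> simp [shr, add_assoc]

private theorem shr_hasFDerivAt (i : Fin n) (M t : ℝ) (x : Eu (n + n)) :
    HasFDerivAt (shr i M t) (ContinuousLinearMap.id ℝ (Eu (n + n)) +
      ((t * deriv (kap M) (pp x i)) • pi' i).smulRight (iQ n (ev i))) x := by
  have h2 : HasDerivAt (kap M) (deriv (kap M) (pi' i x)) (pi' i x) :=
    ((kap_smooth M).differentiable (by simp) (pi' i x)).hasDerivAt
  have h4 := (h2.comp_hasFDerivAt x (pi' i).hasFDerivAt).const_mul t
  have h5 := (hasFDerivAt_id x).add (h4.smul_const (iQ n (ev i)))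
  have h6 : shr i M t = fun y : Eu (n + n) => id y + (t * (kap M ∘ pi' i) y) • iQ n (ev i) := by
    funext y
    rw [shr_eq]
    rfl
  rw [h6]
  refine h5.congr_fderiv ?_
  ext v
  simp only [add_apply, ContinuousLinearMap.smulRight_apply,
    smul_apply, smul_eq_mul, pi'_apply, mul_assoc]

private theorem shr_fderiv (i : Fin n) (M t : ℝ) (x v : Eu (n + n)) :
    fderiv ℝ (shr i M t) x v = v + ((t * deriv (kap M) (pp x i)) * pp v i) • pt (ev i) 0 := by
  rw [(shr_hasFDerivAt i M t x).fderiv]
  simp [pi'_apply]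

private theorem shr_det (i : Fin n) (M t : ℝ) (x : Eu (n + n)) : (fderiv ℝ (shr i M t) x).det = 1 := by
  rw [(shr_hasFDerivAt i M t x).fderiv, ContinuousLinearMap.det]
  have h : (↑(ContinuousLinearMap.id ℝ (Eu (n + n)) +
      ((t * deriv (kap M) (pp x i)) • pi' i).smulRight (iQ n (ev i))) :
        Eu (n + n) →ₗ[ℝ] Eu (n + n)) =
      LinearMap.transvection (((t * deriv (kap M) (pp x i)) • pi' i : Eu (n + n) →L[ℝ] ℝ) :
        Eu (n + n) →ₗ[ℝ] ℝ) (iQ n (ev i)) := by
    ext v
    rfl
  rw [h, LinearMap.transvection.det]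
  simp [pi'_apply]

private theorem inner_ev (i : Fin n) (v : Eu n) : inner ℝ (ev i) v = v i := by
  simp [ev, EuclideanSpace.inner_single_left]

private theorem shr_symp (i : Fin n) (M t : ℝ) (x v w : Eu (n + n)) :
    om (fderiv ℝ (shr i M t) x v) (fderiv ℝ (shr i M t) x w) = om v w := by
  rw [shr_fderiv, shr_fderiv, om_eq, om_eq]
  simp only [qq_add, qq_smul, pp_add, pp_smul, qq_pt, pp_pt, smul_zero, add_zero, inner_add_left,
    inner_add_right, inner_smul_left, inner_smul_right, inner_ev, real_inner_comm (ev i),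
    RCLike.conj_to_real]
  ring

private theorem shr_iv (i : Fin n) (M t : ℝ) (x : Eu (n + n)) (k : Fin (n + n) → ℤ) :
    shr i M t (x + iv k) = shr i M t x + iv k := by
  rw [shr_eq, shr_eq]
  have h : pp (x + iv k) i = pp x i + (k (Fin.natAdd n i) : ℤ) := by
    rw [pp_add, pp_iv]
    rfl
  rw [h, kap_int]
  exact add_right_comm _ _ _

private theorem shr_path (i : Fin n) (M : ℝ) : SPath (shr i M) where
  path :=
    { smooth := shr_smooth i M
      bij := shr_bij i M
      det := shr_det i M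
      equi := by
        rintro t g ⟨k, rfl⟩ x
        exact shr_iv i M t x k }
  symp := shr_symp i M

private theorem shr_zero (i : Fin n) (M : ℝ) : shr i M 0 = id := by
  funext x
  rw [shr_eq]
  simp

private theorem shr_zero' (i : Fin n) (t : ℝ) : shr i 0 t = id := by
  funext x
  rw [shr_eq]
  simp [kap]

private theorem sg_id (i : Fin n) : SG (id : Eu (n + n) → Eu (n + n)) :=
  ⟨shr i 0, shr_path i 0, shr_zero i 0, shr_zero' i 1⟩

private theorem sg_shr (i : Fin n) (M : ℝ) : SG (shr i M 1) := ⟨shr i M, shr_path i M, shr_zero i M, rfl⟩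

private theorem int_zero (i : Fin n) (M : ℝ) :
    ∫ x in cube (n + n), kap M (pp x i) • pt (ev i) 0 = 0 := by
  have h1 := FluxA.cov_gen (fun x : Eu (n + n) => x + pt 0 ((1 / 2 : ℝ) • ev i)) (by fun_prop)
    (Equiv.addRight (pt 0 ((1 / 2 : ℝ) • ev i))).bijective
    (fun x => by
      rw [fderiv_add_const, fderiv_fun_id]
      have : (ContinuousLinearMap.id ℝ (Eu (n + n))).det = 1 := LinearMap.det_id
      rw [this, abs_one]) (Equiv.refl _)
    (fun x k => by rw [add_right_comm]; rfl) (fun x => kap M (pp x i) • pt (ev i) 0)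
    (by
      intro x k
      show kap M (pp (x + iv k) i) • pt (ev i) 0 = _
      have h : pp (x + iv k) i = pp x i + (k (Fin.natAdd n i) : ℤ) := by
        rw [pp_add, pp_iv]
        rfl
      rw [h, kap_int])
  have h2 : (fun x : Eu (n + n) => kap M (pp (x + pt 0 ((1 / 2 : ℝ) • ev i)) i) • pt (ev i) 0) =
      fun x : Eu (n + n) => - (kap M (pp x i) • pt (ev i) 0) := by
    funext x
    have h : pp (x + pt 0 ((1 / 2 : ℝ) • ev i)) i = pp x i + 1 / 2 := by
      rw [pp_add, pp_pt]
      simp [ev]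
    rw [h, kap_half, neg_smul]
  rw [h2, integral_neg] at h1
  have h3 : (2 : ℝ) • (∫ x in cube (n + n), kap M (pp x i) • pt (ev i) 0) = 0 := by
    rw [two_smul]
    nth_rewrite 1 [← h1]
    exact neg_add_cancel _
  exact (smul_eq_zero.1 h3).resolve_left two_ne_zero

/-- the mean displacement of a lift of the shear -/
private theorem dsp_shr (i : Fin n) (M : ℝ) (k : Fin (n + n) → ℤ) :
    dsp (fun x => shr i M 1 x + iv k) = iv k := by
  unfold dsp
  have h1 : (fun x : Eu (n + n) => shr i M 1 x + iv k - x) =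
      fun x : Eu (n + n) => kap M (pp x i) • pt (ev i) 0 + iv k := by
    funext x
    rw [shr_eq, one_mul, iQ_apply]
    abel
  have hc : Continuous fun x : Eu (n + n) => kap M (pp x i) • (pt (ev i) 0 : Eu (n + n)) :=
    (kp_smooth i M).continuous.smul continuous_const
  rw [h1, integral_add (InfDA.intOn hc) (InfDA.intOn continuous_const), int_zero, zero_add]
  simp [Measure.real, HsA.vol_cube]

/-- The diameter is infinite, from the statements of the rows TN-10 and TN-11. -/
theorem shr_diam_top (hn : 0 < n) {N : (Eu (n + n) → Eu (n + n)) → ℝ≥0∞}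
    (hfront : ∀ φ : ℝ → Eu (n + n) → Eu (n + n), SPath φ → φ 0 = id → ∀ a : Eu n,
      ∃ A : Eu n → ℝ, FrA (nrm (φ 1)) a A ∧
        ∀ y, ∃ s, pp (nrm (φ 1) (pt a s)) = y ∧ |A s| ≤ Ebd 0 φ a)
    (havg : ∃ C : ℝ, 0 ≤ C ∧ ∀ (i : Fin 2) (φ : ℝ → Eu (n + n) → Eu (n + n)), SPath φ →
      ∫⁻ a in cube n, ENNReal.ofReal (Ebd i φ a) ≤ ENNReal.ofReal C * len N φ) :
    sdiam N = ⊤ := by
  obtain ⟨C, hC, hN⟩ := havg
  set i : Fin n := ⟨0, hn⟩ with hi
  have key : ∀ M : ℝ, 0 ≤ M →
      ENNReal.ofReal M ≤ ENNReal.ofReal (C + 1) * sdist N id (shr i M 1) := by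
    intro M hM
    have h1 : ENNReal.ofReal (C + 1) ≠ 0 := by
      rw [Ne, ENNReal.ofReal_eq_zero]; linarith
    rw [mul_comm, ← ENNReal.div_le_iff h1 ENNReal.ofReal_ne_top]
    refine le_iInf fun ψ => le_iInf fun hψ => ?_
    obtain ⟨hp, h0, γ, ⟨k, rfl⟩, h2⟩ := hψ
    rw [ENNReal.div_le_iff h1 ENNReal.ofReal_ne_top]
    have h3 : ψ 1 = fun x => shr i M 1 x + iv k := h2
    have h4 : ∀ x, nrm (ψ 1) x = shr i M 1 x := by
      intro x
      unfold nrm
      rw [h3, dsp_shr, add_sub_cancel_right]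
    have h5 : ∀ a, M ≤ Ebd 0 ψ a := by
      intro a
      obtain ⟨A, hA, hy⟩ := hfront ψ hp h0 a
      have hpp : ∀ r, pp (nrm (ψ 1) (pt a r)) = r := fun r => by
        rw [h4]
        simp [shr]
      have h6 : ∀ s, HasFDerivAt A (kap M (s i) • (EuclideanSpace.proj i : Eu n →L[ℝ] ℝ)) s := by
        intro s
        have h7 := hA s
        have h8 : (fun r => pp (nrm (ψ 1) (pt a r))) = fun r => r := funext hpp
        have h9 : qq (nrm (ψ 1) (pt a s)) - a = kap M (s i) • ev i := by
          rw [h4]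
          simp [shr]
        rw [h8, h9] at h7
        refine h7.congr_fderiv ?_
        ext v
        simp [inner_ev]
      have h10 : ∀ s : Eu n, HasFDerivAt (fun s : Eu n => M * Real.sin (2 * Real.pi * s i))
          (kap M (s i) • (EuclideanSpace.proj i : Eu n →L[ℝ] ℝ)) s := by
        intro s
        have h11 : HasDerivAt (fun r : ℝ => M * Real.sin (2 * Real.pi * r)) (kap M (s i)) (s i) := by
          have := (((hasDerivAt_id (s i)).const_mul (2 * Real.pi)).sin).const_mul M
          refine this.congr_deriv ?_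
          simp [kap]
          ring
        exact HasDerivAt.comp_hasFDerivAt (h₂ := fun r : ℝ => M * Real.sin (2 * Real.pi * r)) s h11
          (EuclideanSpace.proj i : Eu n →L[ℝ] ℝ).hasFDerivAt
      have h11 : ∀ s : Eu n, A s - M * Real.sin (2 * Real.pi * s i) = A 0 := by
        intro s
        have h12 : ∀ s, HasFDerivAt (fun s => A s - M * Real.sin (2 * Real.pi * s i))
            (0 : Eu n →L[ℝ] ℝ) s := by
          intro s
          have h18 := (h6 s).sub (h10 s)
          rw [sub_self] at h18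
          exact h18
        have h13 := is_const_of_fderiv_eq_zero (𝕜 := ℝ) (fun s => (h12 s).differentiableAt)
          (fun s => (h12 s).fderiv) s 0
        simpa using h13
      obtain ⟨s, hs, hs'⟩ := hy ((1 / 4 : ℝ) • ev i)
      obtain ⟨t, ht, ht'⟩ := hy ((3 / 4 : ℝ) • ev i)
      rw [hpp] at hs ht
      have e1 : s i = 1 / 4 := by rw [hs]; simp [ev]
      have e2 : t i = 3 / 4 := by rw [ht]; simp [ev]
      have h14 := h11 s
      have h15 := h11 t
      rw [e1, show 2 * Real.pi * (1 / 4) = Real.pi / 2 by ring, Real.sin_pi_div_two] at h14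
      rw [e2, show 2 * Real.pi * (3 / 4) = Real.pi / 2 + Real.pi by ring, Real.sin_add_pi,
        Real.sin_pi_div_two] at h15
      have h16 := abs_le.1 hs'
      have h17 := abs_le.1 ht'
      linarith [h16.2, h17.1]
    calc ENNReal.ofReal M = ∫⁻ a in cube n, ENNReal.ofReal M := by
          simp [HsA.vol_cube]
      _ ≤ ∫⁻ a in cube n, ENNReal.ofReal (Ebd 0 ψ a) :=
          lintegral_mono fun a => ENNReal.ofReal_le_ofReal (h5 a)
      _ ≤ ENNReal.ofReal C * len N ψ := hN 0 ψ hp
      _ ≤ ENNReal.ofReal (C + 1) * len N ψ := by gcongr; linarith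
      _ = len N ψ * ENNReal.ofReal (C + 1) := mul_comm _ _
  have h1 : ∀ M : ℝ, 0 ≤ M → ENNReal.ofReal M ≤ ENNReal.ofReal (C + 1) * sdiam N := by
    intro M hM
    refine (key M hM).trans ?_
    gcongr
    exact le_iSup₂_of_le id (sg_id i) (le_iSup₂_of_le (shr i M 1) (sg_shr i M) le_rfl)
  by_contra hne
  have h2 : ENNReal.ofReal (C + 1) * sdiam N ≠ ⊤ := ENNReal.mul_ne_top ENNReal.ofReal_ne_top hne
  have h3 := h1 ((ENNReal.ofReal (C + 1) * sdiam N).toReal + 1) (by positivity)
  rw [ENNReal.ofReal_add (by positivity) zero_le_one, ENNReal.ofReal_toReal h2, ENNReal.ofReal_one] at h3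
  exact absurd h3 (not_le.2 (ENNReal.lt_add_right h2 one_ne_zero))

end

end TN
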