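import Pool.Agent.TN.Cvg

/-!
# Project TN, TN-23: the supremum over a set of coordinates
-/

set_option autoImplicit false

open MeasureTheory Set Pool.Agent.H68.VD
open scoped ENNReal ContDiff

namespace TN

noncomputable section

/-! ### One line -/

/-- Hölder on a short interval -/
private theorem su_short {p l : ℝ} (hp : 1 < p) (hl : 1 ≤ l) {g : ℝ → ℝ} (hg : Continuous g)
    (hgp : ∀ r, g (r + 1) = g r) (r : ℝ) :
    ENNReal.ofReal l * ∫⁻ x in Ioc (r - l⁻¹) r, ‖g x‖ₑ ≤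
      ENNReal.ofReal (l ^ (1 / p)) * (∫⁻ x in Ioc (0 : ℝ) 1, ‖g x‖ₑ ^ p) ^ (1 / p) := by
  have hl0 : 0 < l := by linarith
  have hp0 : 0 < p := by linarith
  have hpq : p.HolderConjugate (p / (p - 1)) := Real.HolderConjugate.conjExponent hp
  have h1 := ENNReal.lintegral_mul_le_Lp_mul_Lq (volume.restrict (Ioc (r - l⁻¹) r)) hpq
    (f := fun x => ‖g x‖ₑ) (g := fun _ => 1) hg.enorm.measurable.aemeasurable
    aemeasurable_const
  simp only [Pi.mul_apply, mul_one, ENNReal.one_rpow, lintegral_const, one_mul,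
    Measure.restrict_apply MeasurableSet.univ, univ_inter, Real.volume_Ioc] at h1
  have h2 : r - (r - l⁻¹) = l⁻¹ := by ring
  rw [h2] at h1
  have h3 : ∫⁻ x in Ioc (r - l⁻¹) r, ‖g x‖ₑ ^ p ≤ ∫⁻ x in Ioc (0 : ℝ) 1, ‖g x‖ₑ ^ p := by
    have h4 : Ioc (r - l⁻¹) r ⊆ Ioc (r - 1) (r - 1 + 1) := by
      refine Ioc_subset_Ioc ?_ (by linarith)
      have : l⁻¹ ≤ 1 := inv_le_one_of_one_le₀ hl
      linarith
    refine (lintegral_mono_set h4).trans (le_of_eq ?_)
    have h5 := (isAddFundamentalDomain_Ioc (one_pos : (0 : ℝ) < 1) (r - 1)).setLIntegral_eq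
      (isAddFundamentalDomain_Ioc (one_pos : (0 : ℝ) < 1) 0) (fun x => ‖g x‖ₑ ^ p) ?_
    · rw [h5, zero_add]
    · rintro ⟨y, hy⟩ x
      obtain ⟨m, rfl⟩ := AddSubgroup.mem_zmultiples_iff.1 hy
      have h6 : Function.Periodic g 1 := hgp
      have h7 := h6.zsmul m x
      change ‖g (m • (1 : ℝ) + x)‖ₑ ^ p = ‖g x‖ₑ ^ p
      rw [add_comm, h7]
  calc ENNReal.ofReal l * ∫⁻ x in Ioc (r - l⁻¹) r, ‖g x‖ₑ
      ≤ ENNReal.ofReal l * ((∫⁻ x in Ioc (r - l⁻¹) r, ‖g x‖ₑ ^ p) ^ (1 / p) *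
        ENNReal.ofReal l⁻¹ ^ (1 / (p / (p - 1)))) := by gcongr
    _ ≤ ENNReal.ofReal l * ((∫⁻ x in Ioc (0 : ℝ) 1, ‖g x‖ₑ ^ p) ^ (1 / p) *
        ENNReal.ofReal l⁻¹ ^ (1 / (p / (p - 1)))) := by gcongr
    _ = (ENNReal.ofReal l * ENNReal.ofReal l⁻¹ ^ (1 / (p / (p - 1)))) *
        (∫⁻ x in Ioc (0 : ℝ) 1, ‖g x‖ₑ ^ p) ^ (1 / p) := by ring
    _ = ENNReal.ofReal (l ^ (1 / p)) * (∫⁻ x in Ioc (0 : ℝ) 1, ‖g x‖ₑ ^ p) ^ (1 / p) := by
        congr 1
        rw [ENNReal.ofReal_rpow_of_pos (inv_pos.2 hl0), ← ENNReal.ofReal_mul hl0.le]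
        congr 1
        rw [Real.inv_rpow hl0.le, ← Real.rpow_neg hl0.le]
        nth_rewrite 1 [← Real.rpow_one l]
        rw [← Real.rpow_add hl0]
        congr 1
        field_simp
        ring

private theorem su_line {p l : ℝ} (hp : 1 < p) (hl : 1 ≤ l) {g g' : ℝ → ℝ} (hg : Continuous g)
    (hg' : Continuous g') (hgp : ∀ r, g (r + 1) = g r) (hgp' : ∀ r, g' (r + 1) = g' r)
    (hd : ∀ r, HasDerivAt g (l * g' r) r) (r : ℝ) :
    ‖g r‖ₑ ≤ ENNReal.ofReal (l ^ (1 / p)) * ((∫⁻ x in Ioc (0 : ℝ) 1, ‖g x‖ₑ ^ p) ^ (1 / p) +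
      (∫⁻ x in Ioc (0 : ℝ) 1, ‖g' x‖ₑ ^ p) ^ (1 / p)) := by
  have hl0 : 0 < l := by linarith
  have hle : r - l⁻¹ ≤ r := by
    have : 0 < l⁻¹ := inv_pos.2 hl0
    linarith
  have h1 : ∀ x ∈ Icc (r - l⁻¹) r, |g r| ≤ |g x| + l * ∫ y in (r - l⁻¹)..r, |g' y| := by
    intro x hx
    have h2 : ∫ y in x..r, l * g' y = g r - g x :=
      intervalIntegral.integral_eq_sub_of_hasDerivAt (fun y _ => hd y)
        ((continuous_const.mul hg').intervalIntegrable _ _)
    have h3 : |∫ y in x..r, l * g' y| ≤ ∫ y in x..r, |l * g' y| :=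
      intervalIntegral.abs_integral_le_integral_abs hx.2
    have h4 : ∫ y in x..r, |l * g' y| = l * ∫ y in x..r, |g' y| := by
      rw [← intervalIntegral.integral_const_mul]
      refine intervalIntegral.integral_congr fun y _ => ?_
      rw [abs_mul, abs_of_pos hl0]
    have h5 : ∫ y in x..r, |g' y| ≤ ∫ y in (r - l⁻¹)..r, |g' y| := by
      refine intervalIntegral.integral_mono_interval hx.1 hx.2 le_rfl
        (Filter.Eventually.of_forall fun y => abs_nonneg _) (hg'.abs.intervalIntegrable _ _)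
    have h6 : |g r| ≤ |g x| + |g r - g x| := by
      have := abs_add_le (g x) (g r - g x)
      rwa [add_sub_cancel] at this
    rw [← h2] at h6
    have h7 := mul_le_mul_of_nonneg_left h5 hl0.le
    linarith
  have h2 : |g r| ≤ l * (∫ y in (r - l⁻¹)..r, |g y|) + l * ∫ y in (r - l⁻¹)..r, |g' y| := by
    have h3 : ∫ _x in (r - l⁻¹)..r, |g r| ≤
        ∫ x in (r - l⁻¹)..r, (|g x| + l * ∫ y in (r - l⁻¹)..r, |g' y|) := by
      refine intervalIntegral.integral_mono_on hle (continuous_const.intervalIntegrable _ _)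
        ((hg.abs.add continuous_const).intervalIntegrable _ _) h1
    rw [intervalIntegral.integral_add (hg.abs.intervalIntegrable _ _)
      (continuous_const.intervalIntegrable _ _), intervalIntegral.integral_const,
      intervalIntegral.integral_const, smul_eq_mul, smul_eq_mul] at h3
    have h4 : r - (r - l⁻¹) = l⁻¹ := by ring
    rw [h4] at h3
    have h5 := mul_le_mul_of_nonneg_left h3 hl0.le
    rw [mul_add, ← mul_assoc, mul_inv_cancel₀ hl0.ne', one_mul, ← mul_assoc l l⁻¹,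
      mul_inv_cancel₀ hl0.ne', one_mul] at h5
    exact h5
  have h3 : ∀ {f : ℝ → ℝ}, Continuous f → ENNReal.ofReal (l * ∫ y in (r - l⁻¹)..r, |f y|) =
      ENNReal.ofReal l * ∫⁻ x in Ioc (r - l⁻¹) r, ‖f x‖ₑ := by
    intro f hf
    rw [ENNReal.ofReal_mul hl0.le, intervalIntegral.integral_of_le hle]
    congr 1
    have h4 := ofReal_integral_norm_eq_lintegral_enorm
      (μ := volume.restrict (Ioc (r - l⁻¹) r)) (f := f) (hf.integrableOn_Ioc)
    exact h4
  calc ‖g r‖ₑ = ENNReal.ofReal |g r| := by rw [← Real.norm_eq_abs, ofReal_norm]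
    _ ≤ ENNReal.ofReal (l * (∫ y in (r - l⁻¹)..r, |g y|) + l * ∫ y in (r - l⁻¹)..r, |g' y|) :=
        ENNReal.ofReal_le_ofReal h2
    _ ≤ ENNReal.ofReal (l * (∫ y in (r - l⁻¹)..r, |g y|)) +
        ENNReal.ofReal (l * ∫ y in (r - l⁻¹)..r, |g' y|) := ENNReal.ofReal_add_le
    _ = ENNReal.ofReal l * (∫⁻ x in Ioc (r - l⁻¹) r, ‖g x‖ₑ) +
        ENNReal.ofReal l * (∫⁻ x in Ioc (r - l⁻¹) r, ‖g' x‖ₑ) := by rw [h3 hg, h3 hg']
    _ ≤ _ := by
        rw [mul_add]
        exact add_le_add (su_short hp hl hg hgp r) (su_short hp hl hg' hgp' r)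

private theorem su_pow {p l : ℝ} (hp : 1 < p) (hl : 1 ≤ l) {g g' : ℝ → ℝ} (hg : Continuous g)
    (hg' : Continuous g') (hgp : ∀ r, g (r + 1) = g r) (hgp' : ∀ r, g' (r + 1) = g' r)
    (hd : ∀ r, HasDerivAt g (l * g' r) r) (r : ℝ) :
    ‖g r‖ₑ ^ p ≤ ENNReal.ofReal (2 ^ (p - 1) * l) *
      ∫⁻ x in Ico (0 : ℝ) 1, (‖g x‖ₑ ^ p + ‖g' x‖ₑ ^ p) := by
  have hl0 : 0 < l := by linarith
  have hp0 : 0 < p := by linarith
  have h1 := su_line hp hl hg hg' hgp hgp' hd r
  rw [setLIntegral_congr (Ico_ae_eq_Ioc (a := (0 : ℝ)) (b := 1)),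
    lintegral_add_left (hg.enorm.measurable.pow_const _)]
  set A := ∫⁻ x in Ioc (0 : ℝ) 1, ‖g x‖ₑ ^ p
  set B := ∫⁻ x in Ioc (0 : ℝ) 1, ‖g' x‖ₑ ^ p
  calc ‖g r‖ₑ ^ p ≤ (ENNReal.ofReal (l ^ (1 / p)) * (A ^ (1 / p) + B ^ (1 / p))) ^ p := by
        gcongr
    _ = ENNReal.ofReal l * (A ^ (1 / p) + B ^ (1 / p)) ^ p := by
        rw [ENNReal.mul_rpow_of_nonneg _ _ hp0.le, ENNReal.ofReal_rpow_of_pos (Real.rpow_pos_of_pos hl0 _),
          ← Real.rpow_mul hl0.le]
        congr 3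
        rw [one_div, inv_mul_cancel₀ hp0.ne', Real.rpow_one]
    _ ≤ ENNReal.ofReal l * (2 ^ (p - 1) * ((A ^ (1 / p)) ^ p + (B ^ (1 / p)) ^ p)) := by
        gcongr
        exact ENNReal.rpow_add_le_mul_rpow_add_rpow _ _ hp.le
    _ = ENNReal.ofReal (2 ^ (p - 1) * l) * (A + B) := by
        rw [← ENNReal.rpow_mul, ← ENNReal.rpow_mul, one_div, inv_mul_cancel₀ hp0.ne',
          ENNReal.rpow_one, ENNReal.rpow_one, ENNReal.ofReal_mul (by positivity),
          ← ENNReal.ofReal_rpow_of_pos two_pos, ENNReal.ofReal_ofNat]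
        ring

/-! ### Integration over one coordinate -/

/-- the point `x` with the coordinate `i` replaced by `t` -/
private def upd {m : ℕ} (x : Eu m) (i : Fin m) (t : ℝ) : Eu m :=
  WithLp.toLp 2 (Function.update x.ofLp i t)

private theorem upd_eq {m : ℕ} (x : Eu m) (i : Fin m) (t : ℝ) :
    upd x i t = (x - x i • ev i) + t • ev i := by
  ext j
  rcases eq_or_ne j i with h | h
  · subst h
    simp [upd, ev]
  · simp [upd, ev, h]

private theorem su_fub {m : ℕ} (i : Fin m) {F : Eu m → ℝ≥0∞} (hF : Measurable F) :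
    ∫⁻ x in cube m, ∫⁻ t in Ico (0 : ℝ) 1, F (upd x i t) = ∫⁻ x in cube m, F x := by
  classical
  have hmp := PiLp.volume_preserving_toLp (Fin m)
  have hme : MeasurableEmbedding (WithLp.toLp 2 : (Fin m → ℝ) → Eu m) :=
    (MeasurableEquiv.toLp 2 (Fin m → ℝ)).measurableEmbedding
  have hpre : (WithLp.toLp 2 : (Fin m → ℝ) → Eu m) ⁻¹' (cube m) =
      Set.univ.pi fun _ => Ico (0 : ℝ) 1 := by
    ext x
    simp [cube]
  have key : ∀ G : Eu m → ℝ≥0∞, ∫⁻ x in cube m, G x =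
      ∫⁻ x, G (WithLp.toLp 2 x) ∂(Measure.pi fun _ : Fin m => (volume : Measure ℝ).restrict (Ico 0 1)) := by
    intro G
    rw [← hmp.setLIntegral_comp_preimage_emb hme, hpre, volume_pi, Measure.restrict_pi_pi]
  rw [key, key]
  set μ : Fin m → Measure ℝ := fun _ => (volume : Measure ℝ).restrict (Ico 0 1) with hμ
  have : ∀ i, IsProbabilityMeasure (μ i) := fun i => ⟨by simp [hμ]⟩
  have hm : Measurable fun x : Fin m → ℝ => F (WithLp.toLp 2 x) := hF.comp hme.measurable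
  have e1 : ∀ G : (Fin m → ℝ) → ℝ≥0∞, Measurable G → ∫⁻ x, G x ∂(Measure.pi μ) =
      (∫⋯∫⁻_Finset.univ.erase i, (fun x => ∫⁻ t, G (Function.update x i t) ∂μ i) ∂μ) 0 := by
    intro G hG
    rw [lintegral_eq_lmarginal_univ (μ := μ) 0, lmarginal_erase' _ hG (Finset.mem_univ i)]
  have hm2 : Measurable fun x : Fin m → ℝ => ∫⁻ t, F (WithLp.toLp 2 (Function.update x i t)) ∂μ i := by
    refine Measurable.lintegral_prod_right' (f := fun z : (Fin m → ℝ) × ℝ =>
      F (WithLp.toLp 2 (Function.update z.1 i z.2))) ?_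
    exact hm.comp (measurable_update' (a := i))
  change ∫⁻ x, (∫⁻ t, F (WithLp.toLp 2 (Function.update x i t)) ∂μ i) ∂(Measure.pi μ) = _
  rw [e1 _ hm2, e1 _ hm]
  congr 1
  congr 1
  funext x
  simp only [Function.update_idem, lintegral_const]
  have h1 : (μ i) univ = 1 := (this i).measure_univ
  rw [h1, mul_one]

/-! ### The supremum over a set of coordinates -/

/-- the coordinates in `T` from `z`, the others from `x` -/
private def mix {m : ℕ} (T : Finset (Fin m)) (x z : Eu m) : Eu m :=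
  WithLp.toLp 2 (fun i => if i ∈ T then z i else x i)

private theorem mix_cont {m : ℕ} (T : Finset (Fin m)) (z : Eu m) : Continuous fun x => mix T x z := by
  unfold mix
  refine (PiLp.continuous_toLp 2 _).comp (continuous_pi fun j => ?_)
  split_ifs
  · exact continuous_const
  · exact (EuclideanSpace.proj j : Eu m →L[ℝ] ℝ).continuous

/-- the supremum over the coordinates in `T` -/
private def Su {m : ℕ} (p : ℝ) (T : Finset (Fin m)) (G : Eu m → ℝ) (x : Eu m) : ℝ≥0∞ :=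
  ⨆ z : Eu m, ‖G (mix T x z)‖ₑ ^ p

private theorem Su_meas {m : ℕ} {p : ℝ} (T : Finset (Fin m)) {G : Eu m → ℝ}
    (hG : Continuous G) : Measurable (Su p T G) := by
  unfold Su
  refine LowerSemicontinuous.measurable (lowerSemicontinuous_iSup fun z => ?_)
  refine Continuous.lowerSemicontinuous ?_
  exact (ENNReal.continuous_rpow_const).comp (hG.comp (mix_cont T z)).enorm

private theorem mix_insert {m : ℕ} {T : Finset (Fin m)} {i : Fin m} (hi : i ∉ T) (x z : Eu m)
    (t : ℝ) : upd (mix (insert i T) x z) i t = mix T (upd x i t) z := by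
  ext j
  rcases eq_or_ne j i with h | h
  · subst h
    simp [upd, mix, hi]
  · by_cases hj : j ∈ T <;> simp [upd, mix, h, hj]

private theorem ev_iv {m : ℕ} (i : Fin m) : (ev i : Eu m) = iv (Pi.single i 1) := by
  ext j
  rcases eq_or_ne j i with h | h
  · subst h
    simp [ev, iv]
  · simp [ev, iv, h]

private theorem Su_step {m : ℕ} {p : ℝ} (hp : 1 < p) {T : Finset (Fin m)} {i : Fin m} (hi : i ∉ T)
    {K : Eu m → Eu m} (hK : ContDiff ℝ ∞ K) (hKs : HasCompactSupport K) {l : ℝ} (hl : 1 ≤ l)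
    {u : Eu m → Eu m} (hu : Continuous u) (hup : Per u) (x : Eu m) :
    Su p (insert i T) (cvg K l u) x ≤ ENNReal.ofReal (2 ^ (p - 1) * l) *
      ∫⁻ t in Ico (0 : ℝ) 1, (Su p T (cvg K l u) (upd x i t) +
        Su p T (cvg (fun w => fderiv ℝ K w (ev i)) l u) (upd x i t)) := by
  have hl0 : 0 < l := by linarith
  have hK' : ContDiff ℝ ∞ (fun w => fderiv ℝ K w (ev i)) :=
    (hK.fderiv_right (by simp)).clm_apply contDiff_const
  have hKs' : HasCompactSupport (fun w => fderiv ℝ K w (ev i)) := hKs.fderiv_apply ℝ _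
  have hc : ∀ {K : Eu m → Eu m}, ContDiff ℝ ∞ K → HasCompactSupport K → Continuous (cvg K l u) := by
    intro K hK hKs
    exact (cvg_cont hK hKs hu).comp
      (Continuous.prodMk (continuous_const (y := (⟨l, hl0⟩ : Ioi (0 : ℝ)))) continuous_id)
  unfold Su
  refine iSup_le fun z => ?_
  set y := mix (insert i T) x z with hy
  have hline : Continuous fun r : ℝ => (y - y i • ev i) + r • ev i := by fun_prop
  have hper : ∀ K : Eu m → Eu m, ∀ r : ℝ, cvg K l u ((y - y i • ev i) + (r + 1) • ev i) =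
      cvg K l u ((y - y i • ev i) + r • ev i) := by
    intro K r
    rw [add_smul, one_smul, ← add_assoc]
    nth_rewrite 3 [ev_iv]
    exact cvg_per hup l _ _
  have h1 := su_pow hp hl ((hc hK hKs).comp hline) ((hc hK' hKs').comp hline)
    (fun r => hper K r) (fun r => hper _ r)
    (fun r => cvg_deriv hK hKs hu hl0 i (y - y i • ev i) r) (y i)
  simp only [Function.comp, sub_add_cancel] at h1
  refine h1.trans ?_
  gcongr with t
  · rw [← upd_eq, hy, mix_insert hi]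
    exact le_iSup (fun z => ‖cvg K l u (mix T (upd x i t) z)‖ₑ ^ p) z
  · rw [← upd_eq, hy, mix_insert hi]
    exact le_iSup (fun z => ‖cvg (fun w => fderiv ℝ K w (ev i)) l u (mix T (upd x i t) z)‖ₑ ^ p) z

private theorem Su_main {m : ℕ} {p : ℝ} (hp : 1 < p) (T : Finset (Fin m)) :
    ∀ K : Eu m → Eu m, ContDiff ℝ ∞ K → HasCompactSupport K →
    ∃ C : ℝ, 0 ≤ C ∧ ∃ (M : ℕ) (KK : Fin M → Eu m → Eu m),
      (∀ j, ContDiff ℝ ∞ (KK j) ∧ HasCompactSupport (KK j)) ∧
      ∀ l : ℝ, 1 ≤ l → ∀ u : Eu m → Eu m, Continuous u → Per u →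
        ∫⁻ x in cube m, Su p T (cvg K l u) x ≤
          ENNReal.ofReal (C * l ^ (T.card : ℝ)) * ∑ j, ∫⁻ x in cube m, ‖cvg (KK j) l u x‖ₑ ^ p := by
  classical
  induction T using Finset.induction_on with
  | empty =>
    intro K hK hKs
    refine ⟨1, zero_le_one, 1, fun _ => K, fun _ => ⟨hK, hKs⟩, fun l hl u hu hup => ?_⟩
    simp only [Finset.card_empty, Nat.cast_zero, Real.rpow_zero, mul_one, ENNReal.ofReal_one,
      one_mul, Finset.univ_unique, Finset.sum_const, Finset.card_singleton, one_smul]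
    refine lintegral_mono fun x => ?_
    unfold Su
    refine iSup_le fun z => ?_
    have : mix ∅ x z = x := by
      ext j
      simp [mix]
    rw [this]
  | insert i T hi ih =>
    intro K hK hKs
    have hK' : ContDiff ℝ ∞ (fun w => fderiv ℝ K w (ev i)) :=
      (hK.fderiv_right (by simp)).clm_apply contDiff_const
    have hKs' : HasCompactSupport (fun w => fderiv ℝ K w (ev i)) := hKs.fderiv_apply ℝ _
    obtain ⟨C₁, hC₁, M₁, KK₁, hKK₁, h₁⟩ := ih K hK hKs
    obtain ⟨C₂, hC₂, M₂, KK₂, hKK₂, h₂⟩ := ih _ hK' hKs'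
    refine ⟨2 ^ (p - 1) * (C₁ + C₂), by positivity, M₁ + M₂,
      fun j => Fin.addCases (fun j => KK₁ j) (fun j => KK₂ j) j, ?_, ?_⟩
    · intro j
      refine Fin.addCases (fun j => ?_) (fun j => ?_) j
      · simp only [Fin.addCases_left]
        exact hKK₁ j
      · simp only [Fin.addCases_right]
        exact hKK₂ j
    · intro l hl u hu hup
      have hl0 : 0 < l := by linarith
      have hc : ∀ {K : Eu m → Eu m}, ContDiff ℝ ∞ K → HasCompactSupport K →
          Continuous (cvg K l u) := by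
        intro K hK hKs
        exact (cvg_cont hK hKs hu).comp
          (Continuous.prodMk (continuous_const (y := (⟨l, hl0⟩ : Ioi (0 : ℝ)))) continuous_id)
      have hm1 := Su_meas (p := p) T (hc hK hKs)
      have hm2 := Su_meas (p := p) T (hc hK' hKs')
      have e1 := h₁ l hl u hu hup
      have e2 := h₂ l hl u hu hup
      have hcard : ((insert i T).card : ℝ) = (T.card : ℝ) + 1 := by
        rw [Finset.card_insert_of_notMem hi]
        push_cast
        ring
      set S₁ := ∑ j, ∫⁻ x in cube m, ‖cvg (KK₁ j) l u x‖ₑ ^ p with hS₁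
      set S₂ := ∑ j, ∫⁻ x in cube m, ‖cvg (KK₂ j) l u x‖ₑ ^ p with hS₂
      have hsum : (∑ j : Fin (M₁ + M₂), ∫⁻ x in cube m,
          ‖cvg (Fin.addCases (fun j => KK₁ j) (fun j => KK₂ j) j) l u x‖ₑ ^ p) = S₁ + S₂ := by
        rw [Fin.sum_univ_add]
        simp only [Fin.addCases_left, Fin.addCases_right]
        rfl
      simp only [hsum]
      have hlT : (0 : ℝ) ≤ l ^ (T.card : ℝ) := Real.rpow_nonneg hl0.le _
      calc ∫⁻ x in cube m, Su p (insert i T) (cvg K l u) x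
          ≤ ∫⁻ x in cube m, ENNReal.ofReal (2 ^ (p - 1) * l) *
            ∫⁻ t in Ico (0 : ℝ) 1, (Su p T (cvg K l u) (upd x i t) +
              Su p T (cvg (fun w => fderiv ℝ K w (ev i)) l u) (upd x i t)) :=
            lintegral_mono fun x => Su_step hp hi hK hKs hl hu hup x
        _ = ENNReal.ofReal (2 ^ (p - 1) * l) * ∫⁻ x in cube m, ∫⁻ t in Ico (0 : ℝ) 1,
              (Su p T (cvg K l u) (upd x i t) +
              Su p T (cvg (fun w => fderiv ℝ K w (ev i)) l u) (upd x i t)) :=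
            lintegral_const_mul' _ _ ENNReal.ofReal_ne_top
        _ = ENNReal.ofReal (2 ^ (p - 1) * l) * ((∫⁻ x in cube m, Su p T (cvg K l u) x) +
              ∫⁻ x in cube m, Su p T (cvg (fun w => fderiv ℝ K w (ev i)) l u) x) := by
            rw [su_fub i (F := fun x => Su p T (cvg K l u) x +
              Su p T (cvg (fun w => fderiv ℝ K w (ev i)) l u) x) (hm1.add hm2),
              lintegral_add_left hm1]
        _ ≤ ENNReal.ofReal (2 ^ (p - 1) * l) * (ENNReal.ofReal (C₁ * l ^ (T.card : ℝ)) * S₁ +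
              ENNReal.ofReal (C₂ * l ^ (T.card : ℝ)) * S₂) := by
            gcongr
        _ ≤ ENNReal.ofReal (2 ^ (p - 1) * l) *
              (ENNReal.ofReal ((C₁ + C₂) * l ^ (T.card : ℝ)) * S₁ +
              ENNReal.ofReal ((C₁ + C₂) * l ^ (T.card : ℝ)) * S₂) := by
            gcongr
            · linarith
            · linarith
        _ = ENNReal.ofReal (2 ^ (p - 1) * (C₁ + C₂) * l ^ ((insert i T).card : ℝ)) * (S₁ + S₂) := by
            rw [← mul_add, ← mul_assoc, ← ENNReal.ofReal_mul (by positivity), hcard,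
              Real.rpow_add hl0, Real.rpow_one]
            congr 2
            ring

theorem cvg_sup {m : ℕ} {p : ℝ} (hp : 1 < p) (T : Finset (Fin m)) {K : Eu m → Eu m}
    (hK : ContDiff ℝ ∞ K) (hKs : HasCompactSupport K) :
    ∃ C : ℝ, 0 ≤ C ∧ ∃ (M : ℕ) (KK : Fin M → Eu m → Eu m),
      (∀ j, ContDiff ℝ ∞ (KK j) ∧ HasCompactSupport (KK j)) ∧
      ∀ l : ℝ, 1 ≤ l → ∀ u : Eu m → Eu m, Continuous u → Per u →
        ∫⁻ x in cube m, (⨆ (y : Eu m) (_ : ∀ i ∉ T, y i = x i), ‖cvg K l u y‖ₑ ^ p) ≤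
          ENNReal.ofReal (C * l ^ (T.card : ℝ)) * ∑ j, ∫⁻ x in cube m, ‖cvg (KK j) l u x‖ₑ ^ p := by
  obtain ⟨C, hC, M, KK, hKK, h⟩ := Su_main hp T K hK hKs
  refine ⟨C, hC, M, KK, hKK, fun l hl u hu hup => le_trans ?_ (h l hl u hu hup)⟩
  refine lintegral_mono fun x => ?_
  refine iSup₂_le fun y hy => ?_
  unfold Su
  have : y = mix T x y := by
    ext j
    by_cases hj : j ∈ T
    · simp [mix, hj]
    · simp [mix, hj, hy j hj]
  conv_lhs => rw [this]
  exact le_iSup (fun z => ‖cvg K l u (mix T x z)‖ₑ ^ p) y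

end

end TN
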