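import Pool.Agent.TN.Lin
import Pool.Agent.H68.VD.DensB

/-!
# The Hamiltonian of a field: mollification and telescoping (row TN-24)
-/

set_option autoImplicit false
set_option linter.all false

open MeasureTheory Set Pool.Agent.H68.VD
open scoped ENNReal ContDiff

namespace TN

noncomputable section

variable {n : ℕ}

private theorem tel_inner_le (x y : Eu (n + n)) : |inner ℝ (Jm x) y| ≤ ‖x‖ * ‖y‖ := by
  have h := abs_real_inner_le_norm (Jm x) y
  rwa [norm_Jm] at h

/-- derivative of a smoothed Hamiltonian along a family of points -/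
private theorem tel_pint {v : Eu (n + n) → Eu (n + n)} {H : Eu (n + n) → ℝ} (h : MH v H) {L : ℝ}
    (hL0 : 0 ≤ L)
    (hL : ∀ x, ‖v x‖ ≤ L) {ρ : Eu (n + n) → ℝ} (hρ : Continuous ρ) (hs : HasCompactSupport ρ)
    (γ γ' : ℝ → Eu (n + n) → Eu (n + n)) (s₀ ε C : ℝ) (hε : 0 < ε) (hC : 0 ≤ C)
    (hγ : ∀ s, Continuous (γ s))
    (hγ' : Continuous (γ' s₀))
    (hd : ∀ w, ρ w ≠ 0 → ∀ s ∈ Metric.ball s₀ ε, HasDerivAt (fun s => γ s w) (γ' s w) s ∧
      ‖γ' s w‖ ≤ C) :
    HasDerivAt (fun s => ∫ w, H (γ s w) * ρ w)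
      (∫ w, inner ℝ (Jm (v (γ s₀ w))) (γ' s₀ w) * ρ w) s₀ := by
  have hcH : Continuous H := h.Hs.continuous
  have hcv : Continuous v := h.vs.continuous
  have hcJ : Continuous (Jm (n := n)) := (contDiff_Jm (k := 0)).continuous
  have key := hasDerivAt_integral_of_dominated_loc_of_deriv_le (𝕜 := ℝ)
    (μ := (volume : Measure (Eu (n + n))))
    (F := fun s w => H (γ s w) * ρ w)
    (F' := fun s w => inner ℝ (Jm (v (γ s w))) (γ' s w) * ρ w)
    (x₀ := s₀) (s := Metric.ball s₀ ε) (bound := fun w => L * C * |ρ w|)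
    (Metric.ball_mem_nhds _ hε) ?_ ?_ ?_ ?_ ?_ ?_
  · exact key.2
  · exact Filter.Eventually.of_forall fun s => ((hcH.comp (hγ s)).mul hρ).aestronglyMeasurable
  · exact ((hcH.comp (hγ s₀)).mul hρ).integrable_of_hasCompactSupport hs.mul_left
  · refine Continuous.aestronglyMeasurable ?_
    exact ((hcJ.comp (hcv.comp (hγ s₀))).inner hγ').mul hρ
  · refine Filter.Eventually.of_forall fun w s hs' => ?_
    by_cases hw : ρ w = 0
    · simp [hw]
    have h1 := (hd w hw s hs').2
    have h2 := hL (γ s w)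
    rw [Real.norm_eq_abs, abs_mul]
    refine mul_le_mul_of_nonneg_right ?_ (abs_nonneg _)
    exact (tel_inner_le _ _).trans (mul_le_mul h2 h1 (norm_nonneg _) hL0)
  · exact ((continuous_const.mul hρ.abs).integrable_of_hasCompactSupport
      (HasCompactSupport.mul_left hs.norm))
  · refine Filter.Eventually.of_forall fun w s hs' => ?_
    by_cases hw : ρ w = 0
    · simp only [hw, mul_zero]
      exact hasDerivAt_const _ _
    have h1 := (hd w hw s hs').1
    have h2 := ((h.Hd (γ s w)).comp_hasDerivAt s h1).mul_const (ρ w)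
    refine h2.congr_deriv ?_
    simp

private theorem tel_lip {v : Eu (n + n) → Eu (n + n)} {H : Eu (n + n) → ℝ} (h : MH v H) {L : ℝ}
    (hL0 : 0 ≤ L) (hL : ∀ x, ‖v x‖ ≤ L) (x y : Eu (n + n)) : |H x - H y| ≤ L * ‖x - y‖ := by
  have := Convex.norm_image_sub_le_of_norm_hasFDerivWithin_le (𝕜 := ℝ) (f := H) (C := L)
    (s := univ) (x := y) (y := x) (fun z _ => (h.Hd z).hasFDerivWithinAt) (fun z _ => ?_) convex_univ
    (mem_univ _) (mem_univ _)
  · simpa [Real.norm_eq_abs] using this
  · refine ContinuousLinearMap.opNorm_le_bound _ hL0 fun w => ?_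
    rw [innerSL_apply_apply, Real.norm_eq_abs]
    exact (tel_inner_le _ _).trans (mul_le_mul_of_nonneg_right (hL z) (norm_nonneg _))

/-- `⟪v, (pp w, -qq w)⟫ = ⟪Jm v, w⟫` -/
private theorem tel_K (v w : Eu (n + n)) : inner ℝ v (pt (pp w) (-(qq w))) = inner ℝ (Jm v) w := by
  rw [inner_qp, inner_qp]
  simp only [Jm, qq_pt, pp_pt, inner_neg_left, inner_neg_right]
  ring

private theorem tel_coord (x : Eu (n + n)) (i : Fin (n + n)) : |x i| ≤ ‖x‖ := by
  have := PiLp.norm_apply_le x i
  simpa [Real.norm_eq_abs] using this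

private theorem tel_norm (x : Eu (n + n)) (h : ∀ i, |x i| ≤ 1) : ‖x‖ ≤ ((n + n : ℕ) : ℝ) := by
  rw [EuclideanSpace.norm_eq]
  refine Real.sqrt_le_iff.2 ⟨by positivity, ?_⟩
  have h1 : ∑ i, ‖x i‖ ^ 2 ≤ ∑ _i : Fin (n + n), (1 : ℝ) := by
    refine Finset.sum_le_sum fun i _ => ?_
    rw [Real.norm_eq_abs]
    have := h i
    have := abs_nonneg (x i)
    nlinarith
  rw [Finset.sum_const, Finset.card_univ, Fintype.card_fin, nsmul_eq_mul, mul_one] at h1
  refine h1.trans ?_
  have h2 : (n + n) ≤ (n + n) ^ 2 := by nlinarith [Nat.zero_le (n + n)]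
  exact_mod_cast h2

theorem tel : ∃ (K : Eu (n + n) → Eu (n + n)) (K₀ : Fin (n + n) → Eu (n + n) → Eu (n + n)) (c : ℝ),
    0 ≤ c ∧ ContDiff ℝ ∞ K ∧ HasCompactSupport K ∧
    (∀ j, ContDiff ℝ ∞ (K₀ j) ∧ HasCompactSupport (K₀ j)) ∧
    ∀ (v : Eu (n + n) → Eu (n + n)) (H : Eu (n + n) → ℝ), MH v H →
      ∃ H₁ : Eu (n + n) → ℝ, (∀ ε > 0, ∃ Λ₀ : ℝ, ∀ Λ ≥ Λ₀, ∀ x,
        |H x - H₁ x - ∫ l in (1 : ℝ)..Λ, l⁻¹ ^ 2 * cvg K l v x| ≤ ε) ∧
      ∀ M : ℝ, (∀ z j, |cvg (K₀ j) 1 v z| ≤ M) → ∀ x x', |H₁ x - H₁ x'| ≤ c * M := by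
  classical
  set b : ContDiffBump (0 : Eu (n + n)) := ⟨1 / 2, 1, by norm_num, by norm_num⟩ with hb
  set ρ : Eu (n + n) → ℝ := b.normed volume with hρdef
  have hρs : ContDiff ℝ ∞ ρ := b.contDiff_normed
  have hρc : HasCompactSupport ρ := b.hasCompactSupport_normed
  have hρ0 : ∀ w, 0 ≤ ρ w := b.nonneg_normed
  have hρ1 : ∫ w, ρ w = 1 := b.integral_normed
  have hρn : ∀ w, ρ w ≠ 0 → ‖w‖ ≤ 1 := by
    intro w hw
    have : w ∈ Function.support ρ := hw
    rw [hρdef, b.support_normed_eq] at this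
    have := Metric.mem_ball.1 this
    rw [dist_zero_right] at this
    exact this.le
  have hρcont : Continuous ρ := hρs.continuous
  have hρi : Integrable ρ := hρcont.integrable_of_hasCompactSupport hρc
  have hJs : ContDiff ℝ ∞ (fun w : Eu (n + n) => pt (pp w) (-(qq w))) :=
    contDiff_pt.comp (contDiff_pp.prodMk contDiff_qq.neg)
  have hcJ : Continuous (Jm (n := n)) := (contDiff_Jm (k := 0)).continuous
  refine ⟨fun w => ρ w • pt (pp w) (-(qq w)), fun j w => ρ w • ev j,
    ((n + n : ℕ) : ℝ) * ((n + n : ℕ) : ℝ), by positivity,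
    hρs.smul hJs, hρc.smul_right, fun j => ⟨hρs.smul contDiff_const, hρc.smul_right⟩, ?_⟩
  intro v H h
  have hcH : Continuous H := h.Hs.continuous
  have hcv : Continuous v := h.vs.continuous
  obtain ⟨L, hL0, hL⟩ := DensBA.per_bdd hcv h.vp
  have hlipH : ∀ x y, |H x - H y| ≤ L * ‖x - y‖ := tel_lip h hL0 hL
  have hcv2 : ∀ (l : ℝ) (x : Eu (n + n)), cvg (fun w => ρ w • pt (pp w) (-(qq w))) l v x =
      ∫ w, inner ℝ (Jm (v (x - l⁻¹ • w))) w * ρ w := by
    intro l x
    unfold cvg
    refine integral_congr_ae (Filter.Eventually.of_forall fun w => ?_)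
    show inner ℝ (v (x - l⁻¹ • w)) (ρ w • pt (pp w) (-(qq w))) = _
    rw [inner_smul_right, tel_K]
    ring
  refine ⟨fun x => ∫ w, H (x - w) * ρ w, ?_, ?_⟩
  · -- telescoping
    have hder : ∀ (x : Eu (n + n)) (l : ℝ), 0 < l →
        HasDerivAt (fun l => ∫ w, H (x - l⁻¹ • w) * ρ w)
        (l⁻¹ ^ 2 * cvg (fun w => ρ w • pt (pp w) (-(qq w))) l v x) l := by
      intro x l hl
      have hk := tel_pint h hL0 hL hρcont hρc (fun s w => x - s⁻¹ • w) (fun s w => (s ^ 2)⁻¹ • w) l
        (l / 2) ((l / 2) ^ 2)⁻¹ (by linarith) (by positivity)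
        (fun s => by fun_prop) (by fun_prop) ?_
      · refine hk.congr_deriv ?_
        rw [hcv2, ← integral_const_mul]
        refine integral_congr_ae (Filter.Eventually.of_forall fun w => ?_)
        show inner ℝ (Jm (v (x - l⁻¹ • w))) ((l ^ 2)⁻¹ • w) * ρ w =
          l⁻¹ ^ 2 * (inner ℝ (Jm (v (x - l⁻¹ • w))) w * ρ w)
        rw [inner_smul_right, inv_pow]
        ring
      · intro w hw s hs
        have hs1 : l / 2 < s := by
          have := Metric.mem_ball.1 hs
          rw [Real.dist_eq] at this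
          have := (abs_lt.1 this).1
          linarith
        have hs0 : 0 < s := by linarith
        constructor
        · have h1 := ((hasDerivAt_inv hs0.ne').smul_const w).const_sub x
          refine h1.congr_deriv ?_
          simp
        · rw [norm_smul, Real.norm_eq_abs, abs_of_pos (by positivity)]
          have h1 : (s ^ 2)⁻¹ ≤ ((l / 2) ^ 2)⁻¹ := by
            apply inv_anti₀ (by positivity)
            exact pow_le_pow_left₀ (by linarith) hs1.le 2
          calc (s ^ 2)⁻¹ * ‖w‖ ≤ ((l / 2) ^ 2)⁻¹ * 1 :=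
                mul_le_mul h1 (hρn w hw) (norm_nonneg _) (by positivity)
            _ = _ := mul_one _
    have hcc : ∀ (x : Eu (n + n)) (l : ℝ), 0 < l →
        ContinuousAt (fun l => l⁻¹ ^ 2 * cvg (fun w => ρ w • pt (pp w) (-(qq w))) l v x) l := by
      intro x l hl
      refine ContinuousAt.mul ((continuousAt_inv₀ hl.ne').pow 2) ?_
      simp only [hcv2]
      refine continuousAt_of_dominated (bound := fun w => L * |ρ w|) ?_ ?_ ?_ ?_
      · refine Filter.Eventually.of_forall fun s => Continuous.aestronglyMeasurable ?_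
        exact ((hcJ.comp (hcv.comp (by fun_prop : Continuous fun w : Eu (n + n) => x - s⁻¹ • w))).inner
          continuous_id).mul hρcont
      · refine Filter.Eventually.of_forall fun s => Filter.Eventually.of_forall fun w => ?_
        by_cases hw : ρ w = 0
        · simp [hw]
        rw [Real.norm_eq_abs, abs_mul]
        refine mul_le_mul_of_nonneg_right ?_ (abs_nonneg _)
        refine (tel_inner_le _ _).trans ?_
        calc ‖v (x - s⁻¹ • w)‖ * ‖w‖ ≤ L * 1 :=
              mul_le_mul (hL _) (hρn w hw) (norm_nonneg _) hL0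
          _ = L := mul_one _
      · exact ((continuous_const.mul hρcont.abs).integrable_of_hasCompactSupport
          (HasCompactSupport.mul_left hρc.norm))
      · refine Filter.Eventually.of_forall fun w => ?_
        have h0 : ContinuousAt (fun s : ℝ => Jm (v (x - s⁻¹ • w))) l :=
          ContinuousAt.comp (f := fun s : ℝ => x - s⁻¹ • w) (g := fun z => Jm (v z))
            (hcJ.comp hcv).continuousAt
            (continuousAt_const.sub ((continuousAt_inv₀ hl.ne').smul continuousAt_const))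
        exact (h0.inner continuousAt_const).mul continuousAt_const
    intro ε hε
    refine ⟨max 1 (L / ε), fun Λ hΛ x => ?_⟩
    have hΛ1 : 1 ≤ Λ := (le_max_left _ _).trans hΛ
    have hΛ0 : 0 < Λ := by linarith
    have hint : ∫ l in (1 : ℝ)..Λ, l⁻¹ ^ 2 * cvg (fun w => ρ w • pt (pp w) (-(qq w))) l v x =
        (∫ w, H (x - Λ⁻¹ • w) * ρ w) - ∫ w, H (x - (1 : ℝ)⁻¹ • w) * ρ w := by
      refine intervalIntegral.integral_eq_sub_of_hasDerivAt
        (f := fun l => ∫ w, H (x - l⁻¹ • w) * ρ w) ?_ ?_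
      · intro l hl
        rw [uIcc_of_le hΛ1] at hl
        exact hder x l (by linarith [hl.1])
      · refine ContinuousOn.intervalIntegrable ?_
        intro l hl
        rw [uIcc_of_le hΛ1] at hl
        exact (hcc x l (by linarith [hl.1])).continuousWithinAt
    rw [hint]
    have h1 : (∫ w, H (x - (1 : ℝ)⁻¹ • w) * ρ w) = ∫ w, H (x - w) * ρ w := by simp
    rw [h1]
    have h2 : H x = ∫ w, H x * ρ w := by
      rw [integral_const_mul, hρ1, mul_one]
    have hI : Integrable (fun w => H (x - Λ⁻¹ • w) * ρ w) :=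
      Continuous.integrable_of_hasCompactSupport
        ((hcH.comp (by fun_prop : Continuous fun w : Eu (n + n) => x - Λ⁻¹ • w)).mul hρcont)
        hρc.mul_left
    have h3 : H x - (∫ w, H (x - w) * ρ w) - ((∫ w, H (x - Λ⁻¹ • w) * ρ w) -
        ∫ w, H (x - w) * ρ w) = ∫ w, (H x * ρ w - H (x - Λ⁻¹ • w) * ρ w) := by
      rw [integral_sub (hρi.const_mul _) hI, ← h2]
      ring
    rw [h3, ← Real.norm_eq_abs]
    refine (norm_integral_le_integral_norm _).trans ?_
    have h4 : ∀ w, ‖H x * ρ w - H (x - Λ⁻¹ • w) * ρ w‖ ≤ ε * ρ w := by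
      intro w
      by_cases hw : ρ w = 0
      · simp [hw]
      rw [← sub_mul, Real.norm_eq_abs, abs_mul, abs_of_nonneg (hρ0 w)]
      refine mul_le_mul_of_nonneg_right ?_ (hρ0 w)
      refine (hlipH _ _).trans ?_
      rw [sub_sub_cancel, norm_smul, Real.norm_eq_abs, abs_of_pos (by positivity)]
      have h5 : L / ε ≤ Λ := (le_max_right _ _).trans hΛ
      rw [div_le_iff₀ hε] at h5
      calc L * (Λ⁻¹ * ‖w‖) ≤ L * (Λ⁻¹ * 1) := by
            have := hρn w hw
            gcongr
        _ ≤ ε := by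
            rw [mul_one, ← div_eq_mul_inv, div_le_iff₀ hΛ0]
            linarith
    calc ∫ w, ‖H x * ρ w - H (x - Λ⁻¹ • w) * ρ w‖ ≤ ∫ w, ε * ρ w :=
          integral_mono (((hρi.const_mul _).sub hI).norm) (hρi.const_mul _) h4
      _ = ε := by rw [integral_const_mul, hρ1, mul_one]
  · -- the oscillation of the mollified Hamiltonian
    intro M hM x x'
    rcases Nat.eq_zero_or_pos n with hn | hn
    · subst hn
      have hxx : x = x' := by
        ext i
        exact i.elim0
      rw [hxx, sub_self, abs_zero]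
      simp
    have hM0 : 0 ≤ M := (abs_nonneg _).trans (hM 0 ⟨0, by omega⟩)
    have hper : ∀ (z : Eu (n + n)) (k : Fin (n + n) → ℤ),
        (∫ w, H (z + iv k - w) * ρ w) = ∫ w, H (z - w) * ρ w := by
      intro z k
      refine integral_congr_ae (Filter.Eventually.of_forall fun w => ?_)
      have : z + iv k - w = z - w + iv k := by abel
      simp only [this]
      rw [h.Hp]
    have hc0 : ∀ z j, cvg (fun w => ρ w • ev j) 1 v z = ∫ w, v (z - w) j * ρ w := by
      intro z j
      unfold cvg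
      refine integral_congr_ae (Filter.Eventually.of_forall fun w => ?_)
      show inner ℝ (v (z - (1 : ℝ)⁻¹ • w)) (ρ w • ev j) = v (z - w) j * ρ w
      rw [inner_smul_right, inv_one, one_smul, ev, EuclideanSpace.inner_single_right]
      simp
      ring
    have hiv : ∀ (z : Eu (n + n)) (i : Fin (n + n)), Integrable fun w => v (z - w) i * ρ w := by
      intro z i
      refine Continuous.integrable_of_hasCompactSupport ?_ hρc.mul_left
      exact ((EuclideanSpace.proj i : Eu (n + n) →L[ℝ] ℝ).continuous.comp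
        (hcv.comp (continuous_const.sub continuous_id))).mul hρcont
    have hline : ∀ y d : Eu (n + n), |(∫ w, H (y + d - w) * ρ w) - ∫ w, H (y - w) * ρ w| ≤
        ((n + n : ℕ) : ℝ) * M * ‖d‖ := by
      intro y d
      have hder : ∀ s : ℝ, HasDerivAt (fun s : ℝ => ∫ w, H (y + s • d - w) * ρ w)
          (∫ w, inner ℝ (Jm (v (y + s • d - w))) d * ρ w) s := by
        intro s
        refine tel_pint h hL0 hL hρcont hρc (fun s w => y + s • d - w) (fun _ _ => d) s 1 ‖d‖ one_pos
          (norm_nonneg _) (fun s => continuous_const.sub continuous_id) continuous_const ?_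
        intro w hw s hs
        refine ⟨?_, le_rfl⟩
        have := (((hasDerivAt_id s).smul_const d).const_add y).sub_const w
        simpa using this
      have hbd : ∀ s : ℝ, ‖∫ w, inner ℝ (Jm (v (y + s • d - w))) d * ρ w‖ ≤
          ((n + n : ℕ) : ℝ) * M * ‖d‖ := by
        intro s
        have h1 : (∫ w, inner ℝ (Jm (v (y + s • d - w))) d * ρ w) =
            ∑ j, -(Jm d) j * cvg (fun w => ρ w • ev j) 1 v (y + s • d) := by
          simp only [hc0, ← integral_const_mul]
          rw [← integral_finsetSum _ fun j _ => (hiv _ j).const_mul _]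
          refine integral_congr_ae (Filter.Eventually.of_forall fun w => ?_)
          show inner ℝ (Jm (v (y + s • d - w))) d * ρ w =
            ∑ j, -(Jm d) j * (v (y + s • d - w) j * ρ w)
          rw [← om_J, om_swap, om_J, PiLp.inner_apply, neg_mul, Finset.sum_mul,
            ← Finset.sum_neg_distrib]
          refine Finset.sum_congr rfl fun j _ => ?_
          simp
          ring
        rw [h1, Real.norm_eq_abs]
        refine (Finset.abs_sum_le_sum_abs _ _).trans ?_
        have h2 : ∀ j ∈ (Finset.univ : Finset (Fin (n + n))),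
            |-(Jm d) j * cvg (fun w => ρ w • ev j) 1 v (y + s • d)| ≤ M * ‖d‖ := by
          intro j _
          rw [abs_mul, abs_neg, mul_comm M]
          refine mul_le_mul ?_ (hM _ j) (abs_nonneg _) (norm_nonneg _)
          rw [← norm_Jm d]
          exact tel_coord _ _
        refine (Finset.sum_le_sum h2).trans (le_of_eq ?_)
        rw [Finset.sum_const, Finset.card_univ, Fintype.card_fin, nsmul_eq_mul]
        ring
      have := Convex.norm_image_sub_le_of_norm_hasDerivWithin_le (𝕜 := ℝ)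
        (f := fun s : ℝ => ∫ w, H (y + s • d - w) * ρ w) (C := ((n + n : ℕ) : ℝ) * M * ‖d‖)
        (s := univ) (x := 0) (y := 1) (fun s _ => (hder s).hasDerivWithinAt) (fun s _ => hbd s)
        convex_univ (mem_univ _) (mem_univ _)
      simpa [Real.norm_eq_abs] using this
    obtain ⟨k, hk⟩ := DensBA.exists_cube (x - x')
    have h1 := hline x' (x - x' + iv k)
    have h2 : x' + (x - x' + iv k) = x + iv k := by abel
    rw [h2, hper x k] at h1
    refine h1.trans ?_
    have h3 : ‖x - x' + iv k‖ ≤ ((n + n : ℕ) : ℝ) := by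
      refine tel_norm _ fun i => ?_
      rw [abs_of_nonneg (hk i).1]
      exact (hk i).2.le
    calc ((n + n : ℕ) : ℝ) * M * ‖x - x' + iv k‖ ≤ ((n + n : ℕ) : ℝ) * M * ((n + n : ℕ) : ℝ) :=
          mul_le_mul_of_nonneg_left h3 (by positivity)
      _ = _ := by ring

end

end TN
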