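import Pool.Agent.TN.Lin
import Pool.Agent.TN.Ham
import Pool.Agent.TN.Dua
import Pool.Agent.TN.Cvg
import Pool.Agent.TN.Sup
import Pool.Agent.TN.Tel
import Pool.Agent.H68.VD.Tr
import Pool.Agent.H68.VD.WMean

/-!
# Project TN, TN-25: slicing for the norms of `W^{s,p}`, `-1 + n/p < s < 0`
-/

set_option autoImplicit false

open MeasureTheory Set Pool.Agent.H68.VD
open scoped ENNReal ContDiff

namespace TN

noncomputable section

variable {n : ℕ}

/-! ### Fubini for positions and momenta -/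

private def slw_iso (n : ℕ) : WithLp 2 (Eu n × Eu n) ≃ₗᵢ[ℝ] Eu (n + n) where
  toFun z := pt z.fst z.snd
  map_add' z w := by
    rw [← pt_add]
    rfl
  map_smul' c z := by
    simp only [RingHom.id_apply]
    rw [← pt_smul]
    rfl
  invFun x := WithLp.toLp 2 (qq x, pp x)
  left_inv z := by
    change WithLp.toLp 2 (qq (pt z.fst z.snd), pp (pt z.fst z.snd)) = z
    rw [qq_pt, pp_pt]
    rfl
  right_inv x := pt_qq_pp x
  norm_map' z := by
    change ‖pt z.fst z.snd‖ = ‖z‖
    have h : ‖pt z.fst z.snd‖ ^ 2 = ‖z‖ ^ 2 := by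
      rw [norm_pt_sq, WithLp.prod_norm_sq_eq_of_L2]
    exact (sq_eq_sq₀ (norm_nonneg _) (norm_nonneg _)).1 h

private theorem slw_mp :
    MeasurePreserving (fun z : Eu n × Eu n => pt z.1 z.2) volume volume :=
  (slw_iso n).measurePreserving.comp (WithLp.volume_preserving_toLp (Eu n) (Eu n))

private theorem slw_cubeMeas (m : ℕ) : MeasurableSet (cube m) := by
  have h1 : cube m = ⋂ i : Fin m, {x : Eu m | x i ∈ Ico (0 : ℝ) 1} := by
    ext x
    simp [cube]
  rw [h1]
  refine MeasurableSet.iInter fun i => ?_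
  have h2 : Measurable (fun x : Eu m => x i) := (EuclideanSpace.proj i).continuous.measurable
  exact h2 measurableSet_Ico

private theorem slw_pre : (fun z : Eu n × Eu n => pt z.1 z.2) ⁻¹' (cube (n + n)) =
    cube n ×ˢ cube n := by
  ext z
  simp only [mem_preimage, cube, mem_ofPred_eq, mem_prod]
  constructor
  · intro h
    refine ⟨fun i => ?_, fun i => ?_⟩
    · have := h (Fin.castAdd n i)
      simpa only [pt, Fin.addCases_left] using this
    · have := h (Fin.natAdd n i)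
      simpa only [pt, Fin.addCases_right] using this
  · rintro ⟨h1, h2⟩ j
    refine Fin.addCases (fun i => ?_) (fun i => ?_) j
    · simpa only [pt, Fin.addCases_left] using h1 i
    · simpa only [pt, Fin.addCases_right] using h2 i

private theorem slw_prCont (i : Fin 2) : Continuous (pr (n := n) i) := by
  by_cases hi : i = 0
  · subst hi
    exact continuous_qq
  · have h : pr (n := n) i = pp := by
      funext x
      unfold pr
      rw [if_neg hi]
    rw [h]
    exact continuous_pp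

private theorem slw_fub (i : Fin 2) {F : Eu n → ℝ≥0∞} (hF : Measurable F) :
    ∫⁻ x in cube (n + n), F (pr i x) = ∫⁻ a in cube n, F a := by
  have hm : Measurable (fun x : Eu (n + n) => F (pr i x)) := hF.comp (slw_prCont i).measurable
  have hm' : Measurable (fun z : Eu n × Eu n => F (pr i (pt z.1 z.2))) :=
    hm.comp slw_mp.measurable
  rw [← slw_mp.setLIntegral_comp_preimage (slw_cubeMeas (n + n)) hm, slw_pre,
    Measure.volume_eq_prod, ← Measure.prod_restrict]
  by_cases hi : i = 0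
  · rw [lintegral_prod _ hm'.aemeasurable]
    refine lintegral_congr fun a => ?_
    simp only [pr, if_pos hi, qq_pt]
    rw [setLIntegral_const, HsA.vol_cube, mul_one]
  · rw [lintegral_prod_symm _ hm'.aemeasurable]
    refine lintegral_congr fun a => ?_
    simp only [pr, if_neg hi, pp_pt]
    rw [setLIntegral_const, HsA.vol_cube, mul_one]

private theorem slw_ln_cont (i : Fin 2) : Continuous (fun z : Eu n × Eu n => ln i z.1 z.2) := by
  by_cases hi : i = 0
  · subst hi
    simp only [ln0]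
    exact continuous_pt
  · have h : (fun z : Eu n × Eu n => ln i z.1 z.2) = fun z => pt z.2 z.1 := by
      funext z
      unfold ln
      rw [if_neg hi]
    rw [h]
    exact continuous_pt.comp (continuous_snd.prodMk continuous_fst)

private theorem slw_cont {m : ℕ} {K : Eu m → Eu m} (hK : ContDiff ℝ ∞ K)
    (hKs : HasCompactSupport K) {u : Eu m → Eu m} (hu : Continuous u) {l : ℝ} (hl : 0 < l) :
    Continuous (cvg K l u) :=
  (cvg_cont hK hKs hu).comp
    (Continuous.prodMk (continuous_const (y := (⟨l, hl⟩ : Ioi (0 : ℝ)))) continuous_id)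

/-- the coordinates that move on a slice -/
private def slw_T (n : ℕ) (i : Fin 2) : Finset (Fin (n + n)) :=
  if i = 0 then Finset.univ.map (Fin.natAddEmb n) else Finset.univ.map (Fin.castAddEmb n)

private theorem slw_T_card (i : Fin 2) : (slw_T n i).card = n := by
  unfold slw_T
  split_ifs
  · rw [Finset.card_map, Finset.card_univ, Fintype.card_fin]
  · rw [Finset.card_map, Finset.card_univ, Fintype.card_fin]

private theorem slw_T_ln (i : Fin 2) (x : Eu (n + n)) (r : Eu n) :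
    ∀ j ∉ slw_T n i, ln i (pr i x) r j = x j := by
  intro j hj
  by_cases hi : i = 0
  · subst hi
    rw [ln0]
    simp only [slw_T, if_true] at hj
    induction j using Fin.addCases with
    | left k => simp only [pt, pr, if_true, qq, Fin.addCases_left]
    | right k => exact absurd (Finset.mem_map.2 ⟨k, Finset.mem_univ _, rfl⟩) hj
  · have hi' : ln i (pr i x) r = pt r (pp x) := by
      unfold ln pr
      rw [if_neg hi, if_neg hi]
    rw [hi']
    simp only [slw_T, if_neg hi] at hj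
    induction j using Fin.addCases with
    | left k => exact absurd (Finset.mem_map.2 ⟨k, Finset.mem_univ _, rfl⟩) hj
    | right k => simp only [pt, pp, Fin.addCases_right]

/-- suprema in the directions of `T`, all scales -/
private theorem slw_gen {m : ℕ} {s p : ℝ} (hp : 1 < p) (hs : -1 < s) (hs0 : s < 0)
    (T : Finset (Fin m)) {K : Eu m → Eu m} (hK : ContDiff ℝ ∞ K) (hKs : HasCompactSupport K) :
    ∃ C : ℝ, 0 ≤ C ∧ ∀ l : ℝ, 1 ≤ l → ∀ u : Eu m → Eu m, Continuous u → Per u →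
      (∫⁻ x in cube m, (⨆ (y : Eu m) (_ : ∀ i ∉ T, y i = x i), ‖cvg K l u y‖ₑ ^ p)) ^ (1 / p) ≤
        ENNReal.ofReal (C * l ^ ((T.card : ℝ) / p - s)) * wspP s p u := by
  have hp0 : 0 < p := by linarith
  obtain ⟨C, hC, M, KK, hKK, h⟩ := cvg_sup hp T hK hKs
  choose D hD hdua using fun j => dua hp hs hs0 (hKK j).1 (hKK j).2
  set E : ℝ := ∑ j, D j with hE
  have hE0 : 0 ≤ E := Finset.sum_nonneg fun j _ => hD j
  refine ⟨(C * M) ^ (1 / p) * E, by positivity, ?_⟩
  intro l hl u hu hup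
  have hl0 : 0 < l := by linarith
  have h1 : ∀ j, ∫⁻ x in cube m, ‖cvg (KK j) l u x‖ₑ ^ p ≤
      (ENNReal.ofReal (E * l ^ (-s)) * wspP s p u) ^ p := by
    intro j
    have h2 := ENNReal.rpow_le_rpow (hdua j l hl u hu hup) hp0.le
    rw [← ENNReal.rpow_mul, one_div_mul_cancel hp0.ne', ENNReal.rpow_one] at h2
    refine h2.trans (ENNReal.rpow_le_rpow ?_ hp0.le)
    refine mul_le_mul_left (ENNReal.ofReal_le_ofReal ?_) _
    refine mul_le_mul_of_nonneg_right ?_ (Real.rpow_nonneg hl0.le _)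
    exact Finset.single_le_sum (f := D) (fun j _ => hD j) (Finset.mem_univ j)
  calc (∫⁻ x in cube m, (⨆ (y : Eu m) (_ : ∀ i ∉ T, y i = x i), ‖cvg K l u y‖ₑ ^ p)) ^ (1 / p)
      ≤ (ENNReal.ofReal (C * l ^ (T.card : ℝ)) *
          ∑ _j : Fin M, (ENNReal.ofReal (E * l ^ (-s)) * wspP s p u) ^ p) ^ (1 / p) := by
        refine ENNReal.rpow_le_rpow ((h l hl u hu hup).trans ?_) (by positivity)
        refine mul_le_mul_right (Finset.sum_le_sum fun j _ => h1 j) _
    _ = (ENNReal.ofReal (C * l ^ (T.card : ℝ)) * M) ^ (1 / p) *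
          (ENNReal.ofReal (E * l ^ (-s)) * wspP s p u) := by
        rw [Finset.sum_const, Finset.card_univ, Fintype.card_fin, nsmul_eq_mul, ← mul_assoc,
          ENNReal.mul_rpow_of_nonneg _ _ (by positivity), ← ENNReal.rpow_mul,
          mul_one_div_cancel hp0.ne', ENNReal.rpow_one]
    _ = ENNReal.ofReal ((C * M) ^ (1 / p) * E * l ^ ((T.card : ℝ) / p - s)) * wspP s p u := by
        have hlk : 0 ≤ l ^ (T.card : ℝ) := Real.rpow_nonneg hl0.le _
        rw [← ENNReal.ofReal_natCast M, ← ENNReal.ofReal_mul (mul_nonneg hC hlk),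
          ENNReal.ofReal_rpow_of_nonneg (by positivity) (by positivity), ← mul_assoc,
          ← ENNReal.ofReal_mul (by positivity)]
        congr 2
        rw [show C * l ^ (T.card : ℝ) * M = (C * M) * l ^ (T.card : ℝ) by ring,
          Real.mul_rpow (by positivity) hlk, ← Real.rpow_mul hl0.le, sub_eq_add_neg,
          Real.rpow_add hl0, mul_one_div]
        ring

theorem sup_one {m : ℕ} {s p : ℝ} (hp : 1 < p) (hs : -1 < s) (hs0 : s < 0) {K : Eu m → Eu m}
    (hK : ContDiff ℝ ∞ K) (hKs : HasCompactSupport K) : ∃ C : ℝ, 0 ≤ C ∧ ∀ u : Eu m → Eu m,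
      Continuous u → Per u → ∀ z, ENNReal.ofReal |cvg K 1 u z| ≤ ENNReal.ofReal C * wspP s p u := by
  have hp0 : 0 < p := by linarith
  obtain ⟨C, hC, h⟩ := slw_gen hp hs hs0 Finset.univ hK hKs
  refine ⟨C, hC, fun u hu hup z => ?_⟩
  have h1 := h 1 le_rfl u hu hup
  rw [Real.one_rpow, mul_one] at h1
  refine le_trans ?_ h1
  rw [← Real.enorm_eq_ofReal_abs]
  have h2 : ‖cvg K 1 u z‖ₑ ^ p ≤ ∫⁻ x in cube m,
      (⨆ (y : Eu m) (_ : ∀ i ∉ (Finset.univ : Finset (Fin m)), y i = x i), ‖cvg K 1 u y‖ₑ ^ p) := by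
    calc ‖cvg K 1 u z‖ₑ ^ p = ∫⁻ _ in cube m, ‖cvg K 1 u z‖ₑ ^ p := by
          rw [setLIntegral_const, HsA.vol_cube, mul_one]
      _ ≤ _ := lintegral_mono fun x =>
          le_iSup₂_of_le z (fun i hi => absurd (Finset.mem_univ i) hi) le_rfl
  calc ‖cvg K 1 u z‖ₑ = (‖cvg K 1 u z‖ₑ ^ p) ^ (1 / p) := by
        rw [← ENNReal.rpow_mul, mul_one_div_cancel hp0.ne', ENNReal.rpow_one]
    _ ≤ _ := ENNReal.rpow_le_rpow h2 (by positivity)

/-- Hölder on the cube -/
private theorem slw_hol {p : ℝ} (hp : 1 < p) {F : Eu n → ℝ≥0∞} (hF : Measurable F) :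
    ∫⁻ a in cube n, F a ≤ (∫⁻ a in cube n, F a ^ p) ^ (1 / p) := by
  have hpq : p.HolderConjugate (p / (p - 1)) := Real.HolderConjugate.conjExponent hp
  have h1 := ENNReal.lintegral_mul_le_Lp_mul_Lq (volume.restrict (cube n)) hpq
    (f := F) (g := fun _ => 1) hF.aemeasurable aemeasurable_const
  simp only [Pi.mul_apply, mul_one, ENNReal.one_rpow, lintegral_const,
    Measure.restrict_apply MeasurableSet.univ, univ_inter, HsA.vol_cube] at h1
  exact h1

private theorem slw_Fmeas {K : Eu (n + n) → Eu (n + n)} (hK : ContDiff ℝ ∞ K)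
    (hKs : HasCompactSupport K) {u : Eu (n + n) → Eu (n + n)} (hu : Continuous u) (i : Fin 2)
    {l : ℝ} (hl : 0 < l) : Measurable (fun a : Eu n => ⨆ r : Eu n, ‖cvg K l u (ln i a r)‖ₑ) := by
  refine LowerSemicontinuous.measurable (lowerSemicontinuous_iSup fun r => ?_)
  refine Continuous.lowerSemicontinuous ?_
  have h1 : Continuous (fun a : Eu n => ln i a r) :=
    (slw_ln_cont i).comp (continuous_id.prodMk continuous_const)
  exact ((slw_cont hK hKs hu hl).comp h1).enorm

theorem sup_slice {s p : ℝ} (hp : 1 < p) (hs : -1 < s) (hs0 : s < 0)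
    {K : Eu (n + n) → Eu (n + n)} (hK : ContDiff ℝ ∞ K) (hKs : HasCompactSupport K) :
    ∃ C : ℝ, 0 ≤ C ∧ ∀ (i : Fin 2) (l : ℝ), 1 ≤ l → ∀ u : Eu (n + n) → Eu (n + n), Continuous u →
      Per u → ∫⁻ a in cube n, ⨆ r : Eu n, ‖cvg K l u (ln i a r)‖ₑ ≤
        ENNReal.ofReal (C * l ^ (n / p - s)) * wspP s p u := by
  have hp0 : 0 < p := by linarith
  choose C hC h using fun i : Fin 2 => slw_gen hp hs hs0 (slw_T n i) hK hKs
  have hCs : ∀ i, C i ≤ C 0 + C 1 := by
    intro i
    have e0 := hC 0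
    have e1 := hC 1
    fin_cases i
    · change C 0 ≤ C 0 + C 1
      linarith
    · change C 1 ≤ C 0 + C 1
      linarith
  refine ⟨C 0 + C 1, add_nonneg (hC 0) (hC 1), ?_⟩
  intro i l hl u hu hup
  have hl0 : 0 < l := by linarith
  have hFm := slw_Fmeas hK hKs hu i hl0
  have h1 := h i l hl u hu hup
  rw [slw_T_card] at h1
  refine (slw_hol hp hFm).trans (le_trans ?_ (h1.trans ?_))
  · refine ENNReal.rpow_le_rpow ?_ (by positivity)
    rw [← slw_fub i (hFm.pow_const p)]
    refine lintegral_mono fun x => ?_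
    have h2 : (⨆ r : Eu n, ‖cvg K l u (ln i (pr i x) r)‖ₑ) ≤
        (⨆ (y : Eu (n + n)) (_ : ∀ j ∉ slw_T n i, y j = x j), ‖cvg K l u y‖ₑ ^ p) ^ (1 / p) := by
      refine iSup_le fun r => ?_
      calc ‖cvg K l u (ln i (pr i x) r)‖ₑ = (‖cvg K l u (ln i (pr i x) r)‖ₑ ^ p) ^ (1 / p) := by
            rw [← ENNReal.rpow_mul, mul_one_div_cancel hp0.ne', ENNReal.rpow_one]
        _ ≤ _ := by
            refine ENNReal.rpow_le_rpow ?_ (by positivity)
            exact le_iSup₂ (f := fun (y : Eu (n + n)) (_ : ∀ j ∉ slw_T n i, y j = x j) =>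
              ‖cvg K l u y‖ₑ ^ p) (ln i (pr i x) r) (slw_T_ln i x r)
    refine (ENNReal.rpow_le_rpow h2 hp0.le).trans (le_of_eq ?_)
    rw [← ENNReal.rpow_mul, one_div_mul_cancel hp0.ne', ENNReal.rpow_one]
  · refine mul_le_mul_left (ENNReal.ofReal_le_ofReal ?_) _
    exact mul_le_mul_of_nonneg_right (hCs i) (Real.rpow_nonneg hl0.le _)

/-- subtraction of the mean -/
private theorem slw_mean {s p : ℝ} (hp : 1 < p) (hs0 : s < 0) {u : Eu (n + n) → Eu (n + n)}
    (hu : Continuous u) (hup : Per u) :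
    wspP s p (fun x => u x - mn u) ≤ 2 * wspP s p u := by
  have hn := wspNorm (n + n) s p hs0 hp
  rw [TrA.wspP_neg s p hs0]
  have hm : ENNReal.ofReal ‖mn u‖ ≤ wsp s p u := hn.1 u hu hup
  have hc : wsp s p (fun _ : Eu (n + n) => mn u) ≤ ENNReal.ofReal ‖mn u‖ := hn.2 (mn u)
  have h1 : wsp s p (fun x => u x - mn u) ≤
      wsp s p u + wsp s p (fun _ : Eu (n + n) => mn u) := by
    unfold wsp
    rw [if_neg (not_le.mpr hs0), if_neg (not_le.mpr hs0), if_neg (not_le.mpr hs0)]
    refine iSup₂_le fun v hv => ?_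
    have hi1 : Integrable (fun x => (inner ℝ (u x) (v x) : ℝ))
        (volume.restrict (cube (n + n))) := by
      have hcont : Continuous (fun x => (inner ℝ (u x) (v x) : ℝ)) := hu.inner hv.1.continuous
      exact HsA.int_cube hcont
    have hi2 : Integrable (fun x => (inner ℝ (mn u) (v x) : ℝ))
        (volume.restrict (cube (n + n))) := by
      have hcont : Continuous (fun x => (inner ℝ (mn u) (v x) : ℝ)) :=
        continuous_const.inner hv.1.continuous
      exact HsA.int_cube hcont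
    have h2 : ∫ x in cube (n + n), inner ℝ (u x - mn u) (v x) =
        (∫ x in cube (n + n), inner ℝ (u x) (v x)) -
          ∫ x in cube (n + n), inner ℝ (mn u) (v x) := by
      rw [← integral_sub hi1 hi2]
      refine integral_congr_ae (Filter.Eventually.of_forall fun x => ?_)
      exact inner_sub_left _ _ _
    rw [h2]
    refine (ENNReal.ofReal_le_ofReal (abs_sub _ _)).trans ?_
    refine (ENNReal.ofReal_add_le).trans ?_
    exact add_le_add
      (le_iSup₂ (f := fun (v : Eu (n + n) → Eu (n + n))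
        (_ : ContDiff ℝ ∞ v ∧ Per v ∧ slob (-s) (p / (p - 1)) v ≤ 1) =>
        ENNReal.ofReal |∫ x in cube (n + n), inner ℝ (u x) (v x)|) v hv)
      (le_iSup₂ (f := fun (v : Eu (n + n) → Eu (n + n))
        (_ : ContDiff ℝ ∞ v ∧ Per v ∧ slob (-s) (p / (p - 1)) v ≤ 1) =>
        ENNReal.ofReal |∫ x in cube (n + n), inner ℝ (mn u) (v x)|) v hv)
  calc wsp s p (fun x => u x - mn u) ≤
        wsp s p u + wsp s p (fun _ : Eu (n + n) => mn u) := h1
    _ ≤ wsp s p u + wsp s p u := add_le_add le_rfl (hc.trans hm)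
    _ = 2 * wsp s p u := (two_mul _).symm

/-- the supremum on a slice is measurable -/
private theorem slw_meas {K : Eu (n + n) → Eu (n + n)} (hK : ContDiff ℝ ∞ K)
    (hKs : HasCompactSupport K) {u : Eu (n + n) → Eu (n + n)} (hu : Continuous u) (i : Fin 2) :
    Measurable (fun z : Eu n × ℝ => ⨆ r : Eu n, ‖cvg K (max z.2 1) u (ln i z.1 r)‖ₑ) := by
  refine LowerSemicontinuous.measurable (lowerSemicontinuous_iSup fun r => ?_)
  refine Continuous.lowerSemicontinuous ?_
  have h1 : Continuous (fun z : Eu n × ℝ =>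
      ((⟨max z.2 1, mem_Ioi.mpr (lt_of_lt_of_le one_pos (le_max_right z.2 1))⟩ : Ioi (0 : ℝ)),
        ln i z.1 r)) := by
    refine Continuous.prodMk ?_ ?_
    · exact Continuous.subtype_mk (continuous_snd.max continuous_const) _
    · exact (slw_ln_cont i).comp (Continuous.prodMk continuous_fst continuous_const)
  exact ((cvg_cont hK hKs hu).comp h1).enorm

/-- the telescoping bound on one slice -/
private theorem slw_line {K : Eu (n + n) → Eu (n + n)} {v : Eu (n + n) → Eu (n + n)}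
    {H H₁ : Eu (n + n) → ℝ}
    (h1 : ∀ ε > 0, ∃ Λ₀ : ℝ, ∀ Λ ≥ Λ₀, ∀ x,
        |H x - H₁ x - ∫ l in (1 : ℝ)..Λ, l⁻¹ ^ 2 * cvg K l v x| ≤ ε) {M : ℝ}
    (h2 : ∀ x x', |H₁ x - H₁ x'| ≤ M) (i : Fin 2) (a : Eu n) (J : ℝ≥0∞)
    (hJ : ∫⁻ l in Ioi (1 : ℝ), ENNReal.ofReal (l⁻¹ ^ 2) *
      ⨆ r : Eu n, ‖cvg K (max l 1) v (ln i a r)‖ₑ ≤ J) (y y' : Eu n) :
    ENNReal.ofReal |H (ln i a y) - H (ln i a y')| ≤ ENNReal.ofReal M + 2 * J := by
  have hM : 0 ≤ M := (abs_nonneg _).trans (h2 (ln i a y) (ln i a y'))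
  rcases eq_or_ne J ⊤ with hJt | hJt
  · rw [hJt, ENNReal.mul_top two_ne_zero, add_top]
    exact le_top
  have hint : ∀ Λ : ℝ, 1 ≤ Λ → ∀ r : Eu n,
      |∫ l in (1 : ℝ)..Λ, l⁻¹ ^ 2 * cvg K l v (ln i a r)| ≤ J.toReal := by
    intro Λ hΛ r
    rw [← ENNReal.ofReal_le_iff_le_toReal hJt, ← Real.enorm_eq_ofReal_abs,
      intervalIntegral.integral_of_le hΛ]
    refine (enorm_integral_le_lintegral_enorm _).trans (le_trans ?_ hJ)
    refine le_trans (setLIntegral_mono' measurableSet_Ioc fun l hl => ?_)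
      (lintegral_mono_set (Ioc_subset_Ioi_self))
    rw [enorm_mul, Real.enorm_eq_ofReal (by positivity : (0 : ℝ) ≤ l⁻¹ ^ 2)]
    refine mul_le_mul_right ?_ _
    have h3 : max l 1 = l := max_eq_left hl.1.le
    refine le_trans (le_of_eq ?_) (le_iSup (fun r : Eu n => ‖cvg K (max l 1) v (ln i a r)‖ₑ) r)
    rw [h3]
  have hmain : |H (ln i a y) - H (ln i a y')| ≤ M + 2 * J.toReal := by
    refine le_of_forall_pos_le_add fun ε hε => ?_
    obtain ⟨Λ₀, hΛ₀⟩ := h1 (ε / 2) (by positivity)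
    have e1 := hΛ₀ (max Λ₀ 1) (le_max_left _ _) (ln i a y)
    have e2 := hΛ₀ (max Λ₀ 1) (le_max_left _ _) (ln i a y')
    have e3 := hint (max Λ₀ 1) (le_max_right _ _) y
    have e4 := hint (max Λ₀ 1) (le_max_right _ _) y'
    have e5 := h2 (ln i a y) (ln i a y')
    rw [abs_le] at e1 e2 e3 e4 e5 ⊢
    constructor <;> linarith [e1.1, e1.2, e2.1, e2.2, e3.1, e3.2, e4.1, e4.2, e5.1, e5.2]
  refine (ENNReal.ofReal_le_ofReal hmain).trans ?_
  rw [ENNReal.ofReal_add hM (by positivity), ENNReal.ofReal_mul zero_le_two,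
    ENNReal.ofReal_toReal hJt]
  simp

theorem slc_w_neg {s p : ℝ} (hp : 1 < p) (hs : -1 + n / p < s) (hs0 : s < 0) :
    Slc (n := n) (wspP s p) := by
  have hp0 : 0 < p := by linarith
  have hs1 : -1 < s := by
    have : 0 ≤ (n : ℝ) / p := by positivity
    linarith
  obtain ⟨K, K₀, c, hc, hK, hKs, hK₀, htel⟩ := tel (n := n)
  obtain ⟨C, hC, hsup⟩ := sup_slice hp hs1 hs0 hK hKs
  choose d hd hd₀ using fun j => sup_one hp hs1 hs0 (hK₀ j).1 (hK₀ j).2
  set d₀ : ℝ := ∑ j, d j with hd₀def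
  have hd₀0 : 0 ≤ d₀ := Finset.sum_nonneg fun j _ => hd j
  -- the integral over the scales
  set D : ℝ≥0∞ := ∫⁻ l in Ioi (1 : ℝ), ENNReal.ofReal (C * l ^ ((n : ℝ) / p - s - 2)) with hD
  have hDt : D ≠ ⊤ := by
    have h1 : IntegrableOn (fun l : ℝ => C * l ^ ((n : ℝ) / p - s - 2)) (Ioi 1) :=
      (integrableOn_Ioi_rpow_of_lt (by linarith) one_pos).const_mul C
    have h2 : 0 ≤ᵐ[volume.restrict (Ioi (1 : ℝ))]
        fun l : ℝ => C * l ^ ((n : ℝ) / p - s - 2) := by
      rw [Filter.EventuallyLE, ae_restrict_iff' measurableSet_Ioi]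
      refine Filter.Eventually.of_forall fun l hl => ?_
      have hl0 : (0 : ℝ) < l := lt_trans one_pos hl
      exact mul_nonneg hC (Real.rpow_nonneg hl0.le _)
    rw [hD, ← ofReal_integral_eq_lintegral_ofReal h1 h2]
    exact ENNReal.ofReal_ne_top
  refine ⟨2 * (c * d₀ + 2 * D.toReal) + 1, by positivity, ?_⟩
  intro i u hu hup hud
  set N : ℝ≥0∞ := wspP s p u with hN
  rcases eq_or_ne N ⊤ with hNt | hNt
  · rw [hNt, ENNReal.mul_top (by
      rw [Ne, ENNReal.ofReal_eq_zero, not_le]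
      positivity)]
    exact le_top
  set H : Eu (n + n) → ℝ := ham u with hHdef
  have hMH : MH (fun x => u x - mn u) H := ham_MH hu hup hud
  set v : Eu (n + n) → Eu (n + n) := fun x => u x - mn u with hv
  have hvc : Continuous v := hu.continuous.sub continuous_const
  have hvp : Per v := hMH.vp
  set Nv : ℝ≥0∞ := wspP s p v with hNv
  have hNv2 : Nv ≤ 2 * N := slw_mean hp hs0 hu.continuous hup
  have hNvt : Nv ≠ ⊤ := ne_top_of_le_ne_top (ENNReal.mul_ne_top ENNReal.ofNat_ne_top hNt) hNv2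
  obtain ⟨H₁, hH1, hH2⟩ := htel v H hMH
  set M : ℝ := d₀ * Nv.toReal with hM
  have hM0 : 0 ≤ M := by positivity
  have hMb : ∀ z j, |cvg (K₀ j) 1 v z| ≤ M := by
    intro z j
    have e0 := hd₀ j v hvc hvp z
    rw [← hNv, ← ENNReal.ofReal_toReal hNvt, ← ENNReal.ofReal_mul (hd j),
      ENNReal.ofReal_le_ofReal_iff (mul_nonneg (hd j) ENNReal.toReal_nonneg)] at e0
    refine e0.trans ?_
    rw [hM]
    exact mul_le_mul_of_nonneg_right
      (Finset.single_le_sum (f := d) (fun j _ => hd j) (Finset.mem_univ j)) ENNReal.toReal_nonneg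
  have hH3 := hH2 M hMb
  -- the function of the slice
  set S : Eu n → ℝ → ℝ≥0∞ := fun a l => ⨆ r : Eu n, ‖cvg K (max l 1) v (ln i a r)‖ₑ with hS
  set J : Eu n → ℝ≥0∞ := fun a => ∫⁻ l in Ioi (1 : ℝ), ENNReal.ofReal (l⁻¹ ^ 2) * S a l with hJ
  have hline : ∀ a y y', ENNReal.ofReal |H (ln i a y) - H (ln i a y')| ≤
      ENNReal.ofReal (c * M) + 2 * J a := fun a y y' => slw_line hH1 hH3 i a (J a) le_rfl y y'
  have hosf : ∀ a, ENNReal.ofReal (osf i u a) ≤ ENNReal.ofReal (c * M) + 2 * J a := by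
    intro a
    rcases eq_or_ne (ENNReal.ofReal (c * M) + 2 * J a) ⊤ with h | h
    · rw [h]
      exact le_top
    rw [ENNReal.ofReal_le_iff_le_toReal h]
    refine csSup_le ?_ ?_
    · refine Set.Nonempty.image _ ⟨0, fun j => ?_⟩
      simp
    rintro _ ⟨y, -, rfl⟩
    rw [← ENNReal.ofReal_le_iff_le_toReal h]
    exact hline a y 0
  have hSm : Measurable (fun z : Eu n × ℝ => S z.1 z.2) := slw_meas hK hKs hvc i
  have hfm : Measurable (fun z : Eu n × ℝ => ENNReal.ofReal (z.2⁻¹ ^ 2) * S z.1 z.2) :=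
    (ENNReal.measurable_ofReal.comp (measurable_snd.inv.pow_const 2)).mul hSm
  have hJm : Measurable J := hfm.lintegral_prod_right'
  have hJint : ∫⁻ a in cube n, J a ≤ D * Nv := by
    rw [hJ]
    rw [lintegral_lintegral_swap hfm.aemeasurable]
    have h1 : ∀ l ∈ Ioi (1 : ℝ), ∫⁻ a in cube n, ENNReal.ofReal (l⁻¹ ^ 2) * S a l ≤
        ENNReal.ofReal (C * l ^ ((n : ℝ) / p - s - 2)) * Nv := by
      intro l hl
      have hl1 : (1 : ℝ) ≤ l := le_of_lt hl
      have hl0 : (0 : ℝ) < l := lt_of_lt_of_le one_pos hl1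
      rw [lintegral_const_mul' _ _ ENNReal.ofReal_ne_top]
      have h2 := hsup i l hl1 v hvc hvp
      have h3 : ∀ a, S a l = ⨆ r : Eu n, ‖cvg K l v (ln i a r)‖ₑ := by
        intro a
        simp only [hS, max_eq_left hl1]
      simp only [h3]
      refine (mul_le_mul_right h2 _).trans (le_of_eq ?_)
      rw [← mul_assoc, ← ENNReal.ofReal_mul (by positivity)]
      congr 2
      rw [show ((n : ℝ) / p - s - 2 : ℝ) = ((n : ℝ) / p - s) + (-2 : ℝ) by ring,
        Real.rpow_add hl0, Real.rpow_neg hl0.le, Real.rpow_two, inv_pow]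
      ring
    refine (setLIntegral_mono' measurableSet_Ioi h1).trans (le_of_eq ?_)
    rw [hD, lintegral_mul_const' _ _ hNvt]
  calc ∫⁻ a in cube n, ENNReal.ofReal (osf i u a)
      ≤ ∫⁻ a in cube n, (ENNReal.ofReal (c * M) + 2 * J a) := lintegral_mono hosf
    _ = ENNReal.ofReal (c * M) + 2 * ∫⁻ a in cube n, J a := by
        rw [lintegral_add_left measurable_const, setLIntegral_const, HsA.vol_cube, mul_one,
          lintegral_const_mul _ hJm]
    _ ≤ ENNReal.ofReal (c * M) + 2 * (D * Nv) := by gcongr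
    _ = ENNReal.ofReal (c * d₀ + 2 * D.toReal) * Nv := by
        rw [ENNReal.ofReal_add (by positivity) (by positivity), add_mul,
          ENNReal.ofReal_mul (zero_le_two : (0 : ℝ) ≤ 2), ENNReal.ofReal_toReal hDt, hM,
          ← mul_assoc c, ENNReal.ofReal_mul (by positivity : (0 : ℝ) ≤ c * d₀),
          ENNReal.ofReal_toReal hNvt, ENNReal.ofReal_ofNat, mul_assoc]
    _ ≤ ENNReal.ofReal (c * d₀ + 2 * D.toReal) * (2 * N) := by gcongr
    _ = ENNReal.ofReal (2 * (c * d₀ + 2 * D.toReal)) * N := by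
        rw [ENNReal.ofReal_mul (zero_le_two : (0 : ℝ) ≤ 2), ENNReal.ofReal_ofNat]
        ring
    _ ≤ ENNReal.ofReal (2 * (c * d₀ + 2 * D.toReal) + 1) * N := by
        refine mul_le_mul_left (ENNReal.ofReal_le_ofReal (by linarith)) _

end

end TN
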